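import Pool.Agent.CRN.A1

/-!
# [CRN] The symmetric difference of two bodies at its extreme level
-/

set_option autoImplicit false
open MeasureTheory Set
open Pool.Agent.XA

namespace Pool.Agent.CRN

/-- the symmetric difference -/
def SD (K L : Set (ℝ × ℝ)) : Set (ℝ × ℝ) := {w | ¬ (w ∈ K ↔ w ∈ L)}

theorem SD_comm (K L : Set (ℝ × ℝ)) : SD K L = SD L K := by
  ext w
  simp only [SD, mem_ofPred_eq]
  tauto

theorem SD_subset (K L : Set (ℝ × ℝ)) : SD K L ⊆ K ∪ L := by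
  intro w hw
  by_contra h
  rw [mem_union, not_or] at h
  exact hw ⟨fun h' => absurd h' h.1, fun h' => absurd h' h.2⟩

theorem closure_SD_subset {K L : Set (ℝ × ℝ)} (hK : IsCompact K) (hL : IsCompact L) :
    closure (SD K L) ⊆ K ∪ L :=
  closure_minimal (SD_subset K L) (hK.isClosed.union hL.isClosed)

theorem isCompact_closure_SD {K L : Set (ℝ × ℝ)} (hK : IsCompact K) (hL : IsCompact L) :
    IsCompact (closure (SD K L)) :=
  (hK.union hL).of_isClosed_subset isClosed_closure (closure_SD_subset hK hL)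

theorem not_mem_closure_SD_of_interior {K L : Set (ℝ × ℝ)} {x : ℝ × ℝ} (h1 : x ∈ interior K)
    (h2 : x ∈ interior L) : x ∉ closure (SD K L) := by
  intro h
  obtain ⟨w, hw, hw'⟩ := mem_closure_iff.1 h (interior K ∩ interior L)
    (isOpen_interior.inter isOpen_interior) ⟨h1, h2⟩
  exact hw' ⟨fun _ => interior_subset hw.2, fun _ => interior_subset hw.1⟩

theorem zero_mem_of_Ioc {C : Set (ℝ × ℝ)} (hC : IsClosed C) {f : ℝ → ℝ × ℝ} (hf : Continuous f)
    (h : ∀ s ∈ Ioc (0 : ℝ) 1, f s ∈ C) : f 0 ∈ C := by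
  have h1 : IsClosed (f ⁻¹' C) := hC.preimage hf
  have h2 : closure (Ioc (0 : ℝ) 1) ⊆ f ⁻¹' C := closure_minimal h h1
  rw [closure_Ioc (by norm_num : (0 : ℝ) ≠ 1)] at h2
  exact h2 ⟨le_rfl, zero_le_one⟩

theorem exists_lt_of_compact {C : Set (ℝ × ℝ)} (hC : IsCompact C) {f : ℝ × ℝ → ℝ}
    (hf : Continuous f) {T : ℝ} (h : ∀ w ∈ C, f w < T) : ∃ c < T, ∀ w ∈ C, f w ≤ c := by
  rcases C.eq_empty_or_nonempty with h0 | h0
  · exact ⟨T - 1, by linarith, fun w hw => by rw [h0] at hw; exact absurd hw (notMem_empty w)⟩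
  · obtain ⟨z, hz, hm⟩ := hC.exists_isMaxOn h0 hf.continuousOn
    exact ⟨f z, h z hz, fun w hw => hm hw⟩

/-- the two bodies agree at and above the extreme level of their symmetric difference -/
theorem agree_ge_aux {K L : Set (ℝ × ℝ)} (hK : IsBody K) (hL : IsBody L) {θ T : ℝ}
    (hN : ∀ w ∈ closure (SD K L), lv θ w ≤ T) (hT : T < hs K θ) {w : ℝ × ℝ} (hw : T ≤ lv θ w)
    (h : w ∈ K) : w ∈ L := by
  have key : ∀ v ∈ K, T < lv θ v → v ∈ L := by
    intro v hv h1
    by_contra h2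
    have h3 : v ∈ SD K L := fun h => h2 (h.1 hv)
    have := hN v (subset_closure h3)
    linarith
  rcases hw.lt_or_eq with h1 | h1
  · exact key w h h1
  · obtain ⟨z, hz, e⟩ := exists_lv_eq_hs hK.compact (hK.nonempty.mono interior_subset) θ
    have h2 := zero_mem_of_Ioc hL.compact.isClosed (f := fun s : ℝ => w + s • (z - w))
      (by fun_prop) (fun s hs' => by
        apply key
        · exact hK.convex.add_smul_sub_mem h hz ⟨hs'.1.le, hs'.2⟩
        · rw [lv_add, lv_smul, lv_sub, e, ← h1]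
          have := mul_pos hs'.1 (sub_pos.2 hT)
          linarith)
    simpa using h2

theorem agree_ge {K L : Set (ℝ × ℝ)} (hK : IsBody K) (hL : IsBody L) {θ T : ℝ}
    (hN : ∀ w ∈ closure (SD K L), lv θ w ≤ T) (hTK : T < hs K θ) (hTL : T < hs L θ) {w : ℝ × ℝ}
    (hw : T ≤ lv θ w) : w ∈ K ↔ w ∈ L :=
  ⟨fun h => agree_ge_aux hK hL hN hTK hw h,
    fun h => agree_ge_aux hL hK (by rwa [SD_comm]) hTL hw h⟩

theorem below_closure {K L : Set (ℝ × ℝ)} (hK : IsBody K) {θ T : ℝ}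
    (hLb : ∀ w ∈ L, T ≤ lv θ w) {z x : ℝ × ℝ} (hz : z ∈ K) (hzT : lv θ z < T) (hx : x ∈ K)
    (hxT : lv θ x = T) : x ∈ closure (SD K L) := by
  have h2 := zero_mem_of_Ioc (isClosed_closure (s := SD K L)) (f := fun s : ℝ => x + s • (z - x))
    (by fun_prop) (fun s hs' => by
      apply subset_closure
      intro h
      have h3 := h.1 (hK.convex.add_smul_sub_mem hx hz ⟨hs'.1.le, hs'.2⟩)
      have h4 := hLb _ h3
      rw [lv_add, lv_smul, lv_sub, hxT] at h4
      have := mul_pos hs'.1 (sub_pos.2 hzT)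
      linarith)
  simpa using h2

/-- either both bottoms are below `T`, or the whole slice of level `T` is in the closure of the symmetric
difference -/
theorem bottoms {K L : Set (ℝ × ℝ)} (hK : IsBody K) (hL : IsBody L) {θ T : ℝ}
    (hN : ∀ w ∈ closure (SD K L), lv θ w ≤ T) (hTK : T < hs K θ) (hTL : T < hs L θ) {p : ℝ × ℝ}
    (hp : p ∈ closure (SD K L)) :
    (-hs K (θ + Real.pi) < T ∧ -hs L (θ + Real.pi) < T) ∨
      ((-hs K (θ + Real.pi) < T ∨ -hs L (θ + Real.pi) < T) ∧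
        ∀ x ∈ K, lv θ x = T → x ∈ closure (SD K L)) := by
  have h0 : (SD K L).Nonempty := closure_nonempty_iff.1 ⟨p, hp⟩
  obtain ⟨w, hw⟩ := h0
  have h1 : lv θ w < T := by
    rcases (hN w (subset_closure hw)).lt_or_eq with h | h
    · exact h
    · exact absurd (agree_ge hK hL hN hTK hTL h.ge) hw
  by_cases hk : -hs K (θ + Real.pi) < T
  · by_cases hl : -hs L (θ + Real.pi) < T
    · exact Or.inl ⟨hk, hl⟩
    · refine Or.inr ⟨Or.inl hk, fun x hx hxT => ?_⟩
      rw [not_lt] at hl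
      have hLb : ∀ w ∈ L, T ≤ lv θ w := fun w hw => hl.trans (neg_hs_le_lv hL.compact θ hw)
      have hwK : w ∈ K := by
        rcases SD_subset K L hw with h | h
        · exact h
        · exact absurd (hLb w h) (not_le.2 h1)
      exact below_closure hK hLb hwK h1 hx hxT
  · rw [not_lt] at hk
    have hKb : ∀ w ∈ K, T ≤ lv θ w := fun w hw => hk.trans (neg_hs_le_lv hK.compact θ hw)
    have hwL : w ∈ L := by
      rcases SD_subset K L hw with h | h
      · exact absurd (hKb w h) (not_le.2 h1)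
      · exact h
    refine Or.inr ⟨Or.inr ((neg_hs_le_lv hL.compact θ hwL).trans_lt h1), fun x hx hxT => ?_⟩
    rw [SD_comm]
    exact below_closure hL hKb hwL h1 ((agree_ge hK hL hN hTK hTL hxT.ge).1 hx) hxT

/-- the common slice at the level `T` -/
theorem chords_T {K L : Set (ℝ × ℝ)} (hK : IsBody K) (hL : IsBody L) {θ T : ℝ}
    (hN : ∀ w ∈ closure (SD K L), lv θ w ≤ T) (hTK : T < hs K θ) (hTL : T < hs L θ)
    (hk : -hs K (θ + Real.pi) < T) (hl : -hs L (θ + Real.pi) < T) :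
    ∃ a b, a < b ∧ {t : ℝ | pt θ T t ∈ K} = Icc a b ∧ {t : ℝ | pt θ T t ∈ L} = Icc a b ∧
      {t : ℝ | pt θ T t ∈ interior K} = Ioo a b ∧ {t : ℝ | pt θ T t ∈ interior L} = Ioo a b := by
  obtain ⟨a, b, hab, e1, e2⟩ := chord_single hK hk hTK
  obtain ⟨a', b', hab', e3, e4⟩ := chord_single hL hl hTL
  have h1 : {t : ℝ | pt θ T t ∈ K} = {t : ℝ | pt θ T t ∈ L} := by
    ext t
    exact agree_ge hK hL hN hTK hTL (by rw [lv_pt])
  rw [e1, e3] at h1
  have h2 : a = a' ∧ b = b' := (Icc_eq_Icc_iff hab.le).1 h1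
  obtain ⟨rfl, rfl⟩ := h2
  exact ⟨a, b, hab, e1, e3, e2, e4⟩

/-- points of the closure of the symmetric difference at the extreme level -/
theorem mem_both {K L : Set (ℝ × ℝ)} (hK : IsBody K) (hL : IsBody L) {θ T : ℝ}
    (hN : ∀ w ∈ closure (SD K L), lv θ w ≤ T) (hTK : T < hs K θ) (hTL : T < hs L θ) {x : ℝ × ℝ}
    (hx : x ∈ closure (SD K L)) (hxT : lv θ x = T) : x ∈ K ∧ x ∈ L := by
  rcases closure_SD_subset hK.compact hL.compact hx with h | h
  · exact ⟨h, (agree_ge hK hL hN hTK hTL hxT.ge).1 h⟩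
  · exact ⟨(agree_ge hK hL hN hTK hTL hxT.ge).2 h, h⟩

theorem end_of_both {K L : Set (ℝ × ℝ)} (hK : IsBody K) (hL : IsBody L) {θ T : ℝ}
    (hN : ∀ w ∈ closure (SD K L), lv θ w ≤ T) (hTK : T < hs K θ) (hTL : T < hs L θ)
    (hk : -hs K (θ + Real.pi) < T) (hl : -hs L (θ + Real.pi) < T) {x : ℝ × ℝ}
    (hx : x ∈ closure (SD K L)) (hxT : lv θ x = T) :
    ∃ a b, a < b ∧ {t : ℝ | pt θ T t ∈ K} = Icc a b ∧ {t : ℝ | pt θ T t ∈ L} = Icc a b ∧
      {t : ℝ | pt θ T t ∈ interior K} = Ioo a b ∧ {t : ℝ | pt θ T t ∈ interior L} = Ioo a b ∧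
      (tg θ x = a ∨ tg θ x = b) := by
  obtain ⟨a, b, hab, e1, e2, e3, e4⟩ := chords_T hK hL hN hTK hTL hk hl
  refine ⟨a, b, hab, e1, e2, e3, e4, ?_⟩
  have hxe : pt θ T (tg θ x) = x := by rw [← hxT, pt_lv_tg]
  have h1 : tg θ x ∈ Icc a b := by
    rw [← e1]
    show pt θ T (tg θ x) ∈ K
    rw [hxe]
    exact (mem_both hK hL hN hTK hTL hx hxT).1
  by_contra h
  rw [not_or] at h
  have h2 : tg θ x ∈ Ioo a b := ⟨lt_of_le_of_ne h1.1 (Ne.symm h.1), lt_of_le_of_ne h1.2 h.2⟩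
  have h3 : x ∈ interior K := by
    have : tg θ x ∈ {t : ℝ | pt θ T t ∈ interior K} := by rw [e3]; exact h2
    rw [← hxe]
    exact this
  have h4 : x ∈ interior L := by
    have : tg θ x ∈ {t : ℝ | pt θ T t ∈ interior L} := by rw [e4]; exact h2
    rw [← hxe]
    exact this
  exact not_mem_closure_SD_of_interior h3 h4 hx

/-- extreme points of the closure of the symmetric difference at the extreme level are ends -/
theorem ext_end {K L : Set (ℝ × ℝ)} (hK : IsBody K) (hL : IsBody L) {θ T : ℝ}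
    (hN : ∀ w ∈ closure (SD K L), lv θ w ≤ T) (hTK : T < hs K θ) (hTL : T < hs L θ) {x : ℝ × ℝ}
    (hx : x ∈ closure (SD K L)) (hxT : lv θ x = T)
    (hext : (∀ w ∈ closure (SD K L), lv θ w = T → tg θ x ≤ tg θ w) ∨
      (∀ w ∈ closure (SD K L), lv θ w = T → tg θ w ≤ tg θ x)) :
    EndA K θ x ∨ EndB K θ x := by
  rcases bottoms hK hL hN hTK hTL hx with ⟨hk, hl⟩ | ⟨-, h⟩
  · obtain ⟨a, b, hab, e1, -, -, -, h | h⟩ := end_of_both hK hL hN hTK hTL hk hl hx hxT
    · left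
      intro w hw hwx
      have : tg θ w ∈ {t : ℝ | pt θ T t ∈ K} := by
        show pt θ T (tg θ w) ∈ K
        rw [← hxT, ← hwx, pt_lv_tg]
        exact hw
      rw [e1] at this
      rw [h]
      exact this.1
    · right
      intro w hw hwx
      have : tg θ w ∈ {t : ℝ | pt θ T t ∈ K} := by
        show pt θ T (tg θ w) ∈ K
        rw [← hxT, ← hwx, pt_lv_tg]
        exact hw
      rw [e1] at this
      rw [h]
      exact this.2
  · rcases hext with h' | h'
    · exact Or.inl fun w hw hwx => h' w (h w hw (hwx.trans hxT)) (hwx.trans hxT)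
    · exact Or.inr fun w hw hwx => h' w (h w hw (hwx.trans hxT)) (hwx.trans hxT)

/-- a unique point at the extreme level: both bottoms are below -/
theorem both_bottoms {K L : Set (ℝ × ℝ)} (hK : IsBody K) (hL : IsBody L) {θ T : ℝ}
    (hN : ∀ w ∈ closure (SD K L), lv θ w ≤ T) (hTK : T < hs K θ) (hTL : T < hs L θ) {p : ℝ × ℝ}
    (hp : p ∈ closure (SD K L))
    (hu : ∀ w ∈ closure (SD K L), lv θ w = T → w = p) :
    -hs K (θ + Real.pi) < T ∧ -hs L (θ + Real.pi) < T := by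
  rcases bottoms hK hL hN hTK hTL hp with h | ⟨h1, h2⟩
  · exact h
  · exfalso
    have key : ∀ M : Set (ℝ × ℝ), IsBody M → -hs M (θ + Real.pi) < T → T < hs M θ →
        (∀ t, pt θ T t ∈ M → pt θ T t ∈ K) → False := by
      intro M hM a1 a2 a3
      obtain ⟨a, b, hab, e1, -⟩ := chord_single hM a1 a2
      have ha : a ∈ {t : ℝ | pt θ T t ∈ M} := by rw [e1]; exact ⟨le_rfl, hab.le⟩
      have hb : b ∈ {t : ℝ | pt θ T t ∈ M} := by rw [e1]; exact ⟨hab.le, le_rfl⟩
      have ea := hu _ (h2 _ (a3 a ha) (lv_pt _ _ _)) (lv_pt _ _ _)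
      have eb := hu _ (h2 _ (a3 b hb) (lv_pt _ _ _)) (lv_pt _ _ _)
      have : a = b := by rw [← tg_pt θ T a, ← tg_pt θ T b, ea, eb]
      exact hab.ne this
    rcases h1 with h1 | h1
    · exact key K hK h1 hTK fun t ht => ht
    · exact key L hL h1 hTL fun t ht =>
        (agree_ge hK hL hN hTK hTL (by rw [lv_pt])).2 ht

/-- points close to `x` at the levels slightly below the level of `x` -/
theorem near_pts {K : Set (ℝ × ℝ)} (hK : Convex ℝ K) {θ T δ : ℝ} (hδ : 0 < δ) {x z : ℝ × ℝ}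
    (hx : x ∈ K) (hz : z ∈ K) (hxT : lv θ x = T) (hzT : lv θ z < T) :
    ∃ c < T, ∀ c' ∈ Ioo c T, ∃ w ∈ K, lv θ w = c' ∧ |tg θ w - tg θ x| < δ := by
  set D : ℝ := |tg θ z - tg θ x| with hD
  have hD0 : 0 ≤ D := abs_nonneg _
  have h0 : 0 < T - lv θ z := by linarith
  have h1 : 0 < (T - lv θ z) * (δ / (D + 1)) := by positivity
  refine ⟨max (lv θ z) (T - (T - lv θ z) * (δ / (D + 1))), max_lt hzT (by linarith), ?_⟩
  intro c' hc'
  have h2 := (le_max_left _ _).trans_lt hc'.1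
  have h3 := (le_max_right _ _).trans_lt hc'.1
  set s : ℝ := (T - c') / (T - lv θ z) with hs'
  have hs0 : 0 ≤ s := div_nonneg (by linarith [hc'.2]) h0.le
  have hs1 : s ≤ 1 := by
    rw [hs', div_le_one h0]
    linarith
  have hs2 : s * (D + 1) < δ := by
    have : s < δ / (D + 1) := by
      rw [hs', div_lt_iff₀ h0]
      linarith
    rwa [lt_div_iff₀ (by positivity)] at this
  refine ⟨x + s • (z - x), hK.add_smul_sub_mem hx hz ⟨hs0, hs1⟩, ?_, ?_⟩
  · rw [lv_add, lv_smul, lv_sub, hxT, hs']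
    field_simp
    ring
  · have e : tg θ (x + s • (z - x)) - tg θ x = s * (tg θ z - tg θ x) := by
      rw [tg_add, tg_smul, tg_sub]
      ring
    rw [e, abs_mul, abs_of_nonneg hs0, ← hD]
    nlinarith

end Pool.Agent.CRN
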