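import Pool.Agent.CRN.B2

/-!
# [CRN] Finite sets of angles, and preparations for the assembly
-/

set_option autoImplicit false
open MeasureTheory Set
open Pool.Agent.XA

namespace Pool.Agent.CRN

open Classical in
/-- the elements of a finite set of reals that are neither the smallest nor the largest one -/
noncomputable def mid (S : Finset ℝ) : Finset ℝ :=
  S.filter fun i => (∃ j ∈ S, j < i) ∧ (∃ k ∈ S, i < k)

theorem mem_mid {S : Finset ℝ} {i : ℝ} :
    i ∈ mid S ↔ i ∈ S ∧ (∃ j ∈ S, j < i) ∧ (∃ k ∈ S, i < k) := by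
  classical
  unfold mid
  rw [Finset.mem_filter]

theorem mid_subset (S : Finset ℝ) : mid S ⊆ S := fun _ h => (mem_mid.1 h).1

theorem card_mid (S : Finset ℝ) : S.card ≤ (mid S).card + 2 := by
  classical
  rcases S.eq_empty_or_nonempty with h | h
  · rw [h]
    simp
  · have h1 : S ⊆ mid S ∪ {S.min' h, S.max' h} := by
      intro i hi
      rw [Finset.mem_union, Finset.mem_insert, Finset.mem_singleton]
      by_cases h2 : i = S.min' h
      · exact Or.inr (Or.inl h2)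
      · by_cases h3 : i = S.max' h
        · exact Or.inr (Or.inr h3)
        · left
          rw [mem_mid]
          exact ⟨hi, ⟨S.min' h, S.min'_mem h, lt_of_le_of_ne (S.min'_le i hi) (Ne.symm h2)⟩,
            ⟨S.max' h, S.max'_mem h, lt_of_le_of_ne (S.le_max' i hi) h3⟩⟩
    calc S.card ≤ (mid S ∪ {S.min' h, S.max' h}).card := Finset.card_le_card h1
      _ ≤ (mid S).card + ({S.min' h, S.max' h} : Finset ℝ).card := Finset.card_union_le _ _
      _ ≤ (mid S).card + 2 := by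
        have := Finset.card_le_two (a := S.min' h) (b := S.max' h)
        omega

theorem top_of_mid {M : Set (ℝ × ℝ)} (hM : IsBody M) {S : Finset ℝ} {α : ℝ}
    (hS : ∀ ψ ∈ S, α < ψ ∧ ψ < α + Real.pi) {V : ℝ × ℝ} (hV : ∀ ψ ∈ S, lv ψ V = hs M ψ) {i : ℝ}
    (hi : i ∈ mid S) : Top M i V := by
  obtain ⟨h1, ⟨j, hj, hji⟩, ⟨k, hk, hik⟩⟩ := mem_mid.1 hi
  have hkj : k < j + Real.pi := by
    have := (hS j hj).1
    have := (hS k hk).2
    linarith
  refine ⟨mem_of_three hM hji hik hkj (hV j hj) (hV i h1) (hV k hk), fun w hw hne => ?_⟩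
  by_contra h
  rw [not_lt, hV i h1] at h
  exact hne (top_unique hM.compact hji hik hkj (hV j hj) (hV i h1) (hV k hk) hw h)

theorem closure_le_of_agree {K L : Set (ℝ × ℝ)} {θ c : ℝ}
    (h : ∀ w, c < lv θ w → (w ∈ K ↔ w ∈ L)) : ∀ w ∈ closure (SD K L), lv θ w ≤ c := by
  have h1 : closure (SD K L) ⊆ {w | lv θ w ≤ c} := by
    refine closure_minimal (fun w hw => ?_) (isClosed_le (continuous_lv_right θ) continuous_const)
    by_contra h2
    exact hw (h w (not_le.1 h2))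
  exact fun w hw => h1 hw

theorem agree_of_closure_le {K L : Set (ℝ × ℝ)} {θ c : ℝ}
    (h : ∀ w ∈ closure (SD K L), lv θ w ≤ c) : ∀ w, c < lv θ w → (w ∈ K ↔ w ∈ L) := by
  intro w hw
  by_contra h1
  exact absurd (h w (subset_closure h1)) (not_le.2 hw)

theorem slice_eq_of_closure_le {K L : Set (ℝ × ℝ)} {θ c c' : ℝ}
    (h : ∀ w ∈ closure (SD K L), lv θ w ≤ c) (hc : c < c') :
    {t : ℝ | pt θ c' t ∈ K} = {t : ℝ | pt θ c' t ∈ L} := by
  ext t
  exact agree_of_closure_le h _ (by rw [lv_pt]; exact hc)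

/-- the extreme level of a compact set, with its two extreme points -/
theorem ext_pair {C : Set (ℝ × ℝ)} (hC : IsCompact C) (hne : C.Nonempty) (θ : ℝ) :
    ∃ T, (∀ w ∈ C, lv θ w ≤ T) ∧ ∃ A ∈ C, ∃ B ∈ C, lv θ A = T ∧ lv θ B = T ∧
      (∀ w ∈ C, lv θ w = T → tg θ A ≤ tg θ w) ∧ (∀ w ∈ C, lv θ w = T → tg θ w ≤ tg θ B) := by
  obtain ⟨z, hz, hm⟩ := hC.exists_isMaxOn hne (continuous_lv_right θ).continuousOn
  have hF : IsCompact (C ∩ {w | lv θ w = lv θ z}) :=
    hC.inter_right (isClosed_eq (continuous_lv_right θ) continuous_const)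
  have hFne : (C ∩ {w | lv θ w = lv θ z}).Nonempty := ⟨z, hz, rfl⟩
  obtain ⟨A, hA, hA'⟩ := hF.exists_isMinOn hFne (continuous_tg_right θ).continuousOn
  obtain ⟨B, hB, hB'⟩ := hF.exists_isMaxOn hFne (continuous_tg_right θ).continuousOn
  exact ⟨lv θ z, fun w hw => hm hw, A, hA.1, B, hB.1, hA.2, hB.2,
    fun w hw hwT => hA' ⟨hw, hwT⟩, fun w hw hwT => hB' ⟨hw, hwT⟩⟩

theorem hs_lt_of_subset {K P : Set (ℝ × ℝ)} (hK : IsBody K) (hP : IsBody P)
    (h : P ⊆ interior K) (θ : ℝ) : hs P θ < hs K θ := by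
  obtain ⟨w, hw, e⟩ := exists_lv_eq_hs hP.compact (hP.nonempty.mono interior_subset) θ
  rw [← e]
  exact lv_lt_hs hK.compact θ (h hw)

theorem slice_interior_empty {P : Set (ℝ × ℝ)} (hP : IsBody P) {θ c : ℝ} (h : hs P θ < c) :
    {t : ℝ | pt θ c t ∈ interior P} = ∅ := by
  ext t
  simp only [mem_ofPred_eq, mem_empty_iff_false, iff_false]
  intro ht
  have := lv_lt_hs hP.compact θ ht
  rw [lv_pt] at this
  linarith

/-- above both inner bodies -/
theorem slices_above {K P L Q : Set (ℝ × ℝ)} (hK : IsBody K) (hP : IsBody P) (hL : IsBody L)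
    (hQ : IsBody Q) (hPK : P ⊆ interior K) (hQL : Q ⊆ interior L) {θ c : ℝ}
    (hX : volume {t : ℝ | pt θ c t ∈ K \ interior P} =
      volume {t : ℝ | pt θ c t ∈ L \ interior Q}) (hc : max (hs P θ) (hs Q θ) < c) :
    volume {t : ℝ | pt θ c t ∈ K} = volume {t : ℝ | pt θ c t ∈ L} := by
  apply vol_outer hK hL hPK hQL hX
  rw [slice_interior_empty hP ((le_max_left _ _).trans_lt hc),
    slice_interior_empty hQ ((le_max_right _ _).trans_lt hc)]

theorem hs_le_of_int {P Q : Set (ℝ × ℝ)} (hP : IsBody P) (hQ : IsBody Q) {θ c : ℝ}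
    (hc : c < max (hs P θ) (hs Q θ))
    (h : ∀ c', c < c' → volume {t : ℝ | pt θ c' t ∈ interior P} =
      volume {t : ℝ | pt θ c' t ∈ interior Q}) : hs P θ ≤ hs Q θ := by
  by_contra hlt
  rw [not_le] at hlt
  rw [max_eq_left hlt.le] at hc
  have hw := width_pos hP θ
  obtain ⟨c', h1, h2⟩ := exists_between (max_lt hc (max_lt hlt (show -hs P (θ + Real.pi) < hs P θ
    by linarith)))
  rw [max_lt_iff, max_lt_iff] at h1
  obtain ⟨g1, g2, g3⟩ := h1
  obtain ⟨a, b, hab, -, e⟩ := chord_single hP g3 h2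
  have h3 := h c' g1
  rw [slice_interior_empty hQ g2, e, Real.volume_Ioo, measure_empty,
    ENNReal.ofReal_eq_zero] at h3
  linarith

theorem hs_eq_of_int {P Q : Set (ℝ × ℝ)} (hP : IsBody P) (hQ : IsBody Q) {θ c : ℝ}
    (hc : c < max (hs P θ) (hs Q θ))
    (h : ∀ c', c < c' → volume {t : ℝ | pt θ c' t ∈ interior P} =
      volume {t : ℝ | pt θ c' t ∈ interior Q}) : hs P θ = hs Q θ :=
  le_antisymm (hs_le_of_int hP hQ hc h)
    (hs_le_of_int hQ hP (by rwa [max_comm]) fun c' hc' => (h c' hc').symm)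

end Pool.Agent.CRN
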