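import Pool.Agent.CRN.C3
import Pool.Agent.XA.T1
import Pool.Agent.XA.T2

/-!
# [CRN] Transfer to the Euclidean plane
-/

set_option autoImplicit false
open MeasureTheory Set
open Pool.Agent.XA

namespace Pool.Agent.CRN

/-- a convex annulus `K \ interior P` of the Euclidean plane, given by its two convex bodies: `K`, `P` are compact
and convex, `P` has interior points and `P` is contained in the interior of `K` -/
structure Annulus (K P : Set (EuclideanSpace ℝ (Fin 2))) : Prop where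
  compact : IsCompact K
  convex : Convex ℝ K
  compact' : IsCompact P
  convex' : Convex ℝ P
  nonempty' : (interior P).Nonempty
  subset : P ⊆ interior K

/-- the X-rays of `A` and `B` in the direction `u` are equal -/
def SameXray (A B : Set (EuclideanSpace ℝ (Fin 2))) (u : EuclideanSpace ℝ (Fin 2)) : Prop :=
  ∀ x : EuclideanSpace ℝ (Fin 2), volume {t : ℝ | x + t • u ∈ A} = volume {t : ℝ | x + t • u ∈ B}

/-- the unit vector of angle `ψ` is an outer normal of `K` at its point `V` -/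
def NormalAt (K : Set (EuclideanSpace ℝ (Fin 2))) (V : EuclideanSpace ℝ (Fin 2)) (ψ : ℝ) : Prop :=
  V ∈ K ∧ ∀ x ∈ K, x 0 * Real.cos ψ + x 1 * Real.sin ψ ≤ V 0 * Real.cos ψ + V 1 * Real.sin ψ

theorem Annulus.bK {K P : Set (EuclideanSpace ℝ (Fin 2))} (h : Annulus K P) :
    IsBody (toE ⁻¹' K) := by
  refine IsBody_toE h.compact h.convex ?_
  obtain ⟨x, hx⟩ := h.nonempty'
  exact ⟨x, h.subset (interior_subset hx)⟩

theorem Annulus.bP {K P : Set (EuclideanSpace ℝ (Fin 2))} (h : Annulus K P) :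
    IsBody (toE ⁻¹' P) := IsBody_toE h.compact' h.convex' h.nonempty'

theorem Annulus.sub {K P : Set (EuclideanSpace ℝ (Fin 2))} (h : Annulus K P) :
    toE ⁻¹' P ⊆ interior (toE ⁻¹' K) := by
  rw [interior_toE]
  exact preimage_mono h.subset

theorem lv_eq_coord (ψ : ℝ) (v : ℝ × ℝ) :
    lv ψ v = toE v 0 * Real.cos ψ + toE v 1 * Real.sin ψ := by
  rw [t1_toE_zero, t1_toE_one]
  rfl

theorem NormalAt.hs_eq {K : Set (EuclideanSpace ℝ (Fin 2))} {v : ℝ × ℝ} {ψ : ℝ}
    (hc : IsCompact (toE ⁻¹' K)) (h : NormalAt K (toE v) ψ) : lv ψ v = hs (toE ⁻¹' K) ψ := by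
  refine le_antisymm (lv_le_hs hc ψ h.1) (hs_le ⟨v, h.1⟩ fun w hw => ?_)
  rw [lv_eq_coord, lv_eq_coord]
  exact h.2 (toE w) hw

theorem toE_pt (θ c t : ℝ) :
    toE (pt θ c t) = (!₂[c * Real.cos θ, c * Real.sin θ] : EuclideanSpace ℝ (Fin 2)) +
      t • (!₂[-Real.sin θ, Real.cos θ] : EuclideanSpace ℝ (Fin 2)) := by
  ext i
  fin_cases i
  · simp [toE, pt]
    ring
  · simp [toE, pt]

theorem slices_of_sameXray {A B : Set (EuclideanSpace ℝ (Fin 2))} {θ : ℝ}
    (h : SameXray A B !₂[-Real.sin θ, Real.cos θ]) (c : ℝ) :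
    volume {t : ℝ | pt θ c t ∈ toE ⁻¹' A} = volume {t : ℝ | pt θ c t ∈ toE ⁻¹' B} := by
  have e : ∀ C : Set (EuclideanSpace ℝ (Fin 2)), {t : ℝ | pt θ c t ∈ toE ⁻¹' C} =
      {t : ℝ | (!₂[c * Real.cos θ, c * Real.sin θ] : EuclideanSpace ℝ (Fin 2)) +
        t • (!₂[-Real.sin θ, Real.cos θ] : EuclideanSpace ℝ (Fin 2)) ∈ C} := by
    intro C
    ext t
    rw [mem_ofPred_eq, mem_ofPred_eq, mem_preimage, toE_pt]
  rw [e, e]
  exact h _

/-- scaling the direction -/
theorem SameXray.of_smul {A B : Set (EuclideanSpace ℝ (Fin 2))} {v : EuclideanSpace ℝ (Fin 2)}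
    {r : ℝ} (hr : r ≠ 0) (h : SameXray A B (r • v)) : SameXray A B v := by
  intro x
  have key : ∀ C : Set (EuclideanSpace ℝ (Fin 2)), volume {t : ℝ | x + t • v ∈ C} =
      ENNReal.ofReal |(r⁻¹)⁻¹| * volume {t : ℝ | x + t • (r • v) ∈ C} := by
    intro C
    rw [← Real.volume_preimage_mul_left (inv_ne_zero hr)]
    congr 1
    ext t
    simp only [mem_ofPred_eq, mem_preimage]
    rw [smul_smul, mul_assoc, mul_comm t r, ← mul_assoc, inv_mul_cancel₀ hr, one_mul]
  rw [key, key, h x]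

/-- **Local theorem.**  If eleven normals in an open half-circle are normals of `K` at `V` and of `P` at `y`,
then the annulus `K \ int P` is determined by the X-rays in the corresponding eleven directions. -/
theorem local_thm {K P L Q : Set (EuclideanSpace ℝ (Fin 2))} (hK : Annulus K P)
    (hL : Annulus L Q) {S : Finset ℝ} {α : ℝ} (hS : ∀ ψ ∈ S, α < ψ ∧ ψ < α + Real.pi)
    (hcard : 11 ≤ S.card) {V y : EuclideanSpace ℝ (Fin 2)} (hV : ∀ ψ ∈ S, NormalAt K V ψ)
    (hy : ∀ ψ ∈ S, NormalAt P y ψ)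
    (hX : ∀ ψ ∈ S, SameXray (K \ interior P) (L \ interior Q) !₂[-Real.sin ψ, Real.cos ψ]) :
    K = L ∧ P = Q := by
  obtain ⟨v, rfl⟩ := toE_surjective V
  obtain ⟨z, rfl⟩ := toE_surjective y
  have s : Sit (toE ⁻¹' K) (toE ⁻¹' P) (toE ⁻¹' L) (toE ⁻¹' Q) S α v z :=
    { bK := hK.bK
      bP := hK.bP
      bL := hL.bK
      bQ := hL.bP
      hPK := hK.sub
      hQL := hL.sub
      inS := hS
      hV := fun ψ hψ => (hV ψ hψ).hs_eq hK.bK.compact
      hy := fun ψ hψ => (hy ψ hψ).hs_eq hK.bP.compact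
      hX := fun ψ hψ c => by
        have := slices_of_sameXray (hX ψ hψ) c
        rw [interior_toE, interior_toE]
        exact this }
  obtain ⟨h1, h2⟩ := s.main hcard
  exact ⟨eq_of_toE h1, eq_of_toE h2⟩

end Pool.Agent.CRN
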