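import Pool.Agent.XA.V5

/-!
# [CRN] Convex annuli with facing corners: elementary lemmas

Planar lemmas about levels `lv θ` and ends of slices, used to show that two convex annuli with the same X-rays
in suitable directions coincide if the outer body has a corner `V` and the inner body has a corner `y` with the
same normals.
-/

set_option autoImplicit false
open MeasureTheory Set
open Pool.Agent.XA

namespace Pool.Agent.CRN

/-- `x` is the end with the smallest coordinate of the slice of `K` at its level -/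
def EndA (K : Set (ℝ × ℝ)) (θ : ℝ) (x : ℝ × ℝ) : Prop :=
  ∀ w ∈ K, lv θ w = lv θ x → tg θ x ≤ tg θ w

/-- `x` is the end with the largest coordinate of the slice of `K` at its level -/
def EndB (K : Set (ℝ × ℝ)) (θ : ℝ) (x : ℝ × ℝ) : Prop :=
  ∀ w ∈ K, lv θ w = lv θ x → tg θ w ≤ tg θ x

theorem sin_pos' {a b : ℝ} (h1 : a < b) (h2 : b < a + Real.pi) : 0 < Real.sin (b - a) :=
  Real.sin_pos_of_pos_of_lt_pi (by linarith) (by linarith)

theorem eq_of_lv {θ θ' : ℝ} (h1 : θ < θ') (h2 : θ' < θ + Real.pi) {v w : ℝ × ℝ}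
    (ha : lv θ v = lv θ w) (hb : lv θ' v = lv θ' w) : v = w := by
  have hs := sin_pos' h1 h2
  have e1 := lv_eq θ' θ v
  have e2 := lv_eq θ' θ w
  have e3 : tg θ v = tg θ w := by
    have : (tg θ v - tg θ w) * Real.sin (θ' - θ) = 0 := by
      rw [ha] at e1
      linarith
    rcases mul_eq_zero.1 this with h | h
    · linarith
    · exact absurd h hs.ne'
  rw [← pt_lv_tg θ v, ← pt_lv_tg θ w, ha, e3]

theorem eq_of_lv_tg {θ : ℝ} {v w : ℝ × ℝ} (ha : lv θ v = lv θ w) (hb : tg θ v = tg θ w) :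
    v = w := by
  rw [← pt_lv_tg θ v, ← pt_lv_tg θ w, ha, hb]

/-- a point of `K` that is extreme at the middle one of three angles at which `V` is extreme is `V` -/
theorem top_unique {K : Set (ℝ × ℝ)} (hK : IsCompact K) {a b c : ℝ} (hab : a < b) (hbc : b < c)
    (hac : c < a + Real.pi) {V w : ℝ × ℝ} (ha : lv a V = hs K a) (hb : lv b V = hs K b)
    (hc : lv c V = hs K c) (hw : w ∈ K) (hw' : hs K b ≤ lv b w) : w = V := by
  have h1 := lv_le_hs hK a hw
  have h2 := lv_le_hs hK b hw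
  have h3 := lv_le_hs hK c hw
  have h4 := lv_comb a b c (w - V)
  rw [lv_sub, lv_sub, lv_sub] at h4
  have s2 := sin_pos' hbc (by linarith)
  have s3 := sin_pos' hab (by linarith)
  have e0 : lv b w = lv b V := by linarith
  rw [e0, sub_self, mul_zero] at h4
  have e1 : lv a w = lv a V := by
    have h5 : Real.sin (c - b) * (lv a w - lv a V) ≤ 0 :=
      mul_nonpos_of_nonneg_of_nonpos s2.le (by linarith)
    have h6 : Real.sin (b - a) * (lv c w - lv c V) ≤ 0 :=
      mul_nonpos_of_nonneg_of_nonpos s3.le (by linarith)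
    have h7 : Real.sin (c - b) * (lv a w - lv a V) = 0 := by linarith
    rcases mul_eq_zero.1 h7 with h | h
    · exact absurd h s2.ne'
    · linarith
  exact eq_of_lv hab (by linarith) e1 e0

theorem mem_of_three {K : Set (ℝ × ℝ)} (hK : IsBody K) {a b c : ℝ} (hab : a < b) (hbc : b < c)
    (hac : c < a + Real.pi) {V : ℝ × ℝ} (ha : lv a V = hs K a) (hb : lv b V = hs K b)
    (hc : lv c V = hs K c) : V ∈ K := by
  obtain ⟨w, hw, e⟩ := exists_lv_eq_hs hK.compact (hK.nonempty.mono interior_subset) b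
  have := top_unique hK.compact hab hbc hac ha hb hc hw e.ge
  rwa [← this]

/-- **identification of right ends** -/
theorem id_B {K : Set (ℝ × ℝ)} (hK : Convex ℝ K) {θ θ' : ℝ} (h1 : θ < θ')
    (h2 : θ' < θ + Real.pi) {V x x' : ℝ × ℝ} (hV : V ∈ K) (hx' : x' ∈ K)
    (a1 : lv θ x < lv θ V) (a2 : lv θ' x' < lv θ' V) (a3 : lv θ x' ≤ lv θ x)
    (a4 : lv θ' x ≤ lv θ' x') (hB : EndB K θ x) : x = x' := by
  have hs := sin_pos' h1 h2
  set μ : ℝ := (lv θ x - lv θ x') / (lv θ V - lv θ x') with hμ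
  have hd : 0 < lv θ V - lv θ x' := by linarith
  have hμ0 : 0 ≤ μ := div_nonneg (by linarith) hd.le
  have hμ1 : μ < 1 := by
    rw [hμ, div_lt_one hd]
    linarith
  have hz : x' + μ • (V - x') ∈ K := hK.add_smul_sub_mem hx' hV ⟨hμ0, hμ1.le⟩
  have hlz : lv θ (x' + μ • (V - x')) = lv θ x := by
    rw [lv_add, lv_smul, lv_sub, hμ]
    field_simp
    ring
  have h3 := hB _ hz hlz
  have e1 := lv_eq θ' θ (x' + μ • (V - x') - x)
  rw [lv_sub θ, hlz, sub_self, zero_mul, zero_add, tg_sub, lv_sub θ', lv_add θ', lv_smul θ',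
    lv_sub θ'] at e1
  have h4 : (tg θ (x' + μ • (V - x')) - tg θ x) * Real.sin (θ' - θ) ≤ 0 :=
    mul_nonpos_of_nonpos_of_nonneg (by linarith) hs.le
  have h5 : 0 ≤ μ * (lv θ' V - lv θ' x') := mul_nonneg hμ0 (by linarith)
  have h6 : μ * (lv θ' V - lv θ' x') = 0 := by linarith
  have h7 : μ = 0 := by
    rcases mul_eq_zero.1 h6 with h | h
    · exact h
    · linarith
  have h8 : lv θ' x = lv θ' x' := by
    rw [h6] at e1
    linarith
  have h9 : lv θ x = lv θ x' := by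
    rw [h7, zero_smul, add_zero] at hlz
    exact hlz.symm
  exact eq_of_lv h1 h2 h9 h8

/-- **identification of left ends** -/
theorem id_A {K : Set (ℝ × ℝ)} (hK : Convex ℝ K) {θ θ' : ℝ} (h1 : θ < θ')
    (h2 : θ' < θ + Real.pi) {V x x' : ℝ × ℝ} (hV : V ∈ K) (hx : x ∈ K)
    (a1 : lv θ x < lv θ V) (a2 : lv θ' x' < lv θ' V) (a3 : lv θ x' ≤ lv θ x)
    (a4 : lv θ' x ≤ lv θ' x') (hA : EndA K θ' x') : x = x' := by
  have hs := sin_pos' h1 h2
  set μ : ℝ := (lv θ' x' - lv θ' x) / (lv θ' V - lv θ' x) with hμ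
  have hd : 0 < lv θ' V - lv θ' x := by linarith
  have hμ0 : 0 ≤ μ := div_nonneg (by linarith) hd.le
  have hμ1 : μ < 1 := by
    rw [hμ, div_lt_one hd]
    linarith
  have hz : x + μ • (V - x) ∈ K := hK.add_smul_sub_mem hx hV ⟨hμ0, hμ1.le⟩
  have hlz : lv θ' (x + μ • (V - x)) = lv θ' x' := by
    rw [lv_add, lv_smul, lv_sub, hμ]
    field_simp
    ring
  have h3 := hA _ hz hlz
  have e1 := lv_eq θ θ' (x + μ • (V - x) - x')
  have e2 : Real.sin (θ - θ') = -Real.sin (θ' - θ) := by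
    rw [← Real.sin_neg, neg_sub]
  rw [lv_sub θ', hlz, sub_self, zero_mul, zero_add, tg_sub, lv_sub θ, lv_add θ, lv_smul θ,
    lv_sub θ, e2] at e1
  have h4 : 0 ≤ (tg θ' (x + μ • (V - x)) - tg θ' x') * Real.sin (θ' - θ) :=
    mul_nonneg (by linarith) hs.le
  have h5 : 0 ≤ μ * (lv θ V - lv θ x) := mul_nonneg hμ0 (by linarith)
  have h6 : μ * (lv θ V - lv θ x) = 0 := by nlinarith
  have h7 : μ = 0 := by
    rcases mul_eq_zero.1 h6 with h | h
    · exact h
    · linarith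
  have h8 : lv θ x = lv θ x' := by
    rw [h6] at e1
    nlinarith
  have h9 : lv θ' x = lv θ' x' := by
    rw [h7, zero_smul, add_zero] at hlz
    exact hlz
  exact eq_of_lv h1 h2 h8 h9

/-- an interior point is not an end -/
theorem lt_of_endB {K : Set (ℝ × ℝ)} {θ : ℝ} {x q : ℝ × ℝ} (hB : EndB K θ x)
    (hq : q ∈ interior K) (h : lv θ q = lv θ x) : tg θ q < tg θ x := by
  have hc : Continuous (fun r : ℝ => pt θ (lv θ q) (tg θ q + r)) := by
    unfold pt
    fun_prop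
  have h0 : (fun r : ℝ => pt θ (lv θ q) (tg θ q + r)) 0 ∈ interior K := by
    simp only [add_zero, pt_lv_tg]
    exact hq
  have h1 := hc.continuousAt.preimage_mem_nhds (isOpen_interior.mem_nhds h0)
  obtain ⟨ε, hε, hb⟩ := Metric.mem_nhds_iff.1 h1
  have h2 : (ε / 2) ∈ Metric.ball (0 : ℝ) ε := by
    rw [Metric.mem_ball, Real.dist_eq, sub_zero, abs_of_pos (by linarith)]
    linarith
  have h3 : pt θ (lv θ q) (tg θ q + ε / 2) ∈ K := interior_subset (hb h2)
  have h4 := hB _ h3 (by rw [lv_pt, h])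
  rw [tg_pt] at h4
  linarith

theorem lt_of_endA {K : Set (ℝ × ℝ)} {θ : ℝ} {x q : ℝ × ℝ} (hA : EndA K θ x)
    (hq : q ∈ interior K) (h : lv θ q = lv θ x) : tg θ x < tg θ q := by
  have hc : Continuous (fun r : ℝ => pt θ (lv θ q) (tg θ q - r)) := by
    unfold pt
    fun_prop
  have h0 : (fun r : ℝ => pt θ (lv θ q) (tg θ q - r)) 0 ∈ interior K := by
    simp only [sub_zero, pt_lv_tg]
    exact hq
  have h1 := hc.continuousAt.preimage_mem_nhds (isOpen_interior.mem_nhds h0)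
  obtain ⟨ε, hε, hb⟩ := Metric.mem_nhds_iff.1 h1
  have h2 : (ε / 2) ∈ Metric.ball (0 : ℝ) ε := by
    rw [Metric.mem_ball, Real.dist_eq, sub_zero, abs_of_pos (by linarith)]
    linarith
  have h3 : pt θ (lv θ q) (tg θ q - ε / 2) ∈ K := interior_subset (hb h2)
  have h4 := hA _ h3 (by rw [lv_pt, h])
  rw [tg_pt] at h4
  linarith

/-- the point of level `T` of the segment from an interior point to `V` -/
theorem exists_interior_level {K : Set (ℝ × ℝ)} (hK : Convex ℝ K) {θ T : ℝ} {z V : ℝ × ℝ}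
    (hz : z ∈ interior K) (hV : V ∈ K) (h1 : lv θ z ≤ T) (h2 : T < lv θ V) :
    ∃ q ∈ interior K, lv θ q = T ∧ ∀ ψ M, M ≤ lv ψ z → M ≤ lv ψ V → M ≤ lv ψ q := by
  have hd : 0 < lv θ V - lv θ z := by linarith
  set μ : ℝ := (T - lv θ z) / (lv θ V - lv θ z) with hμ
  have hμ0 : 0 ≤ μ := div_nonneg (by linarith) hd.le
  have hμ1 : μ < 1 := by
    rw [hμ, div_lt_one hd]
    linarith
  refine ⟨(1 - μ) • z + μ • V, ?_, ?_, ?_⟩
  · exact hK.combo_interior_self_mem_interior hz hV (by linarith) hμ0 (by ring)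
  · rw [lv_add, lv_smul, lv_smul, hμ]
    field_simp
    ring
  · intro ψ M a b
    rw [lv_add, lv_smul, lv_smul]
    nlinarith

/-- **crossing lemma**, right end -/
theorem cr_B {K : Set (ℝ × ℝ)} (hK : Convex ℝ K) {θ θ' M : ℝ} (h1 : θ < θ')
    (h2 : θ' < θ + Real.pi) {z V x : ℝ × ℝ} (hz : z ∈ interior K) (hV : V ∈ K)
    (a1 : lv θ z ≤ lv θ x) (a2 : lv θ x < lv θ V) (a3 : M ≤ lv θ' z) (a4 : M ≤ lv θ' V)
    (hB : EndB K θ x) : M < lv θ' x := by
  obtain ⟨q, hq, e, hM⟩ := exists_interior_level hK hz hV a1 a2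
  have h3 := lt_of_endB hB hq e
  have h4 := hM θ' M a3 a4
  have h5 := lv_eq θ' θ (x - q)
  rw [lv_sub, lv_sub, tg_sub, e, sub_self, zero_mul, zero_add] at h5
  have h6 : 0 < (tg θ x - tg θ q) * Real.sin (θ' - θ) :=
    mul_pos (by linarith) (sin_pos' h1 h2)
  linarith

/-- **crossing lemma**, left end -/
theorem cr_A {K : Set (ℝ × ℝ)} (hK : Convex ℝ K) {θ θ' M : ℝ} (h1 : θ' < θ)
    (h2 : θ < θ' + Real.pi) {z V x : ℝ × ℝ} (hz : z ∈ interior K) (hV : V ∈ K)
    (a1 : lv θ z ≤ lv θ x) (a2 : lv θ x < lv θ V) (a3 : M ≤ lv θ' z) (a4 : M ≤ lv θ' V)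
    (hA : EndA K θ x) : M < lv θ' x := by
  obtain ⟨q, hq, e, hM⟩ := exists_interior_level hK hz hV a1 a2
  have h3 := lt_of_endA hA hq e
  have h4 := hM θ' M a3 a4
  have h5 := lv_eq θ' θ (x - q)
  have e2 : Real.sin (θ' - θ) = -Real.sin (θ - θ') := by
    rw [← Real.sin_neg, neg_sub]
  rw [lv_sub, lv_sub, tg_sub, e, sub_self, zero_mul, zero_add, e2] at h5
  have h6 : 0 < (tg θ q - tg θ x) * Real.sin (θ - θ') :=
    mul_pos (by linarith) (sin_pos' h1 h2)
  nlinarith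

end Pool.Agent.CRN
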