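import Pool.Agent.CRN.A2
import Pool.Agent.XA.V1

/-!
# [CRN] One end: unequal slices just below an isolated extreme point of the symmetric difference
-/

set_option autoImplicit false
open MeasureTheory Set
open Pool.Agent.XA

namespace Pool.Agent.CRN

theorem oe_real {a b δ tp a1 b1 a2 b2 : ℝ} (hδ : δ = (b - a) / 4) (hab : a < b)
    (hend : tp = a ∨ tp = b) (h1 : a1 < b1) (h2 : a2 < b2) (he : b1 - a1 = b2 - a2)
    (p1 : a1 < a + δ) (p2 : a2 < a + δ) (q1 : b - δ < b1) (q2 : b - δ < b2)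
    (hD : ∀ t, ¬ (t ∈ Icc a1 b1 ↔ t ∈ Icc a2 b2) → |t - tp| < δ) : a1 = a2 := by
  by_contra hne
  rcases hend with rfl | rfl
  · rcases lt_or_gt_of_ne hne with h | h
    · have := hD b2 (fun h' => by
        have := (h'.2 ⟨h2.le, le_rfl⟩).2
        linarith)
      rw [abs_lt] at this
      linarith
    · have := hD b1 (fun h' => by
        have := (h'.1 ⟨h1.le, le_rfl⟩).2
        linarith)
      rw [abs_lt] at this
      linarith
  · rcases lt_or_gt_of_ne hne with h | h
    · have := hD a1 (fun h' => by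
        have := (h'.1 ⟨le_rfl, h1.le⟩).1
        linarith)
      rw [abs_lt] at this
      linarith
    · have := hD a2 (fun h' => by
        have := (h'.2 ⟨le_rfl, h2.le⟩).1
        linarith)
      rw [abs_lt] at this
      linarith

theorem oe {K L : Set (ℝ × ℝ)} (hK : IsBody K) (hL : IsBody L) {θ T c : ℝ}
    (hN : ∀ w ∈ closure (SD K L), lv θ w ≤ T) (hTK : T < hs K θ) (hTL : T < hs L θ) {p : ℝ × ℝ}
    (hp : p ∈ closure (SD K L)) (hpT : lv θ p = T)
    (hu : ∀ w ∈ closure (SD K L), lv θ w = T → w = p) (hc : c < T) :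
    ∃ c', c < c' ∧ c' < T ∧ -hs K (θ + Real.pi) < c' ∧ -hs L (θ + Real.pi) < c' ∧
      volume {t : ℝ | pt θ c' t ∈ K} ≠ volume {t : ℝ | pt θ c' t ∈ L} := by
  by_contra H
  push Not at H
  obtain ⟨hk, hl⟩ := both_bottoms hK hL hN hTK hTL hp hu
  obtain ⟨a, b, hab, e1, e2, -, -, hend⟩ := end_of_both hK hL hN hTK hTL hk hl hp hpT
  set δ : ℝ := (b - a) / 4 with hδ
  have hδ0 : 0 < δ := by rw [hδ]; linarith
  have hC : IsCompact (closure (SD K L) ∩ {w | δ ≤ |tg θ w - tg θ p|}) := by
    refine (isCompact_closure_SD hK.compact hL.compact).inter_right ?_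
    exact isClosed_le continuous_const ((continuous_tg_right θ).sub continuous_const).abs
  obtain ⟨c1, hc1, hc1'⟩ := exists_lt_of_compact hC (continuous_lv_right θ) (T := T) (by
    rintro w ⟨hw, hw'⟩
    rcases (hN w hw).lt_or_eq with h | h
    · exact h
    · exfalso
      rw [mem_ofPred_eq, hu w hw h, sub_self, abs_zero] at hw'
      linarith)
  obtain ⟨zK, hzK, ezK⟩ :=
    exists_lv_eq_hs hK.compact (hK.nonempty.mono interior_subset) (θ + Real.pi)
  obtain ⟨zL, hzL, ezL⟩ :=
    exists_lv_eq_hs hL.compact (hL.nonempty.mono interior_subset) (θ + Real.pi)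
  rw [lv_add_pi] at ezK ezL
  have haK : pt θ T a ∈ K := by
    have : a ∈ {t : ℝ | pt θ T t ∈ K} := by rw [e1]; exact ⟨le_rfl, hab.le⟩
    exact this
  have hbK : pt θ T b ∈ K := by
    have : b ∈ {t : ℝ | pt θ T t ∈ K} := by rw [e1]; exact ⟨hab.le, le_rfl⟩
    exact this
  have haL : pt θ T a ∈ L := by
    have : a ∈ {t : ℝ | pt θ T t ∈ L} := by rw [e2]; exact ⟨le_rfl, hab.le⟩
    exact this
  have hbL : pt θ T b ∈ L := by
    have : b ∈ {t : ℝ | pt θ T t ∈ L} := by rw [e2]; exact ⟨hab.le, le_rfl⟩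
    exact this
  obtain ⟨k1, hk1, hk1'⟩ := near_pts hK.convex hδ0 haK hzK (lv_pt _ _ _) (by linarith)
  obtain ⟨k2, hk2, hk2'⟩ := near_pts hK.convex hδ0 hbK hzK (lv_pt _ _ _) (by linarith)
  obtain ⟨l1, hl1, hl1'⟩ := near_pts hL.convex hδ0 haL hzL (lv_pt _ _ _) (by linarith)
  obtain ⟨l2, hl2, hl2'⟩ := near_pts hL.convex hδ0 hbL hzL (lv_pt _ _ _) (by linarith)
  set m : ℝ := max c (max c1 (max (max k1 k2) (max (max l1 l2)
    (max (-hs K (θ + Real.pi)) (-hs L (θ + Real.pi)))))) with hm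
  have hmT : m < T :=
    max_lt hc (max_lt hc1 (max_lt (max_lt hk1 hk2) (max_lt (max_lt hl1 hl2) (max_lt hk hl))))
  have key : ∀ c', m < c' → c' < T →
      {t : ℝ | pt θ c' t ∈ K} = {t : ℝ | pt θ c' t ∈ L} := by
    intro c' h1 h2
    rw [hm, max_lt_iff, max_lt_iff, max_lt_iff, max_lt_iff, max_lt_iff, max_lt_iff,
      max_lt_iff] at h1
    obtain ⟨g1, g2, ⟨g3, g4⟩, ⟨g5, g6⟩, g7, g8⟩ := h1
    obtain ⟨a1, b1, hab1, s1, -⟩ := chord_single hK g7 (h2.trans hTK)
    obtain ⟨a2, b2, hab2, s2, -⟩ := chord_single hL g8 (h2.trans hTL)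
    have hvol := H c' g1 h2 g7 g8
    rw [s1, s2, Real.volume_Icc, Real.volume_Icc] at hvol
    have he : b1 - a1 = b2 - a2 :=
      (ENNReal.ofReal_eq_ofReal_iff (by linarith) (by linarith)).1 hvol
    have mk : ∀ w ∈ K, lv θ w = c' → tg θ w ∈ Icc a1 b1 := by
      intro w hw hwc
      rw [← s1]
      show pt θ c' (tg θ w) ∈ K
      rw [← hwc, pt_lv_tg]
      exact hw
    have ml : ∀ w ∈ L, lv θ w = c' → tg θ w ∈ Icc a2 b2 := by
      intro w hw hwc
      rw [← s2]
      show pt θ c' (tg θ w) ∈ L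
      rw [← hwc, pt_lv_tg]
      exact hw
    obtain ⟨w1, hw1, u1, v1⟩ := hk1' c' ⟨g3, h2⟩
    obtain ⟨w2, hw2, u2, v2⟩ := hk2' c' ⟨g4, h2⟩
    obtain ⟨w3, hw3, u3, v3⟩ := hl1' c' ⟨g5, h2⟩
    obtain ⟨w4, hw4, u4, v4⟩ := hl2' c' ⟨g6, h2⟩
    rw [tg_pt, abs_lt] at v1 v2 v3 v4
    have m1 := mk w1 hw1 u1
    have m2 := mk w2 hw2 u2
    have m3 := ml w3 hw3 u3
    have m4 := ml w4 hw4 u4
    have ha12 := oe_real hδ hab hend hab1 hab2 he (by linarith [m1.1]) (by linarith [m3.1])
      (by linarith [m2.2]) (by linarith [m4.2]) (fun t ht => by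
        by_contra hlt
        rw [not_lt] at hlt
        have hsd : pt θ c' t ∈ SD K L := by
          intro h
          apply ht
          rw [← s1, ← s2]
          exact h
        have := hc1' (pt θ c' t) ⟨subset_closure hsd, by rw [mem_ofPred_eq, tg_pt]; exact hlt⟩
        rw [lv_pt] at this
        linarith)
    rw [s1, s2, ha12, show b1 = b2 by linarith]
  obtain ⟨w, hw, hwSD⟩ := mem_closure_iff.1 hp {w | m < lv θ w}
    (isOpen_lt continuous_const (continuous_lv_right θ)) (by rw [mem_ofPred_eq, hpT]; exact hmT)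
  have hwT : lv θ w < T := by
    rcases (hN w (subset_closure hwSD)).lt_or_eq with h | h
    · exact h
    · exact absurd (agree_ge hK hL hN hTK hTL h.ge) hwSD
  have h1 := key (lv θ w) hw hwT
  apply hwSD
  have h2 : tg θ w ∈ {t : ℝ | pt θ (lv θ w) t ∈ K} ↔ tg θ w ∈ {t : ℝ | pt θ (lv θ w) t ∈ L} := by
    rw [h1]
  rw [mem_ofPred_eq, mem_ofPred_eq, pt_lv_tg] at h2
  exact h2

theorem interior_agree {P Q O : Set (ℝ × ℝ)} (hO : IsOpen O) (h : ∀ w ∈ O, (w ∈ P ↔ w ∈ Q))
    {w : ℝ × ℝ} (hw : w ∈ O) : w ∈ interior P ↔ w ∈ interior Q := by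
  constructor
  · intro h1
    exact mem_interior.2 ⟨interior P ∩ O, fun v hv => (h v hv.2).1 (interior_subset hv.1),
      isOpen_interior.inter hO, h1, hw⟩
  · intro h1
    exact mem_interior.2 ⟨interior Q ∩ O, fun v hv => (h v hv.2).2 (interior_subset hv.1),
      isOpen_interior.inter hO, h1, hw⟩

/-- equality of the slices of the interiors gives equality of the slices of the outer bodies -/
theorem vol_outer {K P L Q : Set (ℝ × ℝ)} (hK : IsBody K) (hL : IsBody L)
    (hPK : P ⊆ interior K) (hQL : Q ⊆ interior L) {θ c : ℝ}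
    (hX : volume {t : ℝ | pt θ c t ∈ K \ interior P} =
      volume {t : ℝ | pt θ c t ∈ L \ interior Q})
    (h : volume {t : ℝ | pt θ c t ∈ interior P} = volume {t : ℝ | pt θ c t ∈ interior Q}) :
    volume {t : ℝ | pt θ c t ∈ K} = volume {t : ℝ | pt θ c t ∈ L} := by
  have h1 := len_diff hK.compact hL.compact isOpen_interior isOpen_interior
    (interior_subset.trans (hPK.trans interior_subset))
    (interior_subset.trans (hQL.trans interior_subset)) hX
  unfold len at h1
  rw [h] at h1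
  exact (ENNReal.toReal_eq_toReal_iff' (slice_lt_top hK.compact θ c).ne
    (slice_lt_top hL.compact θ c).ne).1 (by linarith)

/-- equality of the slices of the outer bodies gives equality of the slices of the interiors -/
theorem vol_inner {K P L Q : Set (ℝ × ℝ)} (hK : IsBody K) (hP : IsBody P) (hL : IsBody L)
    (hQ : IsBody Q) (hPK : P ⊆ interior K) (hQL : Q ⊆ interior L) {θ c : ℝ}
    (hX : volume {t : ℝ | pt θ c t ∈ K \ interior P} =
      volume {t : ℝ | pt θ c t ∈ L \ interior Q})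
    (h : volume {t : ℝ | pt θ c t ∈ K} = volume {t : ℝ | pt θ c t ∈ L}) :
    volume {t : ℝ | pt θ c t ∈ interior P} = volume {t : ℝ | pt θ c t ∈ interior Q} := by
  have h1 := len_diff hK.compact hL.compact isOpen_interior isOpen_interior
    (interior_subset.trans (hPK.trans interior_subset))
    (interior_subset.trans (hQL.trans interior_subset)) hX
  unfold len at h1
  rw [h] at h1
  have f : ∀ M : Set (ℝ × ℝ), IsBody M → volume {t : ℝ | pt θ c t ∈ interior M} ≠ ⊤ :=
    fun M hM => ((measure_mono (show {t : ℝ | pt θ c t ∈ interior M} ⊆ {t : ℝ | pt θ c t ∈ M}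
      from fun t ht => interior_subset (s := M) ht)).trans_lt (slice_lt_top hM.compact θ c)).ne
  exact (ENNReal.toReal_eq_toReal_iff' (f P hP) (f Q hQ)).1 (by linarith)

theorem vol_interior_eq {K : Set (ℝ × ℝ)} (hK : IsBody K) {θ c : ℝ}
    (h1 : -hs K (θ + Real.pi) < c) (h2 : c < hs K θ) :
    volume {t : ℝ | pt θ c t ∈ interior K} = volume {t : ℝ | pt θ c t ∈ K} := by
  obtain ⟨a, b, -, e1, e2⟩ := chord_single hK h1 h2
  rw [e1, e2, Real.volume_Icc, Real.volume_Ioo]

/-- **tie lemma** -/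
theorem tie {K P L Q : Set (ℝ × ℝ)} (hK : IsBody K) (hP : IsBody P) (hL : IsBody L)
    (hQ : IsBody Q) (hPK : P ⊆ interior K) (hQL : Q ⊆ interior L) {θ T : ℝ}
    (hX : ∀ c, volume {t : ℝ | pt θ c t ∈ K \ interior P} =
      volume {t : ℝ | pt θ c t ∈ L \ interior Q})
    (hN1 : ∀ w ∈ closure (SD K L), lv θ w ≤ T) (hN2 : ∀ w ∈ closure (SD P Q), lv θ w ≤ T)
    (hTK : T < hs K θ) (hTL : T < hs L θ) (hTP : T < hs P θ) (hTQ : T < hs Q θ)
    {p : ℝ × ℝ} (hp : p ∈ closure (SD K L) ∪ closure (SD P Q)) (hpT : lv θ p = T) :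
    ∃ w ∈ closure (SD K L) ∪ closure (SD P Q), lv θ w = T ∧ w ≠ p := by
  by_contra H
  push Not at H
  by_cases hpo : p ∈ closure (SD K L)
  · have hu : ∀ w ∈ closure (SD K L), lv θ w = T → w = p := fun w hw => H w (Or.inl hw)
    obtain ⟨hk, hl⟩ := both_bottoms hK hL hN1 hTK hTL hpo hu
    obtain ⟨a, b, hab, -, -, e3, e4, hend⟩ := end_of_both hK hL hN1 hTK hTL hk hl hpo hpT
    have hpK : p ∉ interior K := by
      intro h
      have h1 : tg θ p ∈ {t : ℝ | pt θ T t ∈ interior K} := by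
        show pt θ T (tg θ p) ∈ interior K
        rw [← hpT, pt_lv_tg]
        exact h
      rw [e3] at h1
      rcases hend with h2 | h2
      · rw [h2] at h1; exact lt_irrefl _ h1.1
      · rw [h2] at h1; exact lt_irrefl _ h1.2
    have hpL : p ∉ interior L := by
      intro h
      have h1 : tg θ p ∈ {t : ℝ | pt θ T t ∈ interior L} := by
        show pt θ T (tg θ p) ∈ interior L
        rw [← hpT, pt_lv_tg]
        exact h
      rw [e4] at h1
      rcases hend with h2 | h2
      · rw [h2] at h1; exact lt_irrefl _ h1.1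
      · rw [h2] at h1; exact lt_irrefl _ h1.2
    obtain ⟨T1, hT1, hT1'⟩ := exists_lt_of_compact (isCompact_closure_SD hP.compact hQ.compact)
      (continuous_lv_right θ) (T := T) (by
        intro w hw
        rcases (hN2 w hw).lt_or_eq with h | h
        · exact h
        · exfalso
          have hwp := H w (Or.inr hw) h
          rcases closure_SD_subset hP.compact hQ.compact hw with h' | h'
          · exact hpK (hwp ▸ hPK h')
          · exact hpL (hwp ▸ hQL h'))
    obtain ⟨c', g1, g2, g3, g4, g5⟩ := oe hK hL hN1 hTK hTL hpo hpT hu hT1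
    apply g5
    apply vol_outer hK hL hPK hQL (hX c')
    congr 1
    ext t
    refine interior_agree (O := {w | T1 < lv θ w})
      (isOpen_lt continuous_const (continuous_lv_right θ)) ?_ ?_
    · intro w hw
      by_contra h
      exact absurd (hT1' w (subset_closure h)) (not_le.2 hw)
    · rw [mem_ofPred_eq, lv_pt]
      exact g1
  · have hpi : p ∈ closure (SD P Q) := hp.resolve_left hpo
    obtain ⟨T1, hT1, hT1'⟩ := exists_lt_of_compact (isCompact_closure_SD hK.compact hL.compact)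
      (continuous_lv_right θ) (T := T) (by
        intro w hw
        rcases (hN1 w hw).lt_or_eq with h | h
        · exact h
        · exfalso
          have hwp := H w (Or.inl hw) h
          exact hpo (hwp ▸ hw))
    obtain ⟨c', g1, g2, g3, g4, g5⟩ := oe hP hQ hN2 hTP hTQ hpi hpT
      (fun w hw => H w (Or.inr hw)) hT1
    apply g5
    rw [← vol_interior_eq hP g3 (g2.trans hTP), ← vol_interior_eq hQ g4 (g2.trans hTQ)]
    apply vol_inner hK hP hL hQ hPK hQL (hX c')
    congr 1
    ext t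
    show pt θ c' t ∈ K ↔ pt θ c' t ∈ L
    by_contra h
    have := hT1' _ (subset_closure h)
    rw [lv_pt] at this
    linarith

end Pool.Agent.CRN
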