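import Pool.Agent.CRN.A3
import Pool.Agent.XA.F2

/-!
# [CRN] Base lemma: two bodies with a common corner and equal slices near it agree near it, part 1
-/

set_option autoImplicit false
open MeasureTheory Set
open Pool.Agent.XA

namespace Pool.Agent.CRN

/-- an affine function vanishing on the line through `V` with direction `d` -/
def sg (V d w : ℝ × ℝ) : ℝ := d.2 * (w.1 - V.1) - d.1 * (w.2 - V.2)

theorem continuous_sg (V d : ℝ × ℝ) : Continuous (sg V d) := by
  unfold sg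
  fun_prop

theorem sg_self (V d : ℝ × ℝ) : sg V d V = 0 := by
  simp [sg]

theorem sg_neg (V d w : ℝ × ℝ) : sg V (-d) w = -sg V d w := by
  simp only [sg, Prod.fst_neg, Prod.snd_neg]
  ring

theorem sg_id (θ θ' τ : ℝ) (V d w : ℝ × ℝ) :
    Real.sin (θ' - θ) * sg V d w =
      lv θ' d * lv θ (w - (V + τ • d)) - lv θ d * lv θ' (w - (V + τ • d)) := by
  simp only [sg, lv, Real.sin_sub, Prod.fst_sub, Prod.snd_sub, Prod.fst_add, Prod.snd_add,
    Prod.smul_fst, Prod.smul_snd, smul_eq_mul]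
  ring

/-- values on a slice -/
theorem sg_pt {θ c : ℝ} {V d : ℝ × ℝ} (hd : lv θ d ≠ 0) (t : ℝ) :
    sg V d (pt θ c t) =
      (-lv θ d) * (t - tg θ (V + ((lv θ V - c) / (-lv θ d)) • d)) := by
  have h := Real.sin_sq_add_cos_sq θ
  set τ : ℝ := (lv θ V - c) / (-lv θ d) with hτ
  have hτ' : τ * lv θ d = c - lv θ V := by
    rw [hτ]
    field_simp
    ring
  have hc : c = lv θ V + τ * lv θ d := by linarith
  rw [hc]
  simp only [sg, lv, tg, pt, Prod.fst_add, Prod.snd_add, Prod.smul_fst, Prod.smul_snd,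
    smul_eq_mul]
  have h' : Real.sin θ ^ 2 = 1 - Real.cos θ ^ 2 := by linarith
  ring_nf
  rw [h']
  ring

theorem measurableSet_SD {K L : Set (ℝ × ℝ)} (hK : IsCompact K) (hL : IsCompact L) :
    MeasurableSet (SD K L) := by
  have : SD K L = (K \ L) ∪ (L \ K) := by
    ext w
    simp only [SD, mem_ofPred_eq, mem_union, mem_sdiff]
    tauto
  rw [this]
  exact (hK.isClosed.measurableSet.diff hL.isClosed.measurableSet).union
    (hL.isClosed.measurableSet.diff hK.isClosed.measurableSet)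

/-- the area above a level, from the slices -/
theorem area_eq {D : Set (ℝ × ℝ)} (hD : MeasurableSet D) {V d : ℝ × ℝ} {θ c1 x : ℝ}
    (hx : c1 ≤ x)
    (H : ∀ c, c1 < c → volume {t : ℝ | pt θ c t ∈ D ∧ sg V d (pt θ c t) < 0} =
      volume {t : ℝ | pt θ c t ∈ D ∧ 0 < sg V d (pt θ c t)}) :
    volume {w | w ∈ D ∧ sg V d w < 0 ∧ x < lv θ w} =
      volume {w | w ∈ D ∧ 0 < sg V d w ∧ x < lv θ w} := by
  have m1 : MeasurableSet {w | w ∈ D ∧ sg V d w < 0 ∧ x < lv θ w} :=
    hD.inter ((isOpen_lt (continuous_sg V d) continuous_const).inter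
      (isOpen_lt continuous_const (continuous_lv_right θ))).measurableSet
  have m2 : MeasurableSet {w | w ∈ D ∧ 0 < sg V d w ∧ x < lv θ w} :=
    hD.inter ((isOpen_lt continuous_const (continuous_sg V d)).inter
      (isOpen_lt continuous_const (continuous_lv_right θ))).measurableSet
  rw [volume_slices θ m1, volume_slices θ m2]
  congr 1
  funext c
  by_cases hc : x < c
  · have e1 : {t : ℝ | pt θ c t ∈ {w | w ∈ D ∧ sg V d w < 0 ∧ x < lv θ w}} =
        {t : ℝ | pt θ c t ∈ D ∧ sg V d (pt θ c t) < 0} := by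
      ext t
      simp only [mem_ofPred_eq, lv_pt, hc, and_true]
    have e2 : {t : ℝ | pt θ c t ∈ {w | w ∈ D ∧ 0 < sg V d w ∧ x < lv θ w}} =
        {t : ℝ | pt θ c t ∈ D ∧ 0 < sg V d (pt θ c t)} := by
      ext t
      simp only [mem_ofPred_eq, lv_pt, hc, and_true]
    rw [e1, e2]
    exact H c (hx.trans_lt hc)
  · have e1 : {t : ℝ | pt θ c t ∈ {w | w ∈ D ∧ sg V d w < 0 ∧ x < lv θ w}} = ∅ := by
      ext t
      simp only [mem_ofPred_eq, lv_pt, hc, and_false, mem_empty_iff_false]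
    have e2 : {t : ℝ | pt θ c t ∈ {w | w ∈ D ∧ 0 < sg V d w ∧ x < lv θ w}} = ∅ := by
      ext t
      simp only [mem_ofPred_eq, lv_pt, hc, and_false, mem_empty_iff_false]
    rw [e1, e2]

/-- the two wedges are null -/
theorem wedges {K L : Set (ℝ × ℝ)} (hK : IsBody K) (hL : IsBody L) {θ θ' : ℝ} (h1 : θ < θ')
    (h2 : θ' < θ + Real.pi) {V d : ℝ × ℝ} (hd : lv θ d < 0) (hd' : lv θ' d < 0) {c1 c1' τ : ℝ}
    (hc : c1 ≤ lv θ (V + τ • d)) (hc' : c1' ≤ lv θ' (V + τ • d))
    (H : ∀ c, c1 < c → volume {t : ℝ | pt θ c t ∈ SD K L ∧ sg V d (pt θ c t) < 0} =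
      volume {t : ℝ | pt θ c t ∈ SD K L ∧ 0 < sg V d (pt θ c t)})
    (H' : ∀ c, c1' < c → volume {t : ℝ | pt θ' c t ∈ SD K L ∧ sg V d (pt θ' c t) < 0} =
      volume {t : ℝ | pt θ' c t ∈ SD K L ∧ 0 < sg V d (pt θ' c t)}) :
    volume {w | w ∈ SD K L ∧ 0 < sg V d w ∧ lv θ' (V + τ • d) < lv θ' w ∧
      lv θ w < lv θ (V + τ • d)} = 0 ∧
    volume {w | w ∈ SD K L ∧ sg V d w < 0 ∧ lv θ (V + τ • d) < lv θ w ∧
      lv θ' w < lv θ' (V + τ • d)} = 0 := by
  have hs := sin_pos' h1 h2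
  have hD := measurableSet_SD hK.compact hL.compact
  set X := V + τ • d with hX
  set A := {w | w ∈ SD K L ∧ sg V d w < 0 ∧ lv θ X < lv θ w} with hA
  set B := {w | w ∈ SD K L ∧ 0 < sg V d w ∧ lv θ X < lv θ w} with hB
  set A' := {w | w ∈ SD K L ∧ sg V d w < 0 ∧ lv θ' X < lv θ' w} with hA'
  set B' := {w | w ∈ SD K L ∧ 0 < sg V d w ∧ lv θ' X < lv θ' w} with hB'
  have eAB : volume A = volume B := area_eq hD hc H
  have eAB' : volume A' = volume B' := area_eq hD hc' H'
  have sB : B ⊆ B' := by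
    rintro w ⟨w1, w2, w3⟩
    refine ⟨w1, w2, ?_⟩
    have h3 := sg_id θ θ' τ V d w
    rw [← hX, lv_sub, lv_sub] at h3
    have h4 := mul_pos hs w2
    by_contra h5
    rw [not_lt] at h5
    nlinarith [mul_pos (sub_pos.2 w3) (neg_pos.2 hd'), mul_nonneg (sub_nonneg.2 h5) (neg_pos.2 hd).le]
  have sA : A' ⊆ A := by
    rintro w ⟨w1, w2, w3⟩
    refine ⟨w1, w2, ?_⟩
    have h3 := sg_id θ θ' τ V d w
    rw [← hX, lv_sub, lv_sub] at h3
    have h4 := mul_pos hs (neg_pos.2 w2)
    by_contra h5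
    rw [not_lt] at h5
    nlinarith [mul_pos (sub_pos.2 w3) (neg_pos.2 hd), mul_nonneg (sub_nonneg.2 h5) (neg_pos.2 hd').le]
  have hfin : ∀ C : Set (ℝ × ℝ), C ⊆ SD K L → volume C ≠ ⊤ := fun C hC =>
    ((measure_mono (hC.trans (SD_subset K L))).trans_lt
      (hK.compact.union hL.compact).measure_lt_top).ne
  have mB : MeasurableSet B :=
    hD.inter ((isOpen_lt continuous_const (continuous_sg V d)).inter
      (isOpen_lt continuous_const (continuous_lv_right θ))).measurableSet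
  have mA' : MeasurableSet A' :=
    hD.inter ((isOpen_lt (continuous_sg V d) continuous_const).inter
      (isOpen_lt continuous_const (continuous_lv_right θ'))).measurableSet
  have l1 : volume B ≤ volume B' := measure_mono sB
  have l2 : volume A' ≤ volume A := measure_mono sA
  have e1 : volume B = volume B' := le_antisymm l1 (by rw [← eAB', ← eAB]; exact l2)
  have e2 : volume A' = volume A := by rw [eAB', ← e1, eAB]
  have n1 : volume (B' \ B) = 0 := by
    rw [measure_sdiff sB mB.nullMeasurableSet (hfin B fun w hw => hw.1), e1, tsub_self]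
  have n2 : volume (A \ A') = 0 := by
    rw [measure_sdiff sA mA'.nullMeasurableSet (hfin A' fun w hw => hw.1), e2, tsub_self]
  constructor
  · refine measure_mono_null ?_ n1
    rintro w ⟨w1, w2, w3, w4⟩
    exact ⟨⟨w1, w2, w3⟩, fun h => absurd h.2.2 (not_lt.2 w4.le)⟩
  · refine measure_mono_null ?_ n2
    rintro w ⟨w1, w2, w3, w4⟩
    exact ⟨⟨w1, w2, w3⟩, fun h => absurd h.2.2 (not_lt.2 w4.le)⟩

/-- no interior point of `K` outside `L` near `V` -/
theorem core_aux {K L : Set (ℝ × ℝ)} (hK : IsBody K) (hL : IsBody L) {θ θ' : ℝ} (h1 : θ < θ')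
    (h2 : θ' < θ + Real.pi) {V d : ℝ × ℝ} (hd : lv θ d < 0) (hd' : lv θ' d < 0)
    {c1 c1' τ₀ : ℝ}
    (hc : c1 ≤ lv θ (V + τ₀ • d)) (hc' : c1' ≤ lv θ' (V + τ₀ • d))
    (H : ∀ c, c1 < c → volume {t : ℝ | pt θ c t ∈ SD K L ∧ sg V d (pt θ c t) < 0} =
      volume {t : ℝ | pt θ c t ∈ SD K L ∧ 0 < sg V d (pt θ c t)})
    (H' : ∀ c, c1' < c → volume {t : ℝ | pt θ' c t ∈ SD K L ∧ sg V d (pt θ' c t) < 0} =
      volume {t : ℝ | pt θ' c t ∈ SD K L ∧ 0 < sg V d (pt θ' c t)})
    {w : ℝ × ℝ} (g1 : lv θ (V + τ₀ • d) < lv θ w) (g2 : lv θ' (V + τ₀ • d) < lv θ' w)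
    (hwK : w ∈ K) : w ∈ L := by
  have hs := sin_pos' h1 h2
  have hLo : IsOpen Lᶜ := hL.compact.isClosed.isOpen_compl
  -- no point with `sg ≠ 0`
  have key : ∀ v, v ∈ interior K → v ∉ L → lv θ (V + τ₀ • d) < lv θ v →
      lv θ' (V + τ₀ • d) < lv θ' v → sg V d v = 0 := by
    intro v v1 v2 v3 v4
    have hid := sg_id θ θ' 0 V d v
    rw [zero_smul, add_zero, lv_sub, lv_sub] at hid
    rw [lv_add, lv_smul] at v3 v4
    by_contra hne
    have hdD : 0 < -lv θ d := by linarith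
    have hdD' : 0 < -lv θ' d := by linarith
    have hdn : lv θ d ≠ 0 := hd.ne
    have hdn' : lv θ' d ≠ 0 := hd'.ne
    set x : ℝ := (lv θ V - lv θ v) / (-lv θ d) with hx
    set x' : ℝ := (lv θ' V - lv θ' v) / (-lv θ' d) with hx'
    have ex : lv θ v = lv θ V + x * lv θ d := by
      rw [hx]
      field_simp
      ring
    have ex' : lv θ' v = lv θ' V + x' * lv θ' d := by
      rw [hx']
      field_simp
      ring
    have hxτ : x < τ₀ := by
      rw [ex] at v3
      by_contra h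
      rw [not_lt] at h
      linarith [mul_le_mul_of_nonpos_right h hd.le]
    have hxτ' : x' < τ₀ := by
      rw [ex'] at v4
      by_contra h
      rw [not_lt] at h
      linarith [mul_le_mul_of_nonpos_right h hd'.le]
    have hid2 : Real.sin (θ' - θ) * sg V d v = lv θ d * lv θ' d * (x - x') := by
      rw [hid, ex, ex']
      ring
    have hprod : 0 < lv θ d * lv θ' d := mul_pos_of_neg_of_neg hd hd'
    rcases lt_or_gt_of_ne hne with hneg | hpos
    · -- `sg < 0`
      have hlt : x < x' := by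
        by_contra h
        rw [not_lt] at h
        have := mul_nonneg hprod.le (sub_nonneg.2 h)
        have := mul_neg_of_pos_of_neg hs hneg
        linarith
      obtain ⟨τ, t1, t2⟩ := exists_between hlt
      have b1 : lv θ (V + τ • d) < lv θ v := by
        rw [lv_add, lv_smul, ex]
        linarith [mul_lt_mul_of_neg_right t1 hd]
      have b2 : lv θ' v < lv θ' (V + τ • d) := by
        rw [lv_add, lv_smul, ex']
        linarith [mul_lt_mul_of_neg_right t2 hd']
      have hn := (wedges hK hL h1 h2 hd hd' (V := V) (d := d) (τ := τ) (c1 := c1) (c1' := c1')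
        (by
          refine hc.trans ?_
          rw [lv_add, lv_smul, lv_add, lv_smul]
          linarith [mul_lt_mul_of_neg_right (t2.trans hxτ') hd])
        (by
          refine hc'.trans ?_
          rw [lv_add, lv_smul, lv_add, lv_smul]
          linarith [mul_lt_mul_of_neg_right (t2.trans hxτ') hd']) H H').2
      have hO : IsOpen (interior K ∩ Lᶜ ∩ {u | sg V d u < 0} ∩ {u | lv θ (V + τ • d) < lv θ u} ∩
          {u | lv θ' u < lv θ' (V + τ • d)}) :=
        (((isOpen_interior.inter hLo).inter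
          (isOpen_lt (continuous_sg V d) continuous_const)).inter
          (isOpen_lt continuous_const (continuous_lv_right θ))).inter
          (isOpen_lt (continuous_lv_right θ') continuous_const)
      have hpos := hO.measure_pos volume ⟨v, ⟨⟨⟨v1, v2⟩, hneg⟩, b1⟩, b2⟩
      refine absurd (measure_mono_null ?_ hn) hpos.ne'
      rintro u ⟨⟨⟨⟨u1, u2⟩, u3⟩, u4⟩, u5⟩
      exact ⟨fun h => u2 (h.1 (interior_subset u1)), u3, u4, u5⟩
    · -- `sg > 0`
      have hlt : x' < x := by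
        by_contra h
        rw [not_lt] at h
        have := mul_nonneg hprod.le (sub_nonneg.2 h)
        have := mul_pos hs hpos
        linarith
      obtain ⟨τ, t1, t2⟩ := exists_between hlt
      have b1 : lv θ v < lv θ (V + τ • d) := by
        rw [lv_add, lv_smul, ex]
        linarith [mul_lt_mul_of_neg_right t2 hd]
      have b2 : lv θ' (V + τ • d) < lv θ' v := by
        rw [lv_add, lv_smul, ex']
        linarith [mul_lt_mul_of_neg_right t1 hd']
      have hn := (wedges hK hL h1 h2 hd hd' (V := V) (d := d) (τ := τ) (c1 := c1) (c1' := c1')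
        (by
          refine hc.trans ?_
          rw [lv_add, lv_smul, lv_add, lv_smul]
          linarith [mul_lt_mul_of_neg_right (t2.trans hxτ) hd])
        (by
          refine hc'.trans ?_
          rw [lv_add, lv_smul, lv_add, lv_smul]
          linarith [mul_lt_mul_of_neg_right (t2.trans hxτ) hd']) H H').1
      have hO : IsOpen (interior K ∩ Lᶜ ∩ {u | 0 < sg V d u} ∩
          {u | lv θ' (V + τ • d) < lv θ' u} ∩ {u | lv θ u < lv θ (V + τ • d)}) :=
        (((isOpen_interior.inter hLo).inter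
          (isOpen_lt continuous_const (continuous_sg V d))).inter
          (isOpen_lt continuous_const (continuous_lv_right θ'))).inter
          (isOpen_lt (continuous_lv_right θ) continuous_const)
      have hpos' := hO.measure_pos volume ⟨v, ⟨⟨⟨v1, v2⟩, hpos⟩, b2⟩, b1⟩
      refine absurd (measure_mono_null ?_ hn) hpos'.ne'
      rintro u ⟨⟨⟨⟨u1, u2⟩, u3⟩, u4⟩, u5⟩
      exact ⟨fun h => u2 (h.1 (interior_subset u1)), u3, u4, u5⟩
  by_contra hwL
  set O : Set (ℝ × ℝ) := Lᶜ ∩ {u | lv θ (V + τ₀ • d) < lv θ u} ∩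
    {u | lv θ' (V + τ₀ • d) < lv θ' u} with hO
  have hOo : IsOpen O := (hLo.inter (isOpen_lt continuous_const (continuous_lv_right θ))).inter
    (isOpen_lt continuous_const (continuous_lv_right θ'))
  obtain ⟨v, hv1, hv2⟩ := exists_mem_interior_of_open hK hOo ⟨w, hwK, ⟨hwL, g1⟩, g2⟩
  -- perturb
  have hcn : Continuous (fun r : ℝ => pt θ (lv θ v) (tg θ v + r)) := by
    unfold pt
    fun_prop
  have h0 : (fun r : ℝ => pt θ (lv θ v) (tg θ v + r)) 0 ∈ interior K ∩ O := by
    simp only [add_zero, pt_lv_tg]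
    exact ⟨hv1, hv2⟩
  have h3 := hcn.continuousAt.preimage_mem_nhds ((isOpen_interior.inter hOo).mem_nhds h0)
  obtain ⟨ε, hε, hb⟩ := Metric.mem_nhds_iff.1 h3
  have h4 : (ε / 2) ∈ Metric.ball (0 : ℝ) ε := by
    rw [Metric.mem_ball, Real.dist_eq, sub_zero, abs_of_pos (by linarith)]
    linarith
  have h5 : pt θ (lv θ v) (tg θ v + ε / 2) ∈ interior K ∩ O := hb h4
  have z0 := key v hv1 hv2.1.1 hv2.1.2 hv2.2
  have z1 := key _ h5.1 h5.2.1.1 h5.2.1.2 h5.2.2
  rw [← pt_lv_tg θ v] at z0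
  rw [sg_pt hd.ne] at z0 z1
  have : (-lv θ d) * (ε / 2) = 0 := by
    linear_combination z1 - z0
  rcases mul_eq_zero.1 this with h | h
  · linarith
  · linarith

/-- **core of the base lemma** -/
theorem core {K L : Set (ℝ × ℝ)} (hK : IsBody K) (hL : IsBody L) {θ θ' : ℝ} (h1 : θ < θ')
    (h2 : θ' < θ + Real.pi) {V d : ℝ × ℝ} (hd : lv θ d < 0) (hd' : lv θ' d < 0)
    {c1 c1' : ℝ} (hc : c1 < lv θ V) (hc' : c1' < lv θ' V)
    (H : ∀ c, c1 < c → volume {t : ℝ | pt θ c t ∈ SD K L ∧ sg V d (pt θ c t) < 0} =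
      volume {t : ℝ | pt θ c t ∈ SD K L ∧ 0 < sg V d (pt θ c t)})
    (H' : ∀ c, c1' < c → volume {t : ℝ | pt θ' c t ∈ SD K L ∧ sg V d (pt θ' c t) < 0} =
      volume {t : ℝ | pt θ' c t ∈ SD K L ∧ 0 < sg V d (pt θ' c t)}) :
    ∃ O : Set (ℝ × ℝ), IsOpen O ∧ V ∈ O ∧ ∀ w ∈ O, (w ∈ K ↔ w ∈ L) := by
  have hdD : 0 < -lv θ d := by linarith
  have hdD' : 0 < -lv θ' d := by linarith
  set τ₀ : ℝ := min ((lv θ V - c1) / (-lv θ d)) ((lv θ' V - c1') / (-lv θ' d)) with hτ₀
  have hτpos : 0 < τ₀ :=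
    lt_min (div_pos (by linarith) hdD) (div_pos (by linarith) hdD')
  have b1 : c1 ≤ lv θ (V + τ₀ • d) := by
    have := min_le_left ((lv θ V - c1) / (-lv θ d)) ((lv θ' V - c1') / (-lv θ' d))
    rw [← hτ₀, le_div_iff₀ hdD] at this
    rw [lv_add, lv_smul]
    linarith
  have b2 : c1' ≤ lv θ' (V + τ₀ • d) := by
    have := min_le_right ((lv θ V - c1) / (-lv θ d)) ((lv θ' V - c1') / (-lv θ' d))
    rw [← hτ₀, le_div_iff₀ hdD'] at this
    rw [lv_add, lv_smul]
    linarith
  refine ⟨{u | lv θ (V + τ₀ • d) < lv θ u} ∩ {u | lv θ' (V + τ₀ • d) < lv θ' u},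
    (isOpen_lt continuous_const (continuous_lv_right θ)).inter
      (isOpen_lt continuous_const (continuous_lv_right θ')), ⟨?_, ?_⟩, ?_⟩
  · rw [mem_ofPred_eq, lv_add, lv_smul]
    nlinarith
  · rw [mem_ofPred_eq, lv_add, lv_smul]
    nlinarith
  · rintro w ⟨w1, w2⟩
    refine ⟨fun h => core_aux hK hL h1 h2 hd hd' b1 b2 H H' w1 w2 h, fun h => ?_⟩
    rw [SD_comm] at H H'
    exact core_aux hL hK h1 h2 hd hd' b1 b2 H H' w1 w2 h

end Pool.Agent.CRN
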