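import Pool.Agent.CRN.B1

/-!
# [CRN] Base lemma: two bodies with a common corner and equal slices near it agree near it, part 2
-/

set_option autoImplicit false
open MeasureTheory Set
open Pool.Agent.XA

namespace Pool.Agent.CRN

theorem vol_sandwich {a b : ℝ} {S : Set ℝ} (h1 : Ioo a b ⊆ S) (h2 : S ⊆ Icc a b) :
    volume S = ENNReal.ofReal (b - a) := by
  refine le_antisymm ?_ ?_
  · rw [← Real.volume_Icc]
    exact measure_mono h2
  · rw [← Real.volume_Ioo]
    exact measure_mono h1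

theorem bl_real_aux {a b a' b' m : ℝ} (he : b - a = b' - a')
    (h1 : m < b) (h2 : a' < m) (haa : a ≤ a') :
    volume {t : ℝ | ¬ (t ∈ Icc a b ↔ t ∈ Icc a' b') ∧ t < m} =
      volume {t : ℝ | ¬ (t ∈ Icc a b ↔ t ∈ Icc a' b') ∧ m < t} := by
  have e1 : {t : ℝ | ¬ (t ∈ Icc a b ↔ t ∈ Icc a' b') ∧ t < m} = Ico a a' := by
    ext t
    simp only [mem_ofPred_eq, mem_Icc, mem_Ico]
    constructor
    · rintro ⟨h, h3⟩
      have h4 : t ≤ b := by linarith
      have h5 : t ≤ b' := by linarith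
      by_contra h6
      apply h
      constructor
      · intro h7
        refine ⟨?_, h5⟩
        by_contra h8
        exact h6 ⟨h7.1, not_le.1 h8⟩
      · intro h7
        exact ⟨haa.trans h7.1, h4⟩
    · rintro ⟨h3, h4⟩
      refine ⟨fun h => ?_, by linarith⟩
      have := (h.1 ⟨h3, by linarith⟩).1
      linarith
  have e2 : {t : ℝ | ¬ (t ∈ Icc a b ↔ t ∈ Icc a' b') ∧ m < t} = Ioc b b' := by
    ext t
    simp only [mem_ofPred_eq, mem_Icc, mem_Ioc]
    constructor
    · rintro ⟨h, h3⟩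
      have h4 : a ≤ t := by linarith
      have h5 : a' ≤ t := by linarith
      by_contra h6
      apply h
      constructor
      · intro h7
        exact ⟨h5, by linarith [h7.2]⟩
      · intro h7
        refine ⟨h4, ?_⟩
        by_contra h8
        exact h6 ⟨not_le.1 h8, h7.2⟩
    · rintro ⟨h3, h4⟩
      refine ⟨fun h => ?_, by linarith⟩
      have := (h.2 ⟨by linarith, h4⟩).2
      linarith
  rw [e1, e2, Real.volume_Ico, Real.volume_Ioc]
  congr 1
  linarith

theorem bl_real_sep {a b a' b' m : ℝ} (he : b - a = b' - a') (h : b ≤ m) (h' : m ≤ a') :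
    volume {t : ℝ | ¬ (t ∈ Icc a b ↔ t ∈ Icc a' b') ∧ t < m} =
      volume {t : ℝ | ¬ (t ∈ Icc a b ↔ t ∈ Icc a' b') ∧ m < t} := by
  rw [vol_sandwich (a := a) (b := b), vol_sandwich (a := a') (b := b'), he]
  · intro t ht
    refine ⟨fun h1 => ?_, by linarith [ht.1]⟩
    have := (h1.2 ⟨ht.1.le, ht.2.le⟩).2
    linarith [ht.1]
  · rintro t ⟨h1, h2⟩
    by_contra h3
    exact h1 ⟨fun h4 => absurd h4.2 (by linarith), fun h4 => absurd h4 h3⟩
  · intro t ht
    refine ⟨fun h1 => ?_, by linarith [ht.2]⟩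
    have := (h1.1 ⟨ht.1.le, ht.2.le⟩).1
    linarith [ht.2]
  · rintro t ⟨h1, h2⟩
    by_contra h3
    exact h1 ⟨fun h4 => absurd h4 h3, fun h4 => absurd h4.1 (by linarith)⟩

theorem bl_real {a b a' b' m : ℝ} (he : b - a = b' - a')
    (h : (a < m ∧ m < b ∧ a' < m ∧ m < b') ∨ (b ≤ m ∧ m ≤ a') ∨ (b' ≤ m ∧ m ≤ a)) :
    volume {t : ℝ | ¬ (t ∈ Icc a b ↔ t ∈ Icc a' b') ∧ t < m} =
      volume {t : ℝ | ¬ (t ∈ Icc a b ↔ t ∈ Icc a' b') ∧ m < t} := by
  have sw : ∀ t : ℝ, (¬ (t ∈ Icc a b ↔ t ∈ Icc a' b')) = (¬ (t ∈ Icc a' b' ↔ t ∈ Icc a b)) := by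
    intro t
    rw [iff_comm]
  rcases h with ⟨p1, p2, p3, p4⟩ | ⟨p1, p2⟩ | ⟨p1, p2⟩
  · rcases le_total a a' with h | h
    · exact bl_real_aux he p2 p3 h
    · simp only [sw]
      exact bl_real_aux he.symm p4 p1 h
  · exact bl_real_sep he p1 p2
  · simp only [sw]
    exact bl_real_sep he.symm p1 p2

/-- one slice -/
theorem slice_case {K L : Set (ℝ × ℝ)} (hK : IsBody K) (hL : IsBody L) {θ c : ℝ} {V d : ℝ × ℝ}
    (hd : lv θ d < 0) (k1 : -hs K (θ + Real.pi) < c) (k2 : c < hs K θ)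
    (l1 : -hs L (θ + Real.pi) < c) (l2 : c < hs L θ)
    (hvol : volume {t : ℝ | pt θ c t ∈ K} = volume {t : ℝ | pt θ c t ∈ L})
    (hcase : (V + ((lv θ V - c) / (-lv θ d)) • d ∈ interior K ∧
        V + ((lv θ V - c) / (-lv θ d)) • d ∈ interior L) ∨
      ((∀ w ∈ K, sg V d w ≤ 0) ∧ (∀ w ∈ L, 0 ≤ sg V d w)) ∨
      ((∀ w ∈ L, sg V d w ≤ 0) ∧ (∀ w ∈ K, 0 ≤ sg V d w))) :
    volume {t : ℝ | pt θ c t ∈ SD K L ∧ sg V d (pt θ c t) < 0} =
      volume {t : ℝ | pt θ c t ∈ SD K L ∧ 0 < sg V d (pt θ c t)} := by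
  obtain ⟨a, b, hab, e1, e2⟩ := chord_single hK k1 k2
  obtain ⟨a', b', hab', e3, e4⟩ := chord_single hL l1 l2
  have hsg := fun t => sg_pt (θ := θ) (c := c) (V := V) hd.ne t
  have hlX : lv θ (V + ((lv θ V - c) / (-lv θ d)) • d) = c := by
    have hdn : lv θ d ≠ 0 := hd.ne
    rw [lv_add, lv_smul]
    field_simp
    ring
  set X := V + ((lv θ V - c) / (-lv θ d)) • d with hX
  set m := tg θ X with hm
  have hD : 0 < -lv θ d := by linarith
  have hneg : ∀ t, sg V d (pt θ c t) < 0 ↔ t < m := by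
    intro t
    rw [hsg t]
    constructor
    · intro h
      by_contra h'
      rw [not_lt] at h'
      have := mul_nonneg hD.le (sub_nonneg.2 h')
      linarith
    · intro h
      have := mul_neg_of_pos_of_neg hD (sub_neg.2 h)
      linarith
  have hpos : ∀ t, 0 < sg V d (pt θ c t) ↔ m < t := by
    intro t
    rw [hsg t]
    constructor
    · intro h
      by_contra h'
      rw [not_lt] at h'
      have := mul_nonneg hD.le (sub_nonneg.2 h')
      linarith
    · intro h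
      have := mul_pos hD (sub_pos.2 h)
      linarith
  have hSD : ∀ t, pt θ c t ∈ SD K L ↔ ¬ (t ∈ Icc a b ↔ t ∈ Icc a' b') := by
    intro t
    rw [← e1, ← e3]
    rfl
  simp only [hneg, hpos, hSD]
  have he : b - a = b' - a' := by
    rw [e1, e3, Real.volume_Icc, Real.volume_Icc] at hvol
    exact (ENNReal.ofReal_eq_ofReal_iff (by linarith) (by linarith)).1 hvol
  apply bl_real he
  have ma : pt θ c a ∈ K := by
    have : a ∈ {t : ℝ | pt θ c t ∈ K} := by rw [e1]; exact ⟨le_rfl, hab.le⟩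
    exact this
  have mb : pt θ c b ∈ K := by
    have : b ∈ {t : ℝ | pt θ c t ∈ K} := by rw [e1]; exact ⟨hab.le, le_rfl⟩
    exact this
  have ma' : pt θ c a' ∈ L := by
    have : a' ∈ {t : ℝ | pt θ c t ∈ L} := by rw [e3]; exact ⟨le_rfl, hab'.le⟩
    exact this
  have mb' : pt θ c b' ∈ L := by
    have : b' ∈ {t : ℝ | pt θ c t ∈ L} := by rw [e3]; exact ⟨hab'.le, le_rfl⟩
    exact this
  rcases hcase with ⟨h1, h2⟩ | ⟨h1, h2⟩ | ⟨h1, h2⟩
  · left
    have h3 : m ∈ {t : ℝ | pt θ c t ∈ interior K} := by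
      show pt θ c m ∈ interior K
      rw [hm, ← hlX, pt_lv_tg]
      exact h1
    have h4 : m ∈ {t : ℝ | pt θ c t ∈ interior L} := by
      show pt θ c m ∈ interior L
      rw [hm, ← hlX, pt_lv_tg]
      exact h2
    rw [e2] at h3
    rw [e4] at h4
    exact ⟨h3.1, h3.2, h4.1, h4.2⟩
  · right; left
    constructor
    · by_contra h
      rw [not_le] at h
      exact absurd (h1 _ mb) (not_le.2 ((hpos b).2 h))
    · by_contra h
      rw [not_le] at h
      exact absurd (h2 _ ma') (not_le.2 ((hneg a').2 h))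
  · right; right
    constructor
    · by_contra h
      rw [not_le] at h
      exact absurd (h1 _ mb') (not_le.2 ((hpos b').2 h))
    · by_contra h
      rw [not_le] at h
      exact absurd (h2 _ ma) (not_le.2 ((hneg a).2 h))

/-- `V` is the strict top of `K` in the direction `θ` -/
structure Top (K : Set (ℝ × ℝ)) (θ : ℝ) (V : ℝ × ℝ) : Prop where
  mem : V ∈ K
  lt : ∀ w ∈ K, w ≠ V → lv θ w < lv θ V

theorem Top.le {K : Set (ℝ × ℝ)} {θ : ℝ} {V : ℝ × ℝ} (h : Top K θ V) {w : ℝ × ℝ} (hw : w ∈ K) :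
    lv θ w ≤ lv θ V := by
  by_cases e : w = V
  · rw [e]
  · exact (h.lt w hw e).le

theorem Top.hs_eq {K : Set (ℝ × ℝ)} {θ : ℝ} {V : ℝ × ℝ} (h : Top K θ V) (hK : IsCompact K) :
    hs K θ = lv θ V :=
  le_antisymm (hs_le ⟨V, h.mem⟩ fun _ hw => h.le hw) (lv_le_hs hK θ h.mem)

/-- all levels above `c1` from the levels between `c1` and the level of `V` -/
theorem H_of {K L : Set (ℝ × ℝ)} {θ c1 : ℝ} {V d : ℝ × ℝ} (tK : Top K θ V) (tL : Top L θ V)
    (H : ∀ c, c1 < c → c < lv θ V →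
      volume {t : ℝ | pt θ c t ∈ SD K L ∧ sg V d (pt θ c t) < 0} =
      volume {t : ℝ | pt θ c t ∈ SD K L ∧ 0 < sg V d (pt θ c t)}) :
    ∀ c, c1 < c → volume {t : ℝ | pt θ c t ∈ SD K L ∧ sg V d (pt θ c t) < 0} =
      volume {t : ℝ | pt θ c t ∈ SD K L ∧ 0 < sg V d (pt θ c t)} := by
  intro c hc
  rcases lt_or_ge c (lv θ V) with h | h
  · exact H c hc h
  · have key : ∀ t, pt θ c t ∈ SD K L → pt θ c t = V := by
      intro t ht
      by_contra hne
      have h3 : lv θ (pt θ c t) < lv θ V := by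
        rcases SD_subset K L ht with h' | h'
        · exact tK.lt _ h' hne
        · exact tL.lt _ h' hne
      rw [lv_pt] at h3
      linarith
    have e1 : {t : ℝ | pt θ c t ∈ SD K L ∧ sg V d (pt θ c t) < 0} = ∅ := by
      ext t
      simp only [mem_ofPred_eq, mem_empty_iff_false, iff_false, not_and]
      intro ht
      rw [key t ht, sg_self]
      exact lt_irrefl _
    have e2 : {t : ℝ | pt θ c t ∈ SD K L ∧ 0 < sg V d (pt θ c t)} = ∅ := by
      ext t
      simp only [mem_ofPred_eq, mem_empty_iff_false, iff_false, not_and]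
      intro ht
      rw [key t ht, sg_self]
      exact lt_irrefl _
    rw [e1, e2]

/-- separation of the interiors by a line through a common point -/
theorem sep_line {K L : Set (ℝ × ℝ)} (hK : IsBody K) (hL : IsBody L)
    (h : ¬ (interior K ∩ interior L).Nonempty) {V : ℝ × ℝ} (hVK : V ∈ K) (hVL : V ∈ L) :
    ∃ d : ℝ × ℝ, (∀ w ∈ interior K, sg V d w < 0) ∧ (∀ w ∈ interior L, 0 < sg V d w) := by
  obtain ⟨f, u, hf1, hf2⟩ := geometric_hahn_banach_open_open hK.convex.interior isOpen_interior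
    hL.convex.interior isOpen_interior
    (disjoint_iff_inter_eq_empty.2 (not_nonempty_iff_eq_empty.1 h))
  have hlin : ∀ x : ℝ × ℝ, f x = x.1 * f (1, 0) + x.2 * f (0, 1) := by
    intro x
    have h1 : x = x.1 • ((1 : ℝ), (0 : ℝ)) + x.2 • ((0 : ℝ), (1 : ℝ)) := by
      ext <;> simp
    conv_lhs => rw [h1]
    rw [map_add, map_smul, map_smul, smul_eq_mul, smul_eq_mul]
  have cK : ∀ w ∈ K, f w ≤ u := by
    have h1 : closure (interior K) ⊆ {w | f w ≤ u} :=
      closure_minimal (fun w hw => (hf1 w hw).le) (isClosed_le f.continuous continuous_const)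
    rw [hK.convex.closure_interior_eq_closure_of_nonempty_interior hK.nonempty,
      hK.compact.isClosed.closure_eq] at h1
    exact fun w hw => h1 hw
  have cL : ∀ w ∈ L, u ≤ f w := by
    have h1 : closure (interior L) ⊆ {w | u ≤ f w} :=
      closure_minimal (fun w hw => (hf2 w hw).le) (isClosed_le continuous_const f.continuous)
    rw [hL.convex.closure_interior_eq_closure_of_nonempty_interior hL.nonempty,
      hL.compact.isClosed.closure_eq] at h1
    exact fun w hw => h1 hw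
  have eV : f V = u := le_antisymm (cK V hVK) (cL V hVL)
  rw [hlin] at eV
  refine ⟨(-f (0, 1), f (1, 0)), fun w hw => ?_, fun w hw => ?_⟩
  · have := hf1 w hw
    rw [hlin, ← eV] at this
    simp only [sg]
    linarith
  · have := hf2 w hw
    rw [hlin, ← eV] at this
    simp only [sg]
    linarith

theorem dir_sign {θ θ' : ℝ} (h1 : θ < θ') (h2 : θ' < θ + Real.pi) {V d w1 w2 : ℝ × ℝ}
    (a1 : lv θ w1 < lv θ V) (a1' : lv θ' w1 < lv θ' V) (a2 : lv θ w2 < lv θ V)
    (a2' : lv θ' w2 < lv θ' V) (s1 : sg V d w1 < 0) (s2 : 0 < sg V d w2) :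
    (lv θ d < 0 ∧ lv θ' d < 0) ∨ (lv θ (-d) < 0 ∧ lv θ' (-d) < 0) := by
  have hs := sin_pos' h1 h2
  have i1 := sg_id θ θ' 0 V d w1
  have i2 := sg_id θ θ' 0 V d w2
  rw [zero_smul, add_zero, lv_sub, lv_sub] at i1 i2
  have j1 := mul_neg_of_pos_of_neg hs s1
  have j2 := mul_pos hs s2
  rw [i1] at j1
  rw [i2] at j2
  have n1 : lv θ (-d) = -lv θ d := by
    simp only [lv, Prod.fst_neg, Prod.snd_neg]
    ring
  have n2 : lv θ' (-d) = -lv θ' d := by
    simp only [lv, Prod.fst_neg, Prod.snd_neg]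
    ring
  rcases lt_trichotomy (lv θ d) 0 with h | h | h
  · left
    refine ⟨h, ?_⟩
    by_contra h'
    rw [not_lt] at h'
    have := mul_nonneg h' (sub_nonneg.2 a2.le)
    have := mul_pos_of_neg_of_neg h (sub_neg.2 a2')
    linarith
  · exfalso
    rw [h, zero_mul, sub_zero] at j1 j2
    have b1 : 0 < lv θ' d := by
      by_contra h'
      rw [not_lt] at h'
      have := mul_nonneg_of_nonpos_of_nonpos h' (sub_neg.2 a1).le
      linarith
    have := mul_neg_of_pos_of_neg b1 (sub_neg.2 a2)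
    linarith
  · right
    refine ⟨by rw [n1]; linarith, ?_⟩
    rw [n2]
    have : 0 < lv θ' d := by
      by_contra h'
      rw [not_lt] at h'
      have := mul_nonneg_of_nonpos_of_nonpos h' (sub_neg.2 a1).le
      have := mul_neg_of_pos_of_neg h (sub_neg.2 a1')
      linarith
    linarith

theorem sg_le_of_interior {K : Set (ℝ × ℝ)} (hK : IsBody K) {V d : ℝ × ℝ}
    (h : ∀ w ∈ interior K, sg V d w < 0) : ∀ w ∈ K, sg V d w ≤ 0 := by
  have h1 : closure (interior K) ⊆ {w | sg V d w ≤ 0} :=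
    closure_minimal (fun w hw => (h w hw).le) (isClosed_le (continuous_sg V d) continuous_const)
  rw [hK.convex.closure_interior_eq_closure_of_nonempty_interior hK.nonempty,
    hK.compact.isClosed.closure_eq] at h1
  exact fun w hw => h1 hw

/-- **Base lemma.**  Two bodies with the same strict top in two directions and with slices of equal
volumes slightly below the top agree near the top. -/
theorem bl {K L : Set (ℝ × ℝ)} (hK : IsBody K) (hL : IsBody L) {θ θ' : ℝ} (h1 : θ < θ')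
    (h2 : θ' < θ + Real.pi) {V : ℝ × ℝ} (tK : Top K θ V) (tL : Top L θ V) (tK' : Top K θ' V)
    (tL' : Top L θ' V) {c0 c0' : ℝ} (hc0 : c0 < lv θ V) (hc0' : c0' < lv θ' V)
    (hvol : ∀ c, c0 < c → c < lv θ V →
      volume {t : ℝ | pt θ c t ∈ K} = volume {t : ℝ | pt θ c t ∈ L})
    (hvol' : ∀ c, c0' < c → c < lv θ' V →
      volume {t : ℝ | pt θ' c t ∈ K} = volume {t : ℝ | pt θ' c t ∈ L}) :
    ∃ O : Set (ℝ × ℝ), IsOpen O ∧ V ∈ O ∧ ∀ w ∈ O, (w ∈ K ↔ w ∈ L) := by
  have eK := tK.hs_eq hK.compact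
  have eL := tL.hs_eq hL.compact
  have eK' := tK'.hs_eq hK.compact
  have eL' := tL'.hs_eq hL.compact
  have wK := width_pos hK θ
  have wL := width_pos hL θ
  have wK' := width_pos hK θ'
  have wL' := width_pos hL θ'
  by_cases hI : (interior K ∩ interior L).Nonempty
  · obtain ⟨q, hqK, hqL⟩ := hI
    have hd : lv θ (q - V) < 0 := by
      have := lv_lt_hs hK.compact θ hqK
      rw [lv_sub]
      linarith
    have hd' : lv θ' (q - V) < 0 := by
      have := lv_lt_hs hK.compact θ' hqK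
      rw [lv_sub]
      linarith
    have key : ∀ (M : Set (ℝ × ℝ)) (ψ c : ℝ), IsBody M → q ∈ interior M → V ∈ M →
        lv ψ (q - V) < 0 → lv ψ q < c → c < lv ψ V →
        V + ((lv ψ V - c) / (-lv ψ (q - V))) • (q - V) ∈ interior M := by
      intro M ψ c hM hqM hVM hdM hc1 hc2
      set s : ℝ := (lv ψ V - c) / (-lv ψ (q - V)) with hs'
      have hD : 0 < -lv ψ (q - V) := by linarith
      have s0 : 0 < s := div_pos (by linarith) hD
      have s1 : s ≤ 1 := by
        rw [hs', div_le_one hD, lv_sub]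
        linarith
      have := hM.convex.combo_interior_self_mem_interior hqM hVM s0 (sub_nonneg.2 s1)
        (by ring)
      have e : V + s • (q - V) = s • q + (1 - s) • V := by
        rw [smul_sub, sub_smul, one_smul]
        abel
      rw [e]
      exact this
    refine core hK hL h1 h2 hd hd' (V := V)
      (c1 := max (max c0 (lv θ q)) (max (-hs K (θ + Real.pi)) (-hs L (θ + Real.pi))))
      (c1' := max (max c0' (lv θ' q)) (max (-hs K (θ' + Real.pi)) (-hs L (θ' + Real.pi))))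
      ?_ ?_ (H_of tK tL ?_) (H_of tK' tL' ?_)
    · rw [lv_sub] at hd
      exact max_lt (max_lt hc0 (by linarith)) (max_lt (by linarith) (by linarith))
    · rw [lv_sub] at hd'
      exact max_lt (max_lt hc0' (by linarith)) (max_lt (by linarith) (by linarith))
    · intro c g1 g2
      rw [max_lt_iff, max_lt_iff, max_lt_iff] at g1
      obtain ⟨⟨g3, g4⟩, g5, g6⟩ := g1
      exact slice_case hK hL hd g5 (by rwa [eK]) g6 (by rwa [eL]) (hvol c g3 g2)
        (Or.inl ⟨key K θ c hK hqK tK.mem hd g4 g2, key L θ c hL hqL tL.mem hd g4 g2⟩)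
    · intro c g1 g2
      rw [max_lt_iff, max_lt_iff, max_lt_iff] at g1
      obtain ⟨⟨g3, g4⟩, g5, g6⟩ := g1
      exact slice_case hK hL hd' g5 (by rwa [eK']) g6 (by rwa [eL']) (hvol' c g3 g2)
        (Or.inl ⟨key K θ' c hK hqK tK.mem hd' g4 g2, key L θ' c hL hqL tL.mem hd' g4 g2⟩)
  · obtain ⟨d, d1, d2⟩ := sep_line hK hL hI tK.mem tL.mem
    obtain ⟨w1, hw1⟩ := hK.nonempty
    obtain ⟨w2, hw2⟩ := hL.nonempty
    have m1 : max c0 (max (-hs K (θ + Real.pi)) (-hs L (θ + Real.pi))) < lv θ V :=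
      max_lt hc0 (max_lt (by linarith) (by linarith))
    have m2 : max c0' (max (-hs K (θ' + Real.pi)) (-hs L (θ' + Real.pi))) < lv θ' V :=
      max_lt hc0' (max_lt (by linarith) (by linarith))
    have b1 := sg_le_of_interior hK d1
    have b2 : ∀ w ∈ L, sg V (-d) w ≤ 0 :=
      sg_le_of_interior hL fun w hw => by rw [sg_neg]; linarith [d2 w hw]
    rcases dir_sign h1 h2 (w1 := w1) (w2 := w2)
      (by rw [← eK]; exact lv_lt_hs hK.compact θ hw1)
      (by rw [← eK']; exact lv_lt_hs hK.compact θ' hw1)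
      (by rw [← eL]; exact lv_lt_hs hL.compact θ hw2)
      (by rw [← eL']; exact lv_lt_hs hL.compact θ' hw2)
      (d1 w1 hw1) (d2 w2 hw2) with ⟨s1, s2⟩ | ⟨s1, s2⟩
    · have hc : ((∀ w ∈ K, sg V d w ≤ 0) ∧ (∀ w ∈ L, 0 ≤ sg V d w)) :=
        ⟨b1, fun w hw => by have := b2 w hw; rw [sg_neg] at this; linarith⟩
      refine core hK hL h1 h2 s1 s2 m1 m2 (H_of tK tL ?_) (H_of tK' tL' ?_)
      · intro c g1 g2
        rw [max_lt_iff, max_lt_iff] at g1
        obtain ⟨g3, g5, g6⟩ := g1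
        exact slice_case hK hL s1 g5 (by rwa [eK]) g6 (by rwa [eL]) (hvol c g3 g2)
          (Or.inr (Or.inl hc))
      · intro c g1 g2
        rw [max_lt_iff, max_lt_iff] at g1
        obtain ⟨g3, g5, g6⟩ := g1
        exact slice_case hK hL s2 g5 (by rwa [eK']) g6 (by rwa [eL']) (hvol' c g3 g2)
          (Or.inr (Or.inl hc))
    · have hc : ((∀ w ∈ L, sg V (-d) w ≤ 0) ∧ (∀ w ∈ K, 0 ≤ sg V (-d) w)) :=
        ⟨b2, fun w hw => by rw [sg_neg]; linarith [b1 w hw]⟩
      refine core hK hL h1 h2 s1 s2 m1 m2 (H_of tK tL ?_) (H_of tK' tL' ?_)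
      · intro c g1 g2
        rw [max_lt_iff, max_lt_iff] at g1
        obtain ⟨g3, g5, g6⟩ := g1
        exact slice_case hK hL s1 g5 (by rwa [eK]) g6 (by rwa [eL]) (hvol c g3 g2)
          (Or.inr (Or.inr hc))
      · intro c g1 g2
        rw [max_lt_iff, max_lt_iff] at g1
        obtain ⟨g3, g5, g6⟩ := g1
        exact slice_case hK hL s2 g5 (by rwa [eK']) g6 (by rwa [eL']) (hvol' c g3 g2)
          (Or.inr (Or.inr hc))

/-- agreement near the strict top gives agreement above a level -/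
theorem above_of_near {K L O : Set (ℝ × ℝ)} (hK : IsCompact K) (hL : IsCompact L)
    (hO : IsOpen O) {V : ℝ × ℝ} (hV : V ∈ O) (h : ∀ w ∈ O, (w ∈ K ↔ w ∈ L)) {θ : ℝ}
    (tK : Top K θ V) (tL : Top L θ V) :
    ∃ c < lv θ V, ∀ w, c < lv θ w → (w ∈ K ↔ w ∈ L) := by
  have hC : IsCompact ((K ∪ L) ∩ Oᶜ) := (hK.union hL).inter_right hO.isClosed_compl
  obtain ⟨c, hc, hc'⟩ := exists_lt_of_compact hC (continuous_lv_right θ) (T := lv θ V) (by
    rintro w ⟨hw, hwO⟩
    have hne : w ≠ V := fun e => hwO (e ▸ hV)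
    rcases hw with hw | hw
    · exact tK.lt w hw hne
    · exact tL.lt w hw hne)
  refine ⟨c, hc, fun w hw => ?_⟩
  by_cases hwO : w ∈ O
  · exact h w hwO
  · constructor
    · intro h1
      exact absurd (hc' w ⟨Or.inl h1, hwO⟩) (not_le.2 hw)
    · intro h1
      exact absurd (hc' w ⟨Or.inr h1, hwO⟩) (not_le.2 hw)

end Pool.Agent.CRN
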