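import Pool.Agent.CRN.C1

/-!
# [CRN] Assembly: the outer bodies agree down to the level of the inner ones
-/

set_option autoImplicit false
open MeasureTheory Set
open Pool.Agent.XA

namespace Pool.Agent.CRN

/-- the situation: `V` and `y` are extreme points of `K` and of `P` at all the angles of `S`, and the X-rays
at the angles of `S` agree -/
structure Sit (K P L Q : Set (ℝ × ℝ)) (S : Finset ℝ) (α : ℝ) (V y : ℝ × ℝ) : Prop where
  bK : IsBody K
  bP : IsBody P
  bL : IsBody L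
  bQ : IsBody Q
  hPK : P ⊆ interior K
  hQL : Q ⊆ interior L
  inS : ∀ ψ ∈ S, α < ψ ∧ ψ < α + Real.pi
  hV : ∀ ψ ∈ S, lv ψ V = hs K ψ
  hy : ∀ ψ ∈ S, lv ψ y = hs P ψ
  hX : ∀ ψ ∈ S, ∀ c, volume {t : ℝ | pt ψ c t ∈ K \ interior P} =
    volume {t : ℝ | pt ψ c t ∈ L \ interior Q}

variable {K P L Q : Set (ℝ × ℝ)} {S : Finset ℝ} {α : ℝ} {V y : ℝ × ℝ}

theorem Sit.hsKL (s : Sit K P L Q S α V y) {ψ : ℝ} (h : ψ ∈ S) : hs K ψ = hs L ψ :=
  hs_eq_annuli s.bK s.bP s.bL s.bQ s.hPK s.hQL (s.hX ψ h)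

theorem Sit.topK (s : Sit K P L Q S α V y) {i : ℝ} (h : i ∈ mid S) : Top K i V :=
  top_of_mid s.bK s.inS s.hV h

theorem Sit.topL (s : Sit K P L Q S α V y) {i : ℝ} (h : i ∈ mid S) : Top L i V :=
  top_of_mid s.bL s.inS (fun ψ hψ => by rw [s.hV ψ hψ, s.hsKL hψ]) h

theorem Sit.hh_lt (s : Sit K P L Q S α V y) {i : ℝ} (h : i ∈ S) :
    max (hs P i) (hs Q i) < lv i V := by
  rw [s.hV i h]
  refine max_lt (hs_lt_of_subset s.bK s.bP s.hPK i) ?_
  rw [s.hsKL h]
  exact hs_lt_of_subset s.bL s.bQ s.hQL i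

theorem Sit.lt_pi (s : Sit K P L Q S α V y) {i j : ℝ} (hi : i ∈ S) (hj : j ∈ S) :
    j < i + Real.pi := by
  have := (s.inS i hi).1
  have := (s.inS j hj).2
  linarith

/-- the outer bodies agree near `V` -/
theorem Sit.near_V (s : Sit K P L Q S α V y) (hc : 1 < (mid S).card) {i : ℝ} (hi : i ∈ mid S) :
    ∃ c < lv i V, ∀ w ∈ closure (SD K L), lv i w ≤ c := by
  obtain ⟨a, ha, b, hb, hab⟩ : ∃ a ∈ mid S, ∃ b ∈ mid S, a < b := by
    obtain ⟨a, ha, b, hb, hab⟩ := Finset.one_lt_card.1 hc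
    rcases lt_or_gt_of_ne hab with h | h
    · exact ⟨a, ha, b, hb, h⟩
    · exact ⟨b, hb, a, ha, h⟩
  have ha' := mid_subset S ha
  have hb' := mid_subset S hb
  obtain ⟨O, hO, hVO, hag⟩ := bl s.bK s.bL hab (s.lt_pi ha' hb') (s.topK ha) (s.topL ha)
    (s.topK hb) (s.topL hb) (s.hh_lt ha') (s.hh_lt hb')
    (fun c h1 _ => slices_above s.bK s.bP s.bL s.bQ s.hPK s.hQL (s.hX a ha' c) h1)
    (fun c h1 _ => slices_above s.bK s.bP s.bL s.bQ s.hPK s.hQL (s.hX b hb' c) h1)
  obtain ⟨c, h1, h2⟩ := above_of_near s.bK.compact s.bL.compact hO hVO hag (s.topK hi) (s.topL hi)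
  exact ⟨c, h1, closure_le_of_agree h2⟩

/-- if the symmetric difference of the outer bodies is seen above both inner bodies, then it contains both
ends of a slice -/
theorem Sit.ex_ends (s : Sit K P L Q S α V y) (hc : 1 < (mid S).card) {i : ℝ} (hi : i ∈ mid S)
    {x : ℝ × ℝ} (hx : x ∈ closure (SD K L)) (hx' : max (hs P i) (hs Q i) < lv i x) :
    ∃ T, T < lv i V ∧ (∀ w ∈ closure (SD K L), lv i w ≤ T) ∧
      ∃ A ∈ closure (SD K L), ∃ B ∈ closure (SD K L), lv i A = T ∧ lv i B = T ∧ A ≠ B ∧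
        A ∈ K ∧ B ∈ K ∧ EndA K i A ∧ EndB K i B := by
  obtain ⟨T, hT, A, hA, B, hB, eA, eB, mA, mB⟩ :=
    ext_pair (isCompact_closure_SD s.bK.compact s.bL.compact) ⟨x, hx⟩ i
  obtain ⟨c, hc1, hc2⟩ := s.near_V hc hi
  have hTV : T < lv i V := by
    rw [← eA]
    exact (hc2 A hA).trans_lt hc1
  have hi' := mid_subset S hi
  have hTK : T < hs K i := by rwa [← s.hV i hi']
  have hTL : T < hs L i := by rwa [← s.hsKL hi']
  have hAK := mem_both s.bK s.bL hT hTK hTL hA eA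
  have hBK := mem_both s.bK s.bL hT hTK hTL hB eB
  have hne : A ≠ B := by
    intro hAB
    have hu : ∀ w ∈ closure (SD K L), lv i w = T → w = A := by
      intro w hw hwT
      refine eq_of_lv_tg (hwT.trans eA.symm) (le_antisymm ?_ (mA w hw hwT))
      rw [hAB]
      exact mB w hw hwT
    obtain ⟨c', g1, g2, g3, g4, g5⟩ := oe s.bK s.bL hT hTK hTL hA eA hu
      (hx'.trans_le (hT x hx))
    exact g5 (slices_above s.bK s.bP s.bL s.bQ s.hPK s.hQL (s.hX i hi' c') g1)
  have hlt : tg i A < tg i B := by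
    refine lt_of_le_of_ne (mA B hB eB) fun h => hne (eq_of_lv_tg (eA.trans eB.symm) h)
  refine ⟨T, hTV, hT, A, hA, B, hB, eA, eB, hne, hAK.1, hBK.1, ?_, ?_⟩
  · rcases ext_end s.bK s.bL hT hTK hTL hA eA (Or.inl mA) with h | h
    · exact h
    · exact absurd (h B hBK.1 (eB.trans eA.symm)) (not_le.2 hlt)
  · rcases ext_end s.bK s.bL hT hTK hTL hB eB (Or.inr mB) with h | h
    · exact absurd (h A hAK.1 (eA.trans eB.symm)) (not_le.2 hlt)
    · exact h

theorem Sit.ex_unique_aux (s : Sit K P L Q S α V y) (hc : 1 < (mid S).card) {i i' : ℝ}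
    (hi : i ∈ mid S) (hi' : i' ∈ mid S) (hlt : i < i')
    {x : ℝ × ℝ} (hx : x ∈ closure (SD K L)) (hx' : max (hs P i) (hs Q i) < lv i x)
    {z : ℝ × ℝ} (hz : z ∈ closure (SD K L)) (hz' : max (hs P i') (hs Q i') < lv i' z) : False := by
  obtain ⟨T, hTV, hT, A, hA, B, hB, eA, eB, hne, hAK, hBK, endA, endB⟩ := s.ex_ends hc hi hx hx'
  obtain ⟨T', hTV', hT', A', hA', B', hB', eA', eB', hne', hAK', hBK', endA', endB'⟩ :=
    s.ex_ends hc hi' hz hz'
  have hpi := s.lt_pi (mid_subset S hi) (mid_subset S hi')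
  have hVK := (s.topK hi).mem
  have h1 : A = A' := id_A s.bK.convex hlt hpi hVK hAK (by rw [eA]; exact hTV)
    (by rw [eA']; exact hTV') (by rw [eA]; exact hT A' hA') (by rw [eA']; exact hT' A hA) endA'
  have h2 : B = B' := id_B s.bK.convex hlt hpi hVK hBK' (by rw [eB]; exact hTV)
    (by rw [eB']; exact hTV') (by rw [eB]; exact hT B' hB') (by rw [eB']; exact hT' B hB) endB
  exact hne (eq_of_lv hlt hpi (eA.trans eB.symm) (by rw [h1, h2, eA', eB']))

open Classical in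
/-- the angles of `mid S` at which the symmetric difference of the outer bodies is not seen above both inner
bodies -/
noncomputable def goodR (K P L Q : Set (ℝ × ℝ)) (S : Finset ℝ) : Finset ℝ :=
  (mid S).filter fun i => ∀ x ∈ closure (SD K L), lv i x ≤ max (hs P i) (hs Q i)

theorem mem_goodR {i : ℝ} : i ∈ goodR K P L Q S ↔
    i ∈ mid S ∧ ∀ x ∈ closure (SD K L), lv i x ≤ max (hs P i) (hs Q i) := by
  classical
  unfold goodR
  rw [Finset.mem_filter]

theorem Sit.card_goodR (s : Sit K P L Q S α V y) (hc : 1 < (mid S).card) :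
    (mid S).card ≤ (goodR K P L Q S).card + 1 := by
  classical
  have h1 : (mid S) = goodR K P L Q S ∪ ((mid S).filter fun i =>
      ¬ ∀ x ∈ closure (SD K L), lv i x ≤ max (hs P i) (hs Q i)) := by
    unfold goodR
    rw [Finset.filter_union_filter_not_eq]
  have h2 : ((mid S).filter fun i =>
      ¬ ∀ x ∈ closure (SD K L), lv i x ≤ max (hs P i) (hs Q i)).card ≤ 1 := by
    rw [Finset.card_le_one]
    intro a ha b hb
    rw [Finset.mem_filter] at ha hb
    obtain ⟨ha1, ha2⟩ := ha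
    obtain ⟨hb1, hb2⟩ := hb
    push Not at ha2 hb2
    obtain ⟨x, hx, hx'⟩ := ha2
    obtain ⟨z, hz, hz'⟩ := hb2
    rcases lt_trichotomy a b with h | h | h
    · exact (s.ex_unique_aux hc ha1 hb1 h hx hx' hz hz').elim
    · exact h
    · exact (s.ex_unique_aux hc hb1 ha1 h hz hz' hx hx').elim
  calc (mid S).card = (goodR K P L Q S ∪ ((mid S).filter fun i =>
        ¬ ∀ x ∈ closure (SD K L), lv i x ≤ max (hs P i) (hs Q i))).card := by rw [← h1]
    _ ≤ (goodR K P L Q S).card + ((mid S).filter fun i =>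
        ¬ ∀ x ∈ closure (SD K L), lv i x ≤ max (hs P i) (hs Q i)).card :=
        Finset.card_union_le _ _
    _ ≤ (goodR K P L Q S).card + 1 := by omega

theorem goodR_subset : goodR K P L Q S ⊆ mid S := fun _ h => (mem_goodR.1 h).1

/-- a point of `P ∪ Q` at the highest level, in the interior of the corresponding outer body -/
theorem Sit.exists_z (s : Sit K P L Q S α V y) (k : ℝ) :
    ∃ z, lv k z = max (hs P k) (hs Q k) ∧ ((z ∈ P ∧ z ∈ interior K) ∨ (z ∈ Q ∧ z ∈ interior L)) := by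
  rcases le_total (hs Q k) (hs P k) with h | h
  · obtain ⟨z, hz, e⟩ := exists_lv_eq_hs s.bP.compact (s.bP.nonempty.mono interior_subset) k
    exact ⟨z, by rw [e, max_eq_left h], Or.inl ⟨hz, s.hPK hz⟩⟩
  · obtain ⟨z, hz, e⟩ := exists_lv_eq_hs s.bQ.compact (s.bQ.nonempty.mono interior_subset) k
    exact ⟨z, by rw [e, max_eq_right h], Or.inr ⟨hz, s.hQL hz⟩⟩

theorem Sit.le_hh (s : Sit K P L Q S α V y) (i : ℝ) {z : ℝ × ℝ} (h : z ∈ P ∨ z ∈ Q) :
    lv i z ≤ max (hs P i) (hs Q i) := by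
  rcases h with h | h
  · exact (lv_le_hs s.bP.compact i h).trans (le_max_left _ _)
  · exact (lv_le_hs s.bQ.compact i h).trans (le_max_right _ _)

/-- at the inner good angles the symmetric difference of the outer bodies is strictly below the level of the
inner bodies -/
theorem Sit.strict (s : Sit K P L Q S α V y) {i : ℝ}
    (hi : i ∈ mid (goodR K P L Q S)) {x : ℝ × ℝ} (hx : x ∈ closure (SD K L)) :
    lv i x < max (hs P i) (hs Q i) := by
  obtain ⟨hiR, ⟨j, hj, hji⟩, ⟨k, hk, hik⟩⟩ := mem_mid.1 hi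
  obtain ⟨hi1, hi2⟩ := mem_goodR.1 hiR
  obtain ⟨hj1, hj2⟩ := mem_goodR.1 hj
  obtain ⟨hk1, hk2⟩ := mem_goodR.1 hk
  have hiS := mid_subset S hi1
  have hjS := mid_subset S hj1
  have hkS := mid_subset S hk1
  by_contra hlt
  rw [not_lt] at hlt
  obtain ⟨T, hT, A, hA, B, hB, eA, eB, mA, mB⟩ :=
    ext_pair (isCompact_closure_SD s.bK.compact s.bL.compact) ⟨x, hx⟩ i
  have hTh : T = max (hs P i) (hs Q i) := by
    refine le_antisymm ?_ (hlt.trans (hT x hx))
    rw [← eA]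
    exact hi2 A hA
  have hTV : T < lv i V := by
    rw [hTh]
    exact s.hh_lt hiS
  have hTK : T < hs K i := by rwa [← s.hV i hiS]
  have hTL : T < hs L i := by rwa [← s.hsKL hiS]
  have hVK := (s.topK hi1).mem
  have hVL := (s.topL hi1).mem
  rcases ext_end s.bK s.bL hT hTK hTL hA eA (Or.inl mA) with h | h
  · have h' : EndA L i A := fun w hw hwA =>
      h w ((agree_ge s.bK s.bL hT hTK hTL (by rw [hwA, eA])).2 hw) hwA
    obtain ⟨z, ez, hz⟩ := s.exists_z j
    have hzi : lv i z ≤ lv i A := by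
      rw [eA, hTh]
      exact s.le_hh i (hz.imp And.left And.left)
    have hlt2 : max (hs P j) (hs Q j) < lv j A := by
      rcases hz with hz | hz
      · exact cr_A s.bK.convex hji (s.lt_pi hjS hiS) hz.2 hVK hzi (by rw [eA]; exact hTV)
          ez.ge (s.hh_lt hjS).le h
      · exact cr_A s.bL.convex hji (s.lt_pi hjS hiS) hz.2 hVL hzi (by rw [eA]; exact hTV)
          ez.ge (s.hh_lt hjS).le h'
    exact absurd (hj2 A hA) (not_le.2 hlt2)
  · have h' : EndB L i A := fun w hw hwA =>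
      h w ((agree_ge s.bK s.bL hT hTK hTL (by rw [hwA, eA])).2 hw) hwA
    obtain ⟨z, ez, hz⟩ := s.exists_z k
    have hzi : lv i z ≤ lv i A := by
      rw [eA, hTh]
      exact s.le_hh i (hz.imp And.left And.left)
    have hlt2 : max (hs P k) (hs Q k) < lv k A := by
      rcases hz with hz | hz
      · exact cr_B s.bK.convex hik (s.lt_pi hiS hkS) hz.2 hVK hzi (by rw [eA]; exact hTV)
          ez.ge (s.hh_lt hkS).le h
      · exact cr_B s.bL.convex hik (s.lt_pi hiS hkS) hz.2 hVL hzi (by rw [eA]; exact hTV)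
          ez.ge (s.hh_lt hkS).le h'
    exact absurd (hk2 A hA) (not_le.2 hlt2)

end Pool.Agent.CRN
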