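import Pool.Agent.CRN.C2

/-!
# [CRN] Assembly: the inner bodies, and the local theorem
-/

set_option autoImplicit false
open MeasureTheory Set
open Pool.Agent.XA

namespace Pool.Agent.CRN

variable {K P L Q : Set (ℝ × ℝ)} {S : Finset ℝ} {α : ℝ} {V y : ℝ × ℝ}

/-- at the inner good angles: a level below the top of the inner bodies above which the outer bodies agree -/
theorem Sit.outer_level (s : Sit K P L Q S α V y) {i : ℝ} (hi : i ∈ mid (goodR K P L Q S)) :
    ∃ c < max (hs P i) (hs Q i), ∀ w ∈ closure (SD K L), lv i w ≤ c :=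
  exists_lt_of_compact (isCompact_closure_SD s.bK.compact s.bL.compact) (continuous_lv_right i)
    fun _ hw => s.strict hi hw

theorem Sit.int_eq (s : Sit K P L Q S α V y) {i : ℝ} (hi : i ∈ S) {c c' : ℝ}
    (h : ∀ w ∈ closure (SD K L), lv i w ≤ c) (hc : c < c') :
    volume {t : ℝ | pt i c' t ∈ interior P} = volume {t : ℝ | pt i c' t ∈ interior Q} :=
  vol_inner s.bK s.bP s.bL s.bQ s.hPK s.hQL (s.hX i hi c') (by
    rw [slice_eq_of_closure_le h hc])

theorem Sit.hsPQ (s : Sit K P L Q S α V y) {i : ℝ} (hi : i ∈ mid (goodR K P L Q S)) :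
    hs P i = hs Q i := by
  obtain ⟨c, h1, h2⟩ := s.outer_level hi
  exact hs_eq_of_int s.bP s.bQ h1 fun c' hc' =>
    s.int_eq (mid_subset S (goodR_subset (mid_subset _ hi))) h2 hc'

theorem Sit.gS {i : ℝ} (hi : i ∈ mid (goodR K P L Q S)) : i ∈ S :=
  mid_subset S (goodR_subset (mid_subset _ hi))

theorem Sit.topP (s : Sit K P L Q S α V y) {i : ℝ} (h : i ∈ mid (mid (goodR K P L Q S))) :
    Top P i y :=
  top_of_mid s.bP (fun ψ hψ => s.inS ψ (Sit.gS hψ)) (fun ψ hψ => s.hy ψ (Sit.gS hψ)) h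

theorem Sit.topQ (s : Sit K P L Q S α V y) {i : ℝ} (h : i ∈ mid (mid (goodR K P L Q S))) :
    Top Q i y :=
  top_of_mid s.bQ (fun ψ hψ => s.inS ψ (Sit.gS hψ))
    (fun ψ hψ => by rw [← s.hsPQ hψ]; exact s.hy ψ (Sit.gS hψ)) h

/-- volumes of the closed slices of the inner bodies near their top -/
theorem Sit.inner_slices (s : Sit K P L Q S α V y) {i : ℝ}
    (hi : i ∈ mid (mid (goodR K P L Q S))) :
    ∃ c < lv i y, ∀ c', c < c' → c' < lv i y →
      volume {t : ℝ | pt i c' t ∈ P} = volume {t : ℝ | pt i c' t ∈ Q} := by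
  have hi1 := mid_subset _ hi
  obtain ⟨c, h1, h2⟩ := s.outer_level hi1
  have tP := (s.topP hi).hs_eq s.bP.compact
  have tQ := (s.topQ hi).hs_eq s.bQ.compact
  have wP := width_pos s.bP i
  have wQ := width_pos s.bQ i
  rw [tP, tQ, max_self] at h1
  refine ⟨max c (max (-hs P (i + Real.pi)) (-hs Q (i + Real.pi))),
    max_lt h1 (max_lt (by linarith) (by linarith)), fun c' g1 g2 => ?_⟩
  rw [max_lt_iff, max_lt_iff] at g1
  obtain ⟨g3, g4, g5⟩ := g1
  rw [← vol_interior_eq s.bP g4 (by rwa [tP]), ← vol_interior_eq s.bQ g5 (by rwa [tQ])]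
  exact s.int_eq (Sit.gS hi1) h2 g3

/-- the inner bodies agree near `y` -/
theorem Sit.near_y (s : Sit K P L Q S α V y) (hc : 1 < (mid (mid (goodR K P L Q S))).card)
    {i : ℝ} (hi : i ∈ mid (mid (goodR K P L Q S))) :
    ∃ c < lv i y, ∀ w ∈ closure (SD P Q), lv i w ≤ c := by
  obtain ⟨a, ha, b, hb, hab⟩ : ∃ a ∈ mid (mid (goodR K P L Q S)),
      ∃ b ∈ mid (mid (goodR K P L Q S)), a < b := by
    obtain ⟨a, ha, b, hb, hab⟩ := Finset.one_lt_card.1 hc
    rcases lt_or_gt_of_ne hab with h | h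
    · exact ⟨a, ha, b, hb, h⟩
    · exact ⟨b, hb, a, ha, h⟩
  have ha' := Sit.gS (mid_subset _ ha)
  have hb' := Sit.gS (mid_subset _ hb)
  obtain ⟨c1, hc1, hc1'⟩ := s.inner_slices ha
  obtain ⟨c2, hc2, hc2'⟩ := s.inner_slices hb
  obtain ⟨O, hO, hVO, hag⟩ := bl s.bP s.bQ hab (s.lt_pi ha' hb') (s.topP ha) (s.topQ ha)
    (s.topP hb) (s.topQ hb) hc1 hc2 hc1' hc2'
  obtain ⟨c, h1, h2⟩ := above_of_near s.bP.compact s.bQ.compact hO hVO hag (s.topP hi) (s.topQ hi)
  exact ⟨c, h1, closure_le_of_agree h2⟩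

/-- the four types of ends -/
def Ty (K P : Set (ℝ × ℝ)) (τ : Fin 4) (i : ℝ) (x : ℝ × ℝ) : Prop :=
  (τ = 0 ∧ x ∈ K ∧ EndA K i x) ∨ (τ = 1 ∧ x ∈ K ∧ EndB K i x) ∨
    (τ = 2 ∧ x ∈ P ∧ EndA P i x) ∨ (τ = 3 ∧ x ∈ P ∧ EndB P i x)

/-- two points of the same type at the same level coincide -/
theorem ty_same {τ : Fin 4} {i : ℝ} {x x' : ℝ × ℝ} (h : Ty K P τ i x) (h' : Ty K P τ i x')
    (e : lv i x = lv i x') : x = x' := by
  rcases h with ⟨rfl, a, b⟩ | ⟨rfl, a, b⟩ | ⟨rfl, a, b⟩ | ⟨rfl, a, b⟩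
  · rcases h' with ⟨-, a', b'⟩ | ⟨h0, -⟩ | ⟨h0, -⟩ | ⟨h0, -⟩
    · exact eq_of_lv_tg e (le_antisymm (b _ a' e.symm) (b' _ a e))
    · exact absurd h0 (by decide)
    · exact absurd h0 (by decide)
    · exact absurd h0 (by decide)
  · rcases h' with ⟨h0, -⟩ | ⟨-, a', b'⟩ | ⟨h0, -⟩ | ⟨h0, -⟩
    · exact absurd h0 (by decide)
    · exact eq_of_lv_tg e (le_antisymm (b' _ a e) (b _ a' e.symm))
    · exact absurd h0 (by decide)
    · exact absurd h0 (by decide)
  · rcases h' with ⟨h0, -⟩ | ⟨h0, -⟩ | ⟨-, a', b'⟩ | ⟨h0, -⟩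
    · exact absurd h0 (by decide)
    · exact absurd h0 (by decide)
    · exact eq_of_lv_tg e (le_antisymm (b _ a' e.symm) (b' _ a e))
    · exact absurd h0 (by decide)
  · rcases h' with ⟨h0, -⟩ | ⟨h0, -⟩ | ⟨h0, -⟩ | ⟨-, a', b'⟩
    · exact absurd h0 (by decide)
    · exact absurd h0 (by decide)
    · exact absurd h0 (by decide)
    · exact eq_of_lv_tg e (le_antisymm (b' _ a e) (b _ a' e.symm))

/-- two points of the same type at two angles coincide -/
theorem ty_id (hK : Convex ℝ K) (hP : Convex ℝ P) {τ : Fin 4} {i i' : ℝ} (h1 : i < i')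
    (h2 : i' < i + Real.pi) {x x' : ℝ × ℝ} (h : Ty K P τ i x) (h' : Ty K P τ i' x')
    (hV : V ∈ K) (hy : y ∈ P) (a1 : lv i x < lv i y) (a1' : lv i' x' < lv i' y)
    (b1 : lv i x < lv i V) (b1' : lv i' x' < lv i' V) (c1 : lv i x' ≤ lv i x)
    (c2 : lv i' x ≤ lv i' x') : x = x' := by
  rcases h with ⟨rfl, a, b⟩ | ⟨rfl, a, b⟩ | ⟨rfl, a, b⟩ | ⟨rfl, a, b⟩
  · rcases h' with ⟨-, a', b'⟩ | ⟨h0, -⟩ | ⟨h0, -⟩ | ⟨h0, -⟩
    · exact id_A hK h1 h2 hV a b1 b1' c1 c2 b'
    · exact absurd h0 (by decide)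
    · exact absurd h0 (by decide)
    · exact absurd h0 (by decide)
  · rcases h' with ⟨h0, -⟩ | ⟨-, a', b'⟩ | ⟨h0, -⟩ | ⟨h0, -⟩
    · exact absurd h0 (by decide)
    · exact id_B hK h1 h2 hV a' b1 b1' c1 c2 b
    · exact absurd h0 (by decide)
    · exact absurd h0 (by decide)
  · rcases h' with ⟨h0, -⟩ | ⟨h0, -⟩ | ⟨-, a', b'⟩ | ⟨h0, -⟩
    · exact absurd h0 (by decide)
    · exact absurd h0 (by decide)
    · exact id_A hP h1 h2 hy a a1 a1' c1 c2 b'
    · exact absurd h0 (by decide)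
  · rcases h' with ⟨h0, -⟩ | ⟨h0, -⟩ | ⟨h0, -⟩ | ⟨-, a', b'⟩
    · exact absurd h0 (by decide)
    · exact absurd h0 (by decide)
    · exact absurd h0 (by decide)
    · exact id_B hP h1 h2 hy a' a1 a1' c1 c2 b

/-- every angle of the last set produces two different ends -/
theorem Sit.two_types (s : Sit K P L Q S α V y)
    (hc : 1 < (mid (mid (goodR K P L Q S))).card)
    (hne : (closure (SD K L) ∪ closure (SD P Q)).Nonempty) {i : ℝ}
    (hi : i ∈ mid (mid (goodR K P L Q S))) :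
    ∃ T, T < lv i y ∧ T < lv i V ∧ (∀ w ∈ closure (SD K L) ∪ closure (SD P Q), lv i w ≤ T) ∧
      ∃ A ∈ closure (SD K L) ∪ closure (SD P Q), ∃ B ∈ closure (SD K L) ∪ closure (SD P Q),
        lv i A = T ∧ lv i B = T ∧ tg i A < tg i B ∧
          ∃ τ τ' : Fin 4, Ty K P τ i A ∧ Ty K P τ' i B := by
  have hi1 := mid_subset _ hi
  have hiS := Sit.gS hi1
  have hcomp : IsCompact (closure (SD K L) ∪ closure (SD P Q)) :=
    (isCompact_closure_SD s.bK.compact s.bL.compact).union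
      (isCompact_closure_SD s.bP.compact s.bQ.compact)
  obtain ⟨T, hT, A, hA, B, hB, eA, eB, mA, mB⟩ := ext_pair hcomp hne i
  have tP := (s.topP hi).hs_eq s.bP.compact
  have tQ := (s.topQ hi).hs_eq s.bQ.compact
  have hyV : lv i y < lv i V := by
    have := s.hh_lt hiS
    rw [tP, tQ, max_self] at this
    exact this
  have hTy : T < lv i y := by
    rw [← eA]
    rcases hA with h | h
    · have := s.strict hi1 h
      rwa [tP, tQ, max_self] at this
    · obtain ⟨c, g1, g2⟩ := s.near_y hc hi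
      exact (g2 A h).trans_lt g1
  have hTV : T < lv i V := hTy.trans hyV
  have hTK : T < hs K i := by rwa [← s.hV i hiS]
  have hTL : T < hs L i := by rwa [← s.hsKL hiS]
  have hTP : T < hs P i := by rwa [tP]
  have hTQ : T < hs Q i := by rwa [tQ]
  have hN1 : ∀ w ∈ closure (SD K L), lv i w ≤ T := fun w hw => hT w (Or.inl hw)
  have hN2 : ∀ w ∈ closure (SD P Q), lv i w ≤ T := fun w hw => hT w (Or.inr hw)
  have hAB : A ≠ B := by
    intro h
    obtain ⟨w, hw, hwT, hwA⟩ := tie s.bK s.bP s.bL s.bQ s.hPK s.hQL (s.hX i hiS) hN1 hN2 hTK hTL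
      hTP hTQ hA eA
    apply hwA
    refine eq_of_lv_tg (hwT.trans eA.symm) (le_antisymm ?_ (mA w hw hwT))
    rw [h]
    exact mB w hw hwT
  -- types
  have type : ∀ x ∈ closure (SD K L) ∪ closure (SD P Q), lv i x = T →
      ((∀ w ∈ closure (SD K L) ∪ closure (SD P Q), lv i w = T → tg i x ≤ tg i w) ∨
      (∀ w ∈ closure (SD K L) ∪ closure (SD P Q), lv i w = T → tg i w ≤ tg i x)) →
      ∃ τ, Ty K P τ i x := by
    intro x hx ex hext
    rcases hx with hx | hx
    · have hm := (mem_both s.bK s.bL hN1 hTK hTL hx ex).1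
      rcases ext_end s.bK s.bL hN1 hTK hTL hx ex
        (hext.imp (fun h w hw => h w (Or.inl hw)) (fun h w hw => h w (Or.inl hw))) with h | h
      · exact ⟨0, Or.inl ⟨rfl, hm, h⟩⟩
      · exact ⟨1, Or.inr (Or.inl ⟨rfl, hm, h⟩)⟩
    · have hm := (mem_both s.bP s.bQ hN2 hTP hTQ hx ex).1
      rcases ext_end s.bP s.bQ hN2 hTP hTQ hx ex
        (hext.imp (fun h w hw => h w (Or.inr hw)) (fun h w hw => h w (Or.inr hw))) with h | h
      · exact ⟨2, Or.inr (Or.inr (Or.inl ⟨rfl, hm, h⟩))⟩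
      · exact ⟨3, Or.inr (Or.inr (Or.inr ⟨rfl, hm, h⟩))⟩
  obtain ⟨τ, hτ⟩ := type A hA eA (Or.inl mA)
  obtain ⟨τ', hτ'⟩ := type B hB eB (Or.inr mB)
  have hlt : tg i A < tg i B :=
    lt_of_le_of_ne (mA B hB eB) fun h => hAB (eq_of_lv_tg (eA.trans eB.symm) h)
  exact ⟨T, hTy, hTV, hT, A, hA, B, hB, eA, eB, hlt, τ, τ', hτ, hτ'⟩

/-- **Local theorem.**  At least eleven angles within a half-turn at which `V ∈ K` and `y ∈ P` are extreme:
the annulus `K \ int P` is determined among all convex annuli by the X-rays at these angles. -/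
theorem Sit.main (s : Sit K P L Q S α V y) (hcard : 11 ≤ S.card) : K = L ∧ P = Q := by
  classical
  have k1 := card_mid S
  have k2 := s.card_goodR (by omega)
  have k3 := card_mid (goodR K P L Q S)
  have k4 := card_mid (mid (goodR K P L Q S))
  set G := mid (mid (goodR K P L Q S)) with hG
  have hG4 : 4 ≤ G.card := by omega
  have hG1 : 1 < G.card := by omega
  by_cases hne : (closure (SD K L) ∪ closure (SD P Q)).Nonempty
  · exfalso
    have h0 : ∀ i : ℝ, ∃ T, i ∈ G → (T < lv i y ∧ T < lv i V ∧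
        (∀ w ∈ closure (SD K L) ∪ closure (SD P Q), lv i w ≤ T) ∧
        ∃ A ∈ closure (SD K L) ∪ closure (SD P Q), ∃ B ∈ closure (SD K L) ∪ closure (SD P Q),
        lv i A = T ∧ lv i B = T ∧ tg i A < tg i B ∧
          ∃ τ τ' : Fin 4, Ty K P τ i A ∧ Ty K P τ' i B) := by
      intro i
      by_cases hi : i ∈ G
      · obtain ⟨T, h⟩ := s.two_types hG1 hne hi
        exact ⟨T, fun _ => h⟩
      · exact ⟨0, fun h => absurd h hi⟩
    choose T hT using h0
    have h1 : ∀ i : ℝ, ∃ c : (ℝ × ℝ) × (ℝ × ℝ) × Fin 4 × Fin 4, i ∈ G →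
        (c.1 ∈ closure (SD K L) ∪ closure (SD P Q) ∧ c.2.1 ∈ closure (SD K L) ∪ closure (SD P Q) ∧
        lv i c.1 = T i ∧ lv i c.2.1 = T i ∧ tg i c.1 < tg i c.2.1 ∧
          Ty K P c.2.2.1 i c.1 ∧ Ty K P c.2.2.2 i c.2.1) := by
      intro i
      by_cases hi : i ∈ G
      · obtain ⟨-, -, -, A, hA, B, hB, eA, eB, hAB, τ, τ', h2, h3⟩ := hT i hi
        exact ⟨(A, B, τ, τ'), fun _ => ⟨hA, hB, eA, eB, hAB, h2, h3⟩⟩
      · exact ⟨((0, 0), (0, 0), 0, 0), fun h => absurd h hi⟩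
    choose c hc using h1
    -- points of the same type at two angles `i < i'` coincide
    have hid : ∀ i ∈ G, ∀ i' ∈ G, i < i' → ∀ (τ : Fin 4) (x x' : ℝ × ℝ),
        Ty K P τ i x → Ty K P τ i' x' →
        x ∈ closure (SD K L) ∪ closure (SD P Q) → x' ∈ closure (SD K L) ∪ closure (SD P Q) →
        lv i x = T i → lv i' x' = T i' → x = x' := by
      intro i hi i' hi' hlt τ x x' h1 h2 hx hx' e e'
      obtain ⟨t1, t2, t3, -⟩ := hT i hi
      obtain ⟨t1', t2', t3', -⟩ := hT i' hi'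
      have hiS : i ∈ S := Sit.gS (mid_subset _ hi)
      have hiS' : i' ∈ S := Sit.gS (mid_subset _ hi')
      have hpi := s.lt_pi hiS hiS'
      have hVK : V ∈ K := (s.topK (goodR_subset (mid_subset _ (mid_subset _ hi)))).mem
      have hyP : y ∈ P := (s.topP hi).mem
      exact ty_id s.bK.convex s.bP.convex hlt hpi h1 h2 hVK hyP (by rw [e]; exact t1)
        (by rw [e']; exact t1') (by rw [e]; exact t2) (by rw [e']; exact t2')
        (by rw [e]; exact t3 x' hx') (by rw [e']; exact t3' x hx)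
    -- the right end at `i'` is not an extreme point at `i < i'`
    have hright : ∀ i ∈ G, ∀ i' ∈ G, i < i' → lv i (c i').2.1 ≠ T i := by
      intro i hi i' hi' hlt he
      obtain ⟨q1, q2, q3, q4, q5, q6, q7⟩ := hc i' hi'
      obtain ⟨-, -, t3, -⟩ := hT i hi
      have hpi := s.lt_pi (Sit.gS (mid_subset _ hi)) (Sit.gS (mid_subset _ hi'))
      have h1 := t3 _ q1
      have h2 := lv_eq i i' ((c i').1 - (c i').2.1)
      have e2 : Real.sin (i - i') = -Real.sin (i' - i) := by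
        rw [← Real.sin_neg, neg_sub]
      rw [lv_sub, lv_sub, tg_sub, q3, q4, sub_self, zero_mul, zero_add, e2, he] at h2
      have h3 : 0 < (tg i' (c i').2.1 - tg i' (c i').1) * Real.sin (i' - i) :=
        mul_pos (by linarith) (sin_pos' hlt hpi)
      nlinarith
    -- the smallest angle
    have hGne : G.Nonempty := Finset.card_pos.1 (by omega)
    set i0 := G.min' hGne with hi0
    have hi0G : i0 ∈ G := G.min'_mem hGne
    -- pigeonhole: five points and four types
    have hcardlt : (Finset.univ : Finset (Fin 4)).card < (Finset.insertNone G).card := by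
      rw [Finset.card_insertNone, Finset.card_univ, Fintype.card_fin]
      omega
    obtain ⟨a, ha, b, hb, hab, hτ⟩ := Finset.exists_ne_map_eq_of_card_lt_of_maps_to
      (f := fun o : Option ℝ => o.elim (c i0).2.2.1 fun i => (c i).2.2.2) hcardlt
      (fun _ _ => Finset.mem_coe.2 (Finset.mem_univ _))
    -- the contradiction for `A i0` and `B i`
    have key1 : ∀ i ∈ G, (c i0).2.2.1 = (c i).2.2.2 → False := by
      intro i hi he
      obtain ⟨p1, p2, p3, p4, p5, p6, p7⟩ := hc i0 hi0G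
      obtain ⟨q1, q2, q3, q4, q5, q6, q7⟩ := hc i hi
      rcases (G.min'_le i hi).lt_or_eq with hlt | heq
      · have hlt' : i0 < i := hlt
        have e1 := hid i0 hi0G i hi hlt' _ _ _ p6 (by rw [he]; exact q7) p1 q2 p3 q4
        exact hright i0 hi0G i hi hlt' (by rw [← e1]; exact p3)
      · have heq' : i0 = i := heq
        subst heq'
        have e1 := ty_same p6 (by rw [he]; exact q7) (p3.trans q4.symm)
        rw [e1] at p5
        exact lt_irrefl _ p5
    have key2 : ∀ i ∈ G, ∀ i' ∈ G, i < i' → (c i).2.2.2 = (c i').2.2.2 → False := by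
      intro i hi i' hi' hlt he
      obtain ⟨p1, p2, p3, p4, p5, p6, p7⟩ := hc i hi
      obtain ⟨q1, q2, q3, q4, q5, q6, q7⟩ := hc i' hi'
      have e1 := hid i hi i' hi' hlt _ _ _ p7 (by rw [he]; exact q7) p2 q2 p4 q4
      exact hright i hi i' hi' hlt (by rw [← e1]; exact p4)
    rcases a with _ | i
    · rcases b with _ | i'
      · exact hab rfl
      · exact key1 i' (Finset.some_mem_insertNone.1 hb) hτ
    · rcases b with _ | i'
      · exact key1 i (Finset.some_mem_insertNone.1 ha) hτ.symm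
      · have hi := Finset.some_mem_insertNone.1 ha
        have hi' := Finset.some_mem_insertNone.1 hb
        have hne' : i ≠ i' := fun h => hab (by rw [h])
        rcases lt_or_gt_of_ne hne' with h | h
        · exact key2 i hi i' hi' h hτ
        · exact key2 i' hi' i hi h hτ.symm
  · rw [not_nonempty_iff_eq_empty, union_empty_iff] at hne
    have key : ∀ A B : Set (ℝ × ℝ), closure (SD A B) = ∅ → A = B := by
      intro A B h
      ext w
      by_contra hw
      have : w ∈ closure (SD A B) := subset_closure hw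
      rw [h] at this
      exact this
    exact ⟨key K L hne.1, key P Q hne.2⟩

end Pool.Agent.CRN
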