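import Pool.Agent.CRN.D1

/-!
# [CRN] Common corners of two polygons
-/

set_option autoImplicit false
open MeasureTheory Set
open Pool.Agent.XA

namespace Pool.Agent.CRN

/-- pigeonhole for two sequences with the interval property -/
theorem block {X Y : Type} {f : ℕ → X} {g : ℕ → Y} {F : Finset X} {G : Finset Y} {T : ℕ}
    (hf : ∀ k ≤ T, f k ∈ F) (hg : ∀ k ≤ T, g k ∈ G)
    (hf' : ∀ i j l, i ≤ j → j ≤ l → l ≤ T → f i = f l → f j = f i)
    (hg' : ∀ i j l, i ≤ j → j ≤ l → l ≤ T → g i = g l → g j = g i)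
    (hT : F.card + G.card ≤ T + 1) : ∃ t < T, f t = f (t + 1) ∧ g t = g (t + 1) := by
  classical
  by_contra hcon
  push Not at hcon
  have aux : ∀ (Z : Type) (h : ℕ → Z), (∀ i j l, i ≤ j → j ≤ l → l ≤ T → h i = h l → h j = h i) →
      ∀ t < T, ((Finset.range (t + 1)).image h).card ≤ ((Finset.range (t + 2)).image h).card ∧
        (h t ≠ h (t + 1) → ((Finset.range (t + 1)).image h).card + 1 ≤
          ((Finset.range (t + 2)).image h).card) := by
    intro Z h hint t ht
    have hsub : (Finset.range (t + 1)).image h ⊆ (Finset.range (t + 2)).image h :=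
      Finset.image_subset_image (Finset.range_mono (by omega))
    refine ⟨Finset.card_le_card hsub, fun hne => ?_⟩
    have hnot : h (t + 1) ∉ (Finset.range (t + 1)).image h := by
      intro hmem
      obtain ⟨i, hi, he⟩ := Finset.mem_image.1 hmem
      rw [Finset.mem_range] at hi
      have := hint i t (t + 1) (by omega) (by omega) (by omega) he
      exact hne (this.trans he)
    have h1 : insert (h (t + 1)) ((Finset.range (t + 1)).image h) ⊆
        (Finset.range (t + 2)).image h := by
      intro x hx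
      rw [Finset.mem_insert] at hx
      rcases hx with rfl | hx
      · exact Finset.mem_image.2 ⟨t + 1, Finset.mem_range.2 (by omega), rfl⟩
      · exact hsub hx
    have h2 := Finset.card_le_card h1
    rwa [Finset.card_insert_of_notMem hnot] at h2
  have key : ∀ t ≤ T, t + 2 ≤ ((Finset.range (t + 1)).image f).card +
      ((Finset.range (t + 1)).image g).card := by
    intro t
    induction t with
    | zero =>
      intro _
      simp
    | succ t ih =>
      intro ht
      have h1 := ih (by omega)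
      obtain ⟨a1, a2⟩ := aux _ f hf' t (by omega)
      obtain ⟨b1, b2⟩ := aux _ g hg' t (by omega)
      by_cases hft : f t = f (t + 1)
      · have h3 := b2 (hcon t (by omega) hft)
        have e1 : t + 1 + 1 = t + 2 := rfl
        rw [e1]
        omega
      · have h3 := a2 hft
        have e1 : t + 1 + 1 = t + 2 := rfl
        rw [e1]
        omega
  have h1 := key T le_rfl
  have h2 : ((Finset.range (T + 1)).image f).card ≤ F.card := by
    apply Finset.card_le_card
    intro x hx
    obtain ⟨i, hi, rfl⟩ := Finset.mem_image.1 hx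
    rw [Finset.mem_range] at hi
    exact hf i (by omega)
  have h3 : ((Finset.range (T + 1)).image g).card ≤ G.card := by
    apply Finset.card_le_card
    intro x hx
    obtain ⟨i, hi, rfl⟩ := Finset.mem_image.1 hx
    rw [Finset.mem_range] at hi
    exact hg i (by omega)
  omega

/-- the level in the Euclidean plane -/
noncomputable def lvE (ψ : ℝ) (x : EuclideanSpace ℝ (Fin 2)) : ℝ :=
  x 0 * Real.cos ψ + x 1 * Real.sin ψ

theorem lvE_toE (ψ : ℝ) (v : ℝ × ℝ) : lvE ψ (toE v) = lv ψ v := (lv_eq_coord ψ v).symm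

/-- an intermediate extreme point is unique -/
theorem max_unique {a b c : ℝ} (hab : a < b) (hbc : b < c) (hac : c < a + Real.pi)
    {V W : EuclideanSpace ℝ (Fin 2)} (ha : lvE a W ≤ lvE a V) (hc : lvE c W ≤ lvE c V)
    (hb : lvE b V ≤ lvE b W) : W = V := by
  obtain ⟨v, rfl⟩ := toE_surjective V
  obtain ⟨w, rfl⟩ := toE_surjective W
  rw [lvE_toE, lvE_toE] at ha hb hc
  have h4 := lv_comb a b c (w - v)
  rw [lv_sub, lv_sub, lv_sub] at h4
  have s1 := sin_pos' (hab.trans hbc) hac
  have s2 := sin_pos' hbc (by linarith)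
  have s3 := sin_pos' hab (by linarith)
  have h5 : Real.sin (c - b) * (lv a w - lv a v) ≤ 0 :=
    mul_nonpos_of_nonneg_of_nonpos s2.le (by linarith)
  have h6 : Real.sin (b - a) * (lv c w - lv c v) ≤ 0 :=
    mul_nonpos_of_nonneg_of_nonpos s3.le (by linarith)
  have h7 : 0 ≤ Real.sin (c - a) * (lv b w - lv b v) := mul_nonneg s1.le (by linarith)
  have h8 : Real.sin (c - b) * (lv a w - lv a v) = 0 := by linarith
  have h9 : Real.sin (b - a) * (lv c w - lv c v) = 0 := by linarith
  have e1 : lv a w = lv a v := by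
    rcases mul_eq_zero.1 h8 with h | h
    · exact absurd h s2.ne'
    · linarith
  have e2 : lv c w = lv c v := by
    rcases mul_eq_zero.1 h9 with h | h
    · exact absurd h s3.ne'
    · linarith
  rw [eq_of_lv (hab.trans hbc) hac e1 e2]

/-- the normal cone of a point is convex -/
theorem normal_between {K : Set (EuclideanSpace ℝ (Fin 2))} {V : EuclideanSpace ℝ (Fin 2)}
    {a b c : ℝ} (hab : a ≤ b) (hbc : b ≤ c) (hac : c < a + Real.pi) (ha : NormalAt K V a)
    (hc : NormalAt K V c) : NormalAt K V b := by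
  rcases hab.lt_or_eq with hab | rfl
  · rcases hbc.lt_or_eq with hbc | rfl
    · refine ⟨ha.1, fun x hx => ?_⟩
      have a1 := ha.2 x hx
      have c1 := hc.2 x hx
      obtain ⟨v, rfl⟩ := toE_surjective V
      obtain ⟨w, rfl⟩ := toE_surjective x
      rw [← lv_eq_coord, ← lv_eq_coord] at a1 c1 ⊢
      have h4 := lv_comb a b c (w - v)
      rw [lv_sub, lv_sub, lv_sub] at h4
      have s1 := sin_pos' (hab.trans hbc) hac
      have s2 := sin_pos' hbc (by linarith)
      have s3 := sin_pos' hab (by linarith)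
      have h5 : Real.sin (c - b) * (lv a w - lv a v) ≤ 0 :=
        mul_nonpos_of_nonneg_of_nonpos s2.le (by linarith)
      have h6 : Real.sin (b - a) * (lv c w - lv c v) ≤ 0 :=
        mul_nonpos_of_nonneg_of_nonpos s3.le (by linarith)
      by_contra h7
      rw [not_le] at h7
      have := mul_pos s1 (sub_pos.2 h7)
      linarith
    · exact hc
  · exact ha

theorem lvE_le_of_hull {F : Finset (EuclideanSpace ℝ (Fin 2))} {ψ M : ℝ}
    (h : ∀ x ∈ F, lvE ψ x ≤ M) :
    ∀ x ∈ convexHull ℝ (F : Set (EuclideanSpace ℝ (Fin 2))), lvE ψ x ≤ M := by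
  have hc : Convex ℝ {x : EuclideanSpace ℝ (Fin 2) | lvE ψ x ≤ M} := by
    intro x hx y hy a b ha hb hab
    simp only [mem_ofPred_eq, lvE] at hx hy ⊢
    simp only [PiLp.add_apply, PiLp.smul_apply, smul_eq_mul]
    have h1 := mul_le_mul_of_nonneg_left hx ha
    have h2 := mul_le_mul_of_nonneg_left hy hb
    have h3 : a * M + b * M = M := by rw [← add_mul, hab, one_mul]
    nlinarith
  exact fun x hx => convexHull_min (fun y hy => h y hy) hc hx

/-- **Common corners of two polygons.**  If the angles `ψ 0 < ψ 1 < …` are in a half-circle, and `K`, `P` are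
convex hulls of finite sets `F`, `G` with `F.card + G.card ≤ T + 1`, then some block `ψ (10 t), …, ψ (10 t + 10)`,
`t < T`, consists of normals of `K` at one point and of `P` at one point. -/
theorem common_corner {F G : Finset (EuclideanSpace ℝ (Fin 2))} (hF : F.Nonempty)
    (hG : G.Nonempty) {T : ℕ} (hT : F.card + G.card ≤ T + 1) {ψ : ℕ → ℝ}
    (hψ : ∀ i j, i < j → j ≤ 10 * T → ψ i < ψ j)
    (hpi : ∀ i j, i ≤ 10 * T → j ≤ 10 * T → ψ j < ψ i + Real.pi) :
    ∃ t < T, ∃ V y, ∀ k, 10 * t ≤ k → k ≤ 10 * t + 10 →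
      NormalAt (convexHull ℝ (F : Set (EuclideanSpace ℝ (Fin 2)))) V (ψ k) ∧
      NormalAt (convexHull ℝ (G : Set (EuclideanSpace ℝ (Fin 2)))) y (ψ k) := by
  have hex : ∀ (H : Finset (EuclideanSpace ℝ (Fin 2))), H.Nonempty →
      ∀ k : ℕ, ∃ V ∈ H, ∀ x ∈ H, lvE (ψ k) x ≤ lvE (ψ k) V :=
    fun H hH k => Finset.exists_max_image H (lvE (ψ k)) hH
  choose f hfF hf using hex F hF
  choose g hgG hg using hex G hG
  have hint : ∀ (H : Finset (EuclideanSpace ℝ (Fin 2))) (h : ℕ → EuclideanSpace ℝ (Fin 2)),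
      (∀ k, h k ∈ H) → (∀ k, ∀ x ∈ H, lvE (ψ k) x ≤ lvE (ψ k) (h k)) →
      ∀ i j l, i ≤ j → j ≤ l → l ≤ T → h (10 * i) = h (10 * l) → h (10 * j) = h (10 * i) := by
    intro H h hH hm i j l hij hjl hl he
    rcases hij.lt_or_eq with hij | rfl
    · rcases hjl.lt_or_eq with hjl | rfl
      · refine max_unique (hψ (10 * i) (10 * j) (by omega) (by omega))
          (hψ (10 * j) (10 * l) (by omega) (by omega)) (hpi (10 * i) (10 * l) (by omega) (by omega))
          (hm _ _ (hH _)) ?_ (hm _ _ (hH _))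
        rw [he]
        exact hm _ _ (hH _)
      · exact he.symm
    · rfl
  obtain ⟨t, ht, e1, e2⟩ := block (f := fun t => f (10 * t)) (g := fun t => g (10 * t)) (T := T)
    (fun k _ => hfF _) (fun k _ => hgG _) (hint F f hfF hf) (hint G g hgG hg) hT
  have e1' : f (10 * t) = f (10 * (t + 1)) := e1
  have e2' : g (10 * t) = g (10 * (t + 1)) := e2
  refine ⟨t, ht, f (10 * t), g (10 * t), fun k h1 h2 => ?_⟩
  have nm : ∀ (H : Finset (EuclideanSpace ℝ (Fin 2))) (h : ℕ → EuclideanSpace ℝ (Fin 2)),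
      (∀ k, h k ∈ H) → (∀ k, ∀ x ∈ H, lvE (ψ k) x ≤ lvE (ψ k) (h k)) → ∀ k,
      NormalAt (convexHull ℝ (H : Set (EuclideanSpace ℝ (Fin 2)))) (h k) (ψ k) :=
    fun H h hH hm k => ⟨subset_convexHull ℝ _ (hH k), lvE_le_of_hull (hm k)⟩
  have mono : ∀ i j, i ≤ j → j ≤ 10 * T → ψ i ≤ ψ j := by
    intro i j hij hj
    rcases hij.lt_or_eq with h | rfl
    · exact (hψ i j h hj).le
    · exact le_rfl
  constructor
  · refine normal_between (mono _ _ h1 (by omega)) (mono k (10 * (t + 1)) (by omega) (by omega))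
      (hpi _ _ (by omega) (by omega)) (nm F f hfF hf _) ?_
    rw [e1']
    exact nm F f hfF hf _
  · refine normal_between (mono _ _ h1 (by omega)) (mono k (10 * (t + 1)) (by omega) (by omega))
      (hpi _ _ (by omega) (by omega)) (nm G g hgG hg _) ?_
    rw [e2']
    exact nm G g hgG hg _

end Pool.Agent.CRN
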