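import Pool.Agent.CRN.D1
import Pool.Agent.XA.B3
import Pool.Agent.XA.E4
import Pool.Agent.XA.T4

/-!
# [CRN] Bodies all of whose extreme points are corners: arbitrary holes
-/

set_option autoImplicit false
open MeasureTheory Set
open Pool.Agent.XA

namespace Pool.Agent.CRN

/-- the hole is below a level that is smaller than the extreme level -/
theorem hole_level {K P : Set (ℝ × ℝ)} (hK : IsBody K) (hP : closure P ⊆ interior K) (θ : ℝ) :
    ∃ c < hs K θ, ∀ y ∈ P, lv θ y ≤ c := by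
  have hc : IsCompact (closure P) :=
    hK.compact.of_isClosed_subset isClosed_closure (hP.trans interior_subset)
  obtain ⟨c, h1, h2⟩ := exists_lt_of_compact hc (continuous_lv_right θ) (T := hs K θ)
    fun w hw => lv_lt_hs hK.compact θ (hP hw)
  exact ⟨c, h1, fun y hy => h2 y (subset_closure hy)⟩

/-- equal slices of `K \ P`, `L \ Q` give equal extreme levels -/
theorem hs_eq_holes {K L P Q : Set (ℝ × ℝ)} (hK : IsBody K) (hL : IsBody L)
    (hP : closure P ⊆ interior K) (hQ : closure Q ⊆ interior L) {θ : ℝ}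
    (hX : ∀ c, volume {t : ℝ | pt θ c t ∈ K \ P} = volume {t : ℝ | pt θ c t ∈ L \ Q}) :
    hs K θ = hs L θ := by
  obtain ⟨c1, h1, h1'⟩ := hole_level hK hP θ
  obtain ⟨c2, h2, h2'⟩ := hole_level hL hQ θ
  refine hs_eq_of_closed (QK := P) (QL := Q) hK hL (ρ := min (hs K θ - c1) (hs L θ - c2))
    (lt_min (by linarith) (by linarith)) ?_ ?_ ?_
  · intro y hy
    have := h1' y hy
    have := min_le_left (hs K θ - c1) (hs L θ - c2)
    linarith
  · intro y hy
    have := h2' y hy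
    have := min_le_right (hs K θ - c1) (hs L θ - c2)
    linarith
  · intro c hc
    exact outer_slice (fun y hy => hc y (Or.inl hy)) (fun y hy => hc y (Or.inr hy)) (hX c)

/-- an extreme point of `K` of the highest level -/
theorem exists_extreme_top {K : Set (ℝ × ℝ)} (hK : IsBody K) (θ : ℝ) :
    ∃ V ∈ K.extremePoints ℝ, lv θ V = hs K θ := by
  have hlin : IsLinearMap ℝ (lv θ) :=
    ⟨fun x y => lv_add θ x y, fun c x => by rw [lv_smul]; rfl⟩
  set l : StrongDual ℝ (ℝ × ℝ) := ⟨hlin.mk' _, continuous_lv_right θ⟩ with hl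
  have hlv : ∀ w, l w = lv θ w := fun w => rfl
  obtain ⟨z, hz, ez⟩ := exists_lv_eq_hs hK.compact (hK.nonempty.mono interior_subset) θ
  have hF : IsExposed ℝ K {x ∈ K | ∀ y ∈ K, l y ≤ l x} := fun _ => ⟨l, rfl⟩
  have hFc : IsCompact {x ∈ K | ∀ y ∈ K, l y ≤ l x} := hF.isCompact hK.compact
  have hFne : {x ∈ K | ∀ y ∈ K, l y ≤ l x}.Nonempty := by
    refine ⟨z, hz, fun y hy => ?_⟩
    rw [hlv, hlv, ez]
    exact lv_le_hs hK.compact θ hy
  obtain ⟨V, hV⟩ := hFc.extremePoints_nonempty hFne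
  have hVK : V ∈ K.extremePoints ℝ := hF.isExtreme.extremePoints_subset_extremePoints hV
  refine ⟨V, hVK, le_antisymm (lv_le_hs hK.compact θ hVK.1) ?_⟩
  rw [← ez, ← hlv, ← hlv]
  exact hV.1.2 z hz

/-- **Bodies with corners and arbitrary holes.** -/
theorem corners_holes {K L P Q : Set (ℝ × ℝ)} (hK : IsBody K) (hL : IsBody L)
    (hP : closure P ⊆ interior K) (hQ : closure Q ⊆ interior L)
    (hV : ∀ V ∈ K.extremePoints ℝ, ∃ a b c, a < b ∧ b < c ∧ c < a + Real.pi ∧
      (∀ ψ, ψ = a ∨ ψ = b ∨ ψ = c → lv ψ V = hs K ψ ∧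
        ∀ c', volume {t : ℝ | pt ψ c' t ∈ K \ P} = volume {t : ℝ | pt ψ c' t ∈ L \ Q})) :
    K = L := by
  have hLc := hL.compact.isClosed
  -- extreme points of `K` are in `L`
  have hmem : ∀ V ∈ K.extremePoints ℝ, V ∈ L := by
    intro V hVK
    obtain ⟨a, b, c, hab, hbc, hac, h⟩ := hV V hVK
    have e : ∀ ψ, ψ = a ∨ ψ = b ∨ ψ = c → lv ψ V = hs L ψ := fun ψ hψ => by
      rw [(h ψ hψ).1]
      exact hs_eq_holes hK hL hP hQ (h ψ hψ).2
    exact mem_of_three hL hab hbc hac (e a (Or.inl rfl)) (e b (Or.inr (Or.inl rfl)))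
      (e c (Or.inr (Or.inr rfl)))
  have hKL : K ⊆ L := by
    rw [← closure_convexHull_extremePoints hK.compact hK.convex]
    exact closure_minimal (convexHull_min hmem hL.convex) hLc
  refine Subset.antisymm hKL fun w hw => ?_
  by_contra hwK
  obtain ⟨ψ, hψ⟩ := exists_sep hK hwK
  obtain ⟨V, hVe, eV⟩ := exists_extreme_top hK ψ
  obtain ⟨a, b, c, hab, hbc, hac, h⟩ := hV V hVe
  have eK : ∀ ψ, ψ = a ∨ ψ = b ∨ ψ = c → lv ψ V = hs K ψ := fun ψ hψ => (h ψ hψ).1
  have eL : ∀ ψ, ψ = a ∨ ψ = b ∨ ψ = c → lv ψ V = hs L ψ := fun ψ hψ => by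
    rw [(h ψ hψ).1]
    exact hs_eq_holes hK hL hP hQ (h ψ hψ).2
  have hb : b = a ∨ b = b ∨ b = c := Or.inr (Or.inl rfl)
  obtain ⟨c1, g1, g1'⟩ := hole_level hK hP b
  obtain ⟨c2, g2, g2'⟩ := hole_level hL hQ b
  rw [← eK b hb] at g1
  rw [← eL b hb] at g2
  have wK := width_pos hK b
  have wL := width_pos hL b
  rw [← eK b hb] at wK
  rw [← eL b hb] at wL
  set m : ℝ := max (max c1 c2) (max (-hs K (b + Real.pi)) (-hs L (b + Real.pi))) with hm
  have hmV : m < lv b V := max_lt (max_lt g1 g2) (max_lt (by linarith) (by linarith))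
  -- the bodies agree above the level `m`
  have agree : ∀ v ∈ L, m < lv b v → v ∈ K := by
    intro v hv hmv
    rw [hm, max_lt_iff, max_lt_iff, max_lt_iff] at hmv
    obtain ⟨⟨k1, k2⟩, k3, k4⟩ := hmv
    have hle : lv b v ≤ lv b V := by
      rw [eL b hb]
      exact lv_le_hs hL.compact b hv
    rcases hle.lt_or_eq with hlt | heq
    · obtain ⟨x1, x2, hx, s1, -⟩ := chord_single hK k3 (by rwa [← eK b hb])
      obtain ⟨y1, y2, hy, s2, -⟩ := chord_single hL k4 (by rwa [← eL b hb])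
      have hvol : volume {t : ℝ | pt b (lv b v) t ∈ K} = volume {t : ℝ | pt b (lv b v) t ∈ L} :=
        outer_slice (P := P) (Q := Q) (fun y hy => (g1' y hy).trans_lt k1)
          (fun y hy => (g2' y hy).trans_lt k2) ((h b hb).2 _)
      have hsub : {t : ℝ | pt b (lv b v) t ∈ K} ⊆ {t : ℝ | pt b (lv b v) t ∈ L} :=
        fun t ht => hKL ht
      rw [s1, s2] at hvol hsub
      rw [Real.volume_Icc, Real.volume_Icc] at hvol
      have he : x2 - x1 = y2 - y1 :=
        (ENNReal.ofReal_eq_ofReal_iff (by linarith) (by linarith)).1 hvol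
      have h1 := hsub ⟨le_rfl, hx.le⟩
      have h2 := hsub ⟨hx.le, le_rfl⟩
      have h3 : tg b v ∈ {t : ℝ | pt b (lv b v) t ∈ L} := by
        show pt b (lv b v) (tg b v) ∈ L
        rw [pt_lv_tg]
        exact hv
      rw [s2] at h3
      have h4 : tg b v ∈ {t : ℝ | pt b (lv b v) t ∈ K} := by
        rw [s1]
        exact ⟨by linarith [h1.1, h2.2, h3.1], by linarith [h1.1, h2.2, h3.2]⟩
      have h5 : pt b (lv b v) (tg b v) ∈ K := h4
      rwa [pt_lv_tg] at h5
    · have := top_unique hL.compact hab hbc hac (eL a (Or.inl rfl)) (eL b hb)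
        (eL c (Or.inr (Or.inr rfl))) hv (by rw [← eL b hb, heq])
      rw [this]
      exact hVe.1
  -- points of the segment from `V` to `w` close to `V`
  have hcont : Continuous (fun τ : ℝ => lv b (V + τ • (w - V))) :=
    (continuous_lv_right b).comp (by fun_prop)
  have hopen : IsOpen {τ : ℝ | m < lv b (V + τ • (w - V))} := isOpen_lt continuous_const hcont
  have h0 : (0 : ℝ) ∈ {τ : ℝ | m < lv b (V + τ • (w - V))} := by
    show m < lv b (V + (0 : ℝ) • (w - V))
    rw [zero_smul, add_zero]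
    exact hmV
  obtain ⟨ε, hε, hball⟩ := Metric.isOpen_iff.1 hopen 0 h0
  set τ : ℝ := min (ε / 2) 1 with hτ
  have hτ0 : 0 < τ := lt_min (by linarith) one_pos
  have hτ1 : τ ≤ 1 := min_le_right _ _
  have hτε : τ ∈ Metric.ball (0 : ℝ) ε := by
    rw [Metric.mem_ball, Real.dist_eq, sub_zero, abs_of_pos hτ0]
    have := min_le_left (ε / 2) (1 : ℝ)
    linarith
  have h1 : V + τ • (w - V) ∈ L := hL.convex.add_smul_sub_mem (hKL hVe.1) hw ⟨hτ0.le, hτ1⟩
  have h2 : V + τ • (w - V) ∈ K := agree _ h1 (hball hτε)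
  have h3 := lv_le_hs hK.compact ψ h2
  rw [lv_add, lv_smul, lv_sub, eV] at h3
  have := mul_pos hτ0 (sub_pos.2 hψ)
  linarith

end Pool.Agent.CRN
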