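import Pool.Agent.CRN.D2
import Pool.Agent.CRN.D3
import Pool.Agent.XA.Z3

/-!
# [CRN] Finite sets of directions
-/

set_option autoImplicit false
open MeasureTheory Set
open Pool.Agent.XA

namespace Pool.Agent.CRN

/-- the angles `2 π k / (100 n)` -/
noncomputable def an (n : ℕ) (k : ℤ) : ℝ := 2 * Real.pi * k / (100 * n)

theorem an_add (n : ℕ) (k j : ℤ) : an n (k + j) = an n k + an n j := by
  unfold an
  push_cast
  ring

theorem an_pos {n : ℕ} (hn : 0 < n) {k : ℤ} (hk : 0 < k) : 0 < an n k := by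
  have h1 : (0 : ℝ) < n := by exact_mod_cast hn
  have h2 : (0 : ℝ) < k := by exact_mod_cast hk
  have := Real.pi_pos
  unfold an
  positivity

theorem an_lt {n : ℕ} (hn : 0 < n) {i j : ℤ} (h : i < j) : an n i < an n j := by
  have h1 := an_pos hn (sub_pos.2 h)
  have h2 := an_add n i (j - i)
  rw [show i + (j - i) = j by ring] at h2
  linarith

theorem an_le {n : ℕ} (hn : 0 < n) {i j : ℤ} (h : i ≤ j) : an n i ≤ an n j := by
  rcases h.lt_or_eq with h | rfl
  · exact (an_lt hn h).le
  · exact le_rfl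

/-- the finite set of the directions of these angles -/
noncomputable def dirs (n : ℕ) : Finset (EuclideanSpace ℝ (Fin 2)) := by
  classical
  exact (Finset.range (100 * n)).image fun k : ℕ =>
    (!₂[-Real.sin (an n k), Real.cos (an n k)] : EuclideanSpace ℝ (Fin 2))

theorem mem_dirs {n : ℕ} (hn : 0 < n) (k : ℤ) :
    (!₂[-Real.sin (an n k), Real.cos (an n k)] : EuclideanSpace ℝ (Fin 2)) ∈ dirs n := by
  classical
  have hM : (0 : ℤ) < 100 * n := by
    have : (0 : ℤ) < n := by exact_mod_cast hn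
    omega
  have h1 := Int.emod_nonneg k hM.ne'
  have h2 := Int.emod_lt_of_pos k hM
  have h3 := Int.emod_add_mul_ediv k (100 * n)
  have hn0 : (n : ℝ) ≠ 0 := by
    have : (0 : ℝ) < n := by exact_mod_cast hn
    exact this.ne'
  have e : an n k = an n (k % (100 * n)) + ((k / (100 * n) : ℤ) : ℝ) * (2 * Real.pi) := by
    conv_lhs => rw [← h3]
    rw [an_add]
    congr 1
    unfold an
    push_cast
    field_simp
  unfold dirs
  refine Finset.mem_image.2 ⟨(k % (100 * n)).toNat, Finset.mem_range.2 (by omega), ?_⟩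
  have h4 : (((k % (100 * n)).toNat : ℕ) : ℤ) = k % (100 * n) := Int.toNat_of_nonneg h1
  rw [h4, e, Real.sin_add_int_mul_two_pi, Real.cos_add_int_mul_two_pi]

theorem dir_ne_zero (θ : ℝ) :
    (!₂[-Real.sin θ, Real.cos θ] : EuclideanSpace ℝ (Fin 2)) ≠ 0 := by
  intro h
  have h0 := congrFun (congrArg (fun v : EuclideanSpace ℝ (Fin 2) => v.ofLp) h) 0
  have h1 := congrFun (congrArg (fun v : EuclideanSpace ℝ (Fin 2) => v.ofLp) h) 1
  simp at h0 h1
  have := Real.sin_sq_add_cos_sq θ
  rw [h0, h1] at this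
  norm_num at this

theorem dirs_ne_zero {n : ℕ} : ∀ u ∈ dirs n, u ≠ 0 := by
  classical
  intro u hu
  unfold dirs at hu
  obtain ⟨k, -, rfl⟩ := Finset.mem_image.1 hu
  exact dir_ne_zero _

/-- every arc of length `1 / n` contains fifteen consecutive angles -/
theorem exists_block {n : ℕ} (hn : 0 < n) (α : ℝ) :
    ∃ k : ℤ, α ≤ an n k ∧ an n (k + 14) ≤ α + 1 / n := by
  have h1 : (0 : ℝ) < n := by exact_mod_cast hn
  have hpi := Real.pi_pos
  have hpi2 : Real.pi < 3.15 := Real.pi_lt_d2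
  refine ⟨⌈α * (100 * n) / (2 * Real.pi)⌉, ?_, ?_⟩
  · have h2 := Int.le_ceil (α * (100 * n) / (2 * Real.pi))
    rw [div_le_iff₀ (by positivity)] at h2
    unfold an
    rw [le_div_iff₀ (by positivity)]
    linarith
  · have h2 := Int.ceil_lt_add_one (α * (100 * n) / (2 * Real.pi))
    set c := ⌈α * (100 * n) / (2 * Real.pi)⌉ with hc
    have h3 : (c : ℝ) * (2 * Real.pi) < α * (100 * n) + 2 * Real.pi := by
      have h4 : (c : ℝ) - 1 < α * (100 * n) / (2 * Real.pi) := by linarith
      rw [lt_div_iff₀ (by positivity)] at h4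
      linarith
    unfold an
    rw [div_le_iff₀ (by positivity)]
    push_cast
    have h5 : (α + 1 / n) * (100 * n) = α * (100 * n) + 100 := by
      field_simp
    rw [h5]
    nlinarith

/-- fourteen consecutive angles are in an open half-circle -/
theorem an_half {n : ℕ} (hn : 0 < n) {i j : ℤ} (h : j ≤ i + 49) : an n j < an n i + Real.pi := by
  have h1 : (0 : ℝ) < n := by exact_mod_cast hn
  have h1' : (1 : ℝ) ≤ n := by exact_mod_cast hn
  have hpi := Real.pi_pos
  have h2 : an n j ≤ an n (i + 49) := an_le hn h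
  rw [an_add] at h2
  have h3 : an n 49 < Real.pi := by
    unfold an
    rw [div_lt_iff₀ (by positivity)]
    push_cast
    nlinarith
  linarith

/-- the local theorem for a block of eleven consecutive angles -/
theorem block_thm {n : ℕ} (hn : 0 < n) {K P L Q : Set (EuclideanSpace ℝ (Fin 2))}
    (hK : Annulus K P) (hL : Annulus L Q)
    (hX : ∀ u ∈ dirs n, SameXray (K \ interior P) (L \ interior Q) u) {k : ℤ}
    {V y : EuclideanSpace ℝ (Fin 2)}
    (h : ∀ j : ℤ, k ≤ j → j ≤ k + 10 → NormalAt K V (an n j) ∧ NormalAt P y (an n j)) :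
    K = L ∧ P = Q := by
  classical
  set S : Finset ℝ := (Finset.range 11).image fun j : ℕ => an n (k + j) with hS
  have hmem : ∀ ψ ∈ S, ∃ j : ℤ, k ≤ j ∧ j ≤ k + 10 ∧ ψ = an n j := by
    intro ψ hψ
    obtain ⟨j, hj, rfl⟩ := Finset.mem_image.1 hψ
    rw [Finset.mem_range] at hj
    exact ⟨k + j, by omega, by omega, rfl⟩
  have hcard : S.card = 11 := by
    rw [hS, Finset.card_image_of_injective, Finset.card_range]
    intro i j hij
    by_contra hne
    have hij' : an n (k + i) = an n (k + j) := hij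
    rcases lt_or_gt_of_ne hne with h | h
    · exact (an_lt hn (show k + (i : ℤ) < k + j by omega)).ne hij'
    · exact (an_lt hn (show k + (j : ℤ) < k + i by omega)).ne hij'.symm
  refine local_thm hK hL (S := S) (α := an n (k - 1)) ?_ hcard.ge (V := V) (y := y) ?_ ?_ ?_
  · intro ψ hψ
    obtain ⟨j, h1, h2, rfl⟩ := hmem ψ hψ
    exact ⟨an_lt hn (by omega), an_half hn (by omega)⟩
  · intro ψ hψ
    obtain ⟨j, h1, h2, rfl⟩ := hmem ψ hψ
    exact (h j h1 h2).1
  · intro ψ hψ
    obtain ⟨j, h1, h2, rfl⟩ := hmem ψ hψ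
    exact (h j h1 h2).2
  · intro ψ hψ
    obtain ⟨j, h1, h2, rfl⟩ := hmem ψ hψ
    exact hX _ (mem_dirs hn j)

/-- facing corners -/
theorem facing_thm {n : ℕ} (hn : 0 < n) {K P L Q : Set (EuclideanSpace ℝ (Fin 2))}
    (hK : Annulus K P) (hL : Annulus L Q)
    (hX : ∀ u ∈ dirs n, SameXray (K \ interior P) (L \ interior Q) u)
    {V y : EuclideanSpace ℝ (Fin 2)} {α : ℝ}
    (h : ∀ ψ ∈ Icc α (α + 1 / n), NormalAt K V ψ ∧ NormalAt P y ψ) : K = L ∧ P = Q := by
  obtain ⟨k, h1, h2⟩ := exists_block hn α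
  refine block_thm hn hK hL hX (k := k) (V := V) (y := y) fun j h3 h4 => ?_
  exact h _ ⟨h1.trans (an_le hn h3), (an_le hn (by omega)).trans h2⟩

/-- polygons with at most `n` vertices in total -/
theorem polygon_thm {n : ℕ} {K P L Q : Set (EuclideanSpace ℝ (Fin 2))}
    (hK : Annulus K P) (hL : Annulus L Q)
    (hX : ∀ u ∈ dirs n, SameXray (K \ interior P) (L \ interior Q) u)
    {F G : Finset (EuclideanSpace ℝ (Fin 2))} (hFG : F.card + G.card ≤ n)
    (hKF : K = convexHull ℝ (F : Set (EuclideanSpace ℝ (Fin 2))))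
    (hPG : P = convexHull ℝ (G : Set (EuclideanSpace ℝ (Fin 2)))) : K = L ∧ P = Q := by
  obtain ⟨p, hp⟩ := hK.nonempty'
  have hpP := interior_subset hp
  have hpK := interior_subset (hK.subset hpP)
  have hF : F.Nonempty := by
    rw [Finset.nonempty_iff_ne_empty]
    rintro rfl
    rw [hKF] at hpK
    simp at hpK
  have hG : G.Nonempty := by
    rw [Finset.nonempty_iff_ne_empty]
    rintro rfl
    rw [hPG] at hpP
    simp at hpP
  have h1 := hF.card_pos
  have h2 := hG.card_pos
  have hn : 0 < n := by omega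
  have hn' : (0 : ℝ) < n := by exact_mod_cast hn
  have hpi := Real.pi_pos
  have hlast : ∀ j : ℕ, j ≤ 10 * (n - 1) → an n j < Real.pi := by
    intro j hj
    unfold an
    rw [div_lt_iff₀ (by positivity)]
    have h3 : j ≤ 10 * n := by omega
    have h4 : (j : ℝ) ≤ 10 * n := by exact_mod_cast h3
    push_cast
    nlinarith
  obtain ⟨t, ht, V, y, h⟩ := common_corner hF hG (T := n - 1) (by omega)
    (ψ := fun k : ℕ => an n k)
    (fun i j hij _ => an_lt hn (by exact_mod_cast hij))
    (fun i j hi hj => by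
      have h3 := hlast j hj
      have h4 : 0 ≤ an n (i : ℕ) := by
        unfold an
        positivity
      show an n (j : ℕ) < an n (i : ℕ) + Real.pi
      linarith)
  refine block_thm hn hK hL hX (k := 10 * t) (V := V) (y := y) fun j h3 h4 => ?_
  have h5 := h j.toNat (by omega) (by omega)
  have h6 : ((j.toNat : ℕ) : ℤ) = j := Int.toNat_of_nonneg (by omega)
  simp only [h6] at h5
  rw [hKF, hPG]
  exact h5

theorem extreme_toE {K : Set (EuclideanSpace ℝ (Fin 2))} {v : ℝ × ℝ}
    (h : v ∈ (toE ⁻¹' K).extremePoints ℝ) : toE v ∈ K.extremePoints ℝ := by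
  refine ⟨h.1, fun x hx y hy hxy => ?_⟩
  obtain ⟨a, rfl⟩ := toE_surjective x
  obtain ⟨b, rfl⟩ := toE_surjective y
  have hin : Function.Injective toE := t1_hom.injective
  obtain ⟨p, q, hp, hq, hpq, e⟩ := hxy
  have e' : p • a + q • b = v := by
    apply hin
    rw [t1_linear.map_add, t1_linear.map_smul, t1_linear.map_smul]
    exact e
  have := h.2 hx hy ⟨p, q, hp, hq, hpq, e'⟩
  rw [this]

/-- bodies all of whose extreme points are corners, arbitrary holes -/
theorem holes_thm {n : ℕ} (hn : 0 < n) {K L P Q : Set (EuclideanSpace ℝ (Fin 2))}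
    (hK1 : IsCompact K) (hK2 : Convex ℝ K) (hK3 : (interior K).Nonempty)
    (hL1 : IsCompact L) (hL2 : Convex ℝ L) (hL3 : (interior L).Nonempty)
    (hP : closure P ⊆ interior K) (hQ : closure Q ⊆ interior L)
    (hV : ∀ V ∈ K.extremePoints ℝ, ∃ α : ℝ, ∀ ψ ∈ Icc α (α + 1 / n), NormalAt K V ψ)
    (hX : ∀ u ∈ dirs n, SameXray (K \ P) (L \ Q) u) : K = L := by
  have bK := IsBody_toE hK1 hK2 hK3
  have bL := IsBody_toE hL1 hL2 hL3
  have hcl : ∀ A B : Set (EuclideanSpace ℝ (Fin 2)), closure A ⊆ interior B →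
      closure (toE ⁻¹' A) ⊆ interior (toE ⁻¹' B) := by
    intro A B h
    rw [interior_toE]
    have h1 : closure (toE ⁻¹' A) ⊆ toE ⁻¹' closure A :=
      closure_minimal (preimage_mono subset_closure) (isClosed_closure.preimage t1_continuous_toE)
    exact h1.trans (preimage_mono h)
  apply eq_of_toE
  refine corners_holes bK bL (P := toE ⁻¹' P) (Q := toE ⁻¹' Q) (hcl P K hP) (hcl Q L hQ) ?_
  intro V hVe
  obtain ⟨α, hα⟩ := hV _ (extreme_toE hVe)
  obtain ⟨k, h1, h2⟩ := exists_block hn α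
  refine ⟨an n k, an n (k + 1), an n (k + 2), an_lt hn (by omega), an_lt hn (by omega),
    an_half hn (by omega), ?_⟩
  have key : ∀ j : ℤ, k ≤ j → j ≤ k + 13 → lv (an n j) V = hs (toE ⁻¹' K) (an n j) ∧
      ∀ c', volume {t : ℝ | pt (an n j) c' t ∈ toE ⁻¹' K \ toE ⁻¹' P} =
        volume {t : ℝ | pt (an n j) c' t ∈ toE ⁻¹' L \ toE ⁻¹' Q} := by
    intro j h3 h4
    refine ⟨(hα _ ⟨h1.trans (an_le hn h3), (an_le hn (by omega)).trans h2⟩).hs_eq bK.compact,
      fun c' => slices_of_sameXray (hX _ (mem_dirs hn j)) c'⟩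
  rintro ψ (rfl | rfl | rfl)
  · exact key k (by omega) (by omega)
  · exact key (k + 1) (by omega) (by omega)
  · exact key (k + 2) (by omega) (by omega)

end Pool.Agent.CRN
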