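import Pool.Agent.CRN.D4

/-!
# [CRN] One finite set of directions for all annuli with corners
-/

set_option autoImplicit false
open MeasureTheory Set
open Pool.Agent.XA

namespace Pool.Agent.CRN

/-- annuli with corners: (i) `K` and `P` have corners with a common arc of normals of length `η`, or (ii) every
extreme point of `K` is a corner whose normals contain an arc of length `η` (`P` is arbitrary), or (iii) `K` and
`P` are polygons with at most `N` vertices in total -/
def Cornered (η : ℝ) (N : ℕ) (K P : Set (EuclideanSpace ℝ (Fin 2))) : Prop :=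
  (∃ V y, ∃ α : ℝ, ∀ ψ ∈ Icc α (α + η), NormalAt K V ψ ∧ NormalAt P y ψ) ∨
  (∀ V ∈ K.extremePoints ℝ, ∃ α : ℝ, ∀ ψ ∈ Icc α (α + η), NormalAt K V ψ) ∨
  (∃ F G : Finset (EuclideanSpace ℝ (Fin 2)), F.card + G.card ≤ N ∧
    K = convexHull ℝ (F : Set (EuclideanSpace ℝ (Fin 2))) ∧
    P = convexHull ℝ (G : Set (EuclideanSpace ℝ (Fin 2))))

theorem slope_ne (a : ℝ) : (!₂[1, a] : EuclideanSpace ℝ (Fin 2)) ≠ 0 := by
  intro h
  have h1 := congrFun (congrArg (fun v : EuclideanSpace ℝ (Fin 2) => v.ofLp) h) 0
  simp at h1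

theorem main (η : ℝ) (N : ℕ) (hη : 0 < η) :
    ∃ U : Finset (EuclideanSpace ℝ (Fin 2)), (∀ u ∈ U, u ≠ 0) ∧
      ∀ K P L Q : Set (EuclideanSpace ℝ (Fin 2)), Annulus K P → Annulus L Q → Cornered η N K P →
        (∀ u ∈ U, SameXray (K \ interior P) (L \ interior Q) u) → K = L ∧ P = Q := by
  classical
  obtain ⟨n, hn⟩ := exists_nat_gt (max (1 / η) N)
  have hn1 : 1 / η < n := (le_max_left _ _).trans_lt hn
  have hn2 : (N : ℝ) < n := (le_max_right _ _).trans_lt hn
  have hn0' : (0 : ℝ) < n := lt_trans (by positivity) hn1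
  have hn0 : 0 < n := by exact_mod_cast hn0'
  have hN : N ≤ n := by exact_mod_cast hn2.le
  have hηn : 1 / (n : ℝ) ≤ η := by
    rw [div_lt_iff₀ hη] at hn1
    rw [div_le_iff₀ hn0']
    linarith
  obtain ⟨s, hs⟩ := exists_slopes 1000
  refine ⟨dirs n ∪ (Finset.range 1000).image (fun r => (!₂[1, s r] : EuclideanSpace ℝ (Fin 2))),
    ?_, ?_⟩
  · intro u hu
    rcases Finset.mem_union.1 hu with hu | hu
    · exact dirs_ne_zero u hu
    · obtain ⟨r, -, rfl⟩ := Finset.mem_image.1 hu
      exact slope_ne (s r)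
  · intro K P L Q hK hL hc hX
    have hX1 : ∀ u ∈ dirs n, SameXray (K \ interior P) (L \ interior Q) u :=
      fun u hu => hX u (Finset.mem_union_left _ hu)
    rcases hc with ⟨V, y, α, h⟩ | h | ⟨F, G, h1, h2, h3⟩
    · exact facing_thm hn0 hK hL hX1 (V := V) (y := y) (α := α)
        fun ψ hψ => h ψ ⟨hψ.1, hψ.2.trans (by linarith)⟩
    · have cl : ∀ A B : Set (EuclideanSpace ℝ (Fin 2)), IsCompact A → A ⊆ interior B →
          closure (interior A) ⊆ interior B := fun A B hA hAB =>
        (closure_minimal interior_subset hA.isClosed).trans hAB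
      have nonempty : ∀ A B : Set (EuclideanSpace ℝ (Fin 2)), Annulus A B →
          (interior A).Nonempty := fun A B h => by
        obtain ⟨x, hx⟩ := h.nonempty'
        exact ⟨x, h.subset (interior_subset hx)⟩
      have hKL : K = L := by
        refine holes_thm hn0 hK.compact hK.convex (nonempty K P hK) hL.compact hL.convex
          (nonempty L Q hL) (cl P K hK.compact' hK.subset) (cl Q L hL.compact' hL.subset) ?_ hX1
        intro V hV
        obtain ⟨α, hα⟩ := h V hV
        exact ⟨α, fun ψ hψ => hα ψ ⟨hψ.1, hψ.2.trans (by linarith)⟩⟩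
      refine ⟨hKL, ?_⟩
      subst hKL
      refine inner_thm (N := 1000) (by norm_num) hs ?_ hK.compact' hK.convex' hK.nonempty'
        hL.compact' hL.convex' hL.nonempty' fun r hr x => ?_
      · have := Real.pi_lt_d2
        push_cast
        linarith
      · have hu : (!₂[1, s r] : EuclideanSpace ℝ (Fin 2)) ∈ dirs n ∪ (Finset.range 1000).image
            (fun r => (!₂[1, s r] : EuclideanSpace ℝ (Fin 2))) :=
          Finset.mem_union_right _ (Finset.mem_image.2 ⟨r, Finset.mem_range.2 hr, rfl⟩)
        exact inner_slice hK.compact isOpen_interior isOpen_interior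
          (interior_subset.trans (hK.subset.trans interior_subset))
          (interior_subset.trans (hL.subset.trans interior_subset)) (slope_ne (s r)) (hX _ hu x)
    · exact polygon_thm hK hL hX1 (h1.trans hN) h2 h3

end Pool.Agent.CRN
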